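import Mathlib
import Pool.Agent.H84.UC.Basic

/-!
# Cocycles of rational maps over zero dimensional systems (MP_8f2e1c_an): definitions

Continuation of the library `H84/UC` (uniform compositions).  `X` is a compact zero dimensional space,
`T` a homeomorphism of `X` without periodic points of small period, `G x : S → S` a map for every
`x : X`.
-/

set_option autoImplicit false

namespace Pool.Agent.H56.CF

open Pool.Agent.H84.UC

/-- One block of the composition: `n` maps `F 0, ..., F (n-1)` and finite sets `V t` (the critical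
values of `F t`).  `Ω` is the finite set of letters; `P ω` = the centres of the discs at the end of the
block if its last segment uses the letter `ω`; `Acc ω` = the points accepted by the first segment with
the letter `ω`; `Adm ω₀ ω₁` = the letters `ω₀` (first segment) and `ω₁` (last segment) can be joined. -/
def BlockData {S K Ω : Type} [MetricSpace S] [Monoid K] [MulAction K S] [Fintype Ω] (κ : Kick K S)
    (ε ρ ρ' : ℝ) (m M : ℕ) (n : ℕ) (F : ℕ → S → S) (V : ℕ → Finset S)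
    (P : Ω → Finset S) (Acc : Ω → Set S) (Adm : Ω → Ω → Prop) : Prop :=
  (∀ ω, (P ω).card ≤ m) ∧
  (∀ p, 5 * (m * {ω | p ∉ Acc ω}.ncard) ≤ Fintype.card Ω) ∧
  (∀ ω₀, 4 * {ω₁ | ¬ Adm ω₀ ω₁}.ncard < Fintype.card Ω) ∧
  ∀ ω₀ ω₁, Adm ω₀ ω₁ → ∃ A : ℕ → K, (∀ t, κ.nrm (A t) < ε) ∧
    M * {t : ℕ | t < n ∧ A t ≠ 1}.ncard ≤ n ∧
    (∀ p ∈ Acc ω₀, ∃ z ∈ P ω₁, ∀ x, dist x p ≤ ρ → dist (cp (kick A F) 0 n x) z < ρ') ∧
    (∀ t < n, ∀ v ∈ V t, ∃ z ∈ P ω₁,
      dist (cp (kick A F) (t + 1) (n - (t + 1)) (A t • v)) z < ρ')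

/-- a block: its length, at least `N`, and its word -/
abbrev Blk (N : ℕ) (ι : Type) : Type := {b : ℕ × (ℕ → ι) // N ≤ b.1}

/-- Output of the selection: kicks `A a b c` for the block `b` between the blocks `a` and `c`, and centres
`Q a b c` of the discs at the end of the block `b`. -/
structure Sel {S K ι : Type} [MetricSpace S] [Monoid K] [MulAction K S] (κ : Kick K S)
    (f : ι → S → S) (W : ι → Finset S) (ε ρ ρ' : ℝ) (M N : ℕ) where
  A : Blk N ι → Blk N ι → Blk N ι → ℕ → K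
  Q : Blk N ι → Blk N ι → Blk N ι → Finset S
  nrm_lt : ∀ a b c t, κ.nrm (A a b c t) < ε
  rare : ∀ a b c, M * {t : ℕ | t < b.1.1 ∧ A a b c t ≠ 1}.ncard ≤ b.1.1
  disc : ∀ a b c d, ∀ p ∈ Q a b c, ∃ z ∈ Q b c d, ∀ x, dist x p ≤ ρ →
    dist (cp (kick (A b c d) (fun t => f (c.1.2 t))) 0 c.1.1 x) z < ρ'
  birth : ∀ a b c, ∀ t < b.1.1, ∀ v ∈ W (b.1.2 t), ∃ z ∈ Q a b c,
    dist (cp (kick (A a b c) (fun t => f (b.1.2 t))) (t + 1) (b.1.1 - (t + 1)) (A a b c t • v)) z < ρ'

/-- the maps along the orbit of `x` -/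
def orb {X S : Type*} (T : X → X) (G : X → S → S) (x : X) : ℕ → S → S := fun t => G (T^[t] x)

/-- `B` is the base of towers with heights `r b ∈ [N, N']` which cover `X` -/
def Base {X : Type*} (T : X → X) (B : Set X) (r : X → ℕ) (N N' : ℕ) : Prop :=
  (∀ b ∈ B, N ≤ r b ∧ r b ≤ N' ∧ T^[r b] b ∈ B) ∧ ∀ x, ∃ b ∈ B, ∃ t < r b, T^[t] b = x

/-- Moving discs over `(X, T)`: `Z b` = centres of the discs at the beginning of the block which starts
at `b ∈ B`; `V x` = the critical values of `G x`. -/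
def Trap {X S : Type*} [MetricSpace S] (T : X → X) (G : X → S → S) (V : X → Set S) (B : Set X)
    (r : X → ℕ) (Z : X → Finset S) (ρ ρ' : ℝ) : Prop :=
  (∀ b ∈ B, ∀ p ∈ Z b, ∃ z ∈ Z (T^[r b] b), ∀ y, dist y p ≤ ρ →
    dist (cp (orb T G b) 0 (r b) y) z < ρ') ∧
  (∀ b ∈ B, ∀ t < r b, ∀ v ∈ V (T^[t] b), ∃ z ∈ Z (T^[r b] b),
    dist (cp (orb T G b) (t + 1) (r b - (t + 1)) v) z < ρ')

theorem orb_shift {X S : Type*} (T : X → X) (G : X → S → S) (x : X) (s t : ℕ) :
    orb T G (T^[s] x) t = orb T G x (s + t) := by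
  unfold orb
  rw [← Function.iterate_add_apply, Nat.add_comm]

theorem cp_orb_shift {X S : Type*} (T : X → X) (G : X → S → S) (x : X) (s i k : ℕ) (y : S) :
    cp (orb T G (T^[s] x)) i k y = cp (orb T G x) (s + i) k y :=
  cp_congr (fun j _ => by rw [orb_shift, Nat.add_assoc]) y

end Pool.Agent.H56.CF
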