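import Mathlib
import Pool.Agent.H56.CF.Defs

/-!
# MODULE APPROXT: moving discs with a margin survive small changes of the maps

PROOF.
`cp_close`: induction on `k`:
`dist (g' (cp g' x)) (g (cp g y)) ≤ dist (g' (cp g' x)) (g (cp g' x)) + dist (g (cp g' x)) (g (cp g y)) ≤
η + L * (L^k * (dist x y + k η)) ≤ L^(k+1) * (dist x y + (k+1) η)` (`η ≤ L^(k+1) η`).

`approx_trap`: first part: `b ∈ B`, `p ∈ Z b`, take the `z` of `h.1`; for `dist y p ≤ ρ`
`dist (cp (orb T G' b) 0 (r b) y) z ≤ L^(r b) * (0 + r b * η) + dist (cp (orb T G b) 0 (r b) y) z <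
L^N' * ((N'+1) η) + ρ' ≤ ρ''`.  Second part: `v ∈ V' (T^t b)`, take `v' ∈ V (T^t b)` with `dist v v' ≤ η` and the
`z` of `h.2`; the number of steps is `r b - (t+1) ≤ N'`, and
`dist .. z < L^N' * (η + N' * η) + ρ' ≤ ρ''`.
-/

set_option autoImplicit false

namespace Pool.Agent.H56.CF

open Pool.Agent.H84.UC

theorem cp_close {S : Type*} [MetricSpace S] {g g' : ℕ → S → S} {L η : ℝ} (hL1 : 1 ≤ L)
    (hη : 0 ≤ η) (hL : ∀ i x y, dist (g i x) (g i y) ≤ L * dist x y)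
    (hg : ∀ i x, dist (g' i x) (g i x) ≤ η) (s k : ℕ) (x y : S) :
    dist (cp g' s k x) (cp g s k y) ≤ L ^ k * (dist x y + k * η) := by
  have hL0 : 0 ≤ L := by linarith
  induction k with
  | zero => simp
  | succ k ih =>
    rw [cp_succ, cp_succ]
    have h1 := dist_triangle (g' (s + k) (cp g' s k x)) (g (s + k) (cp g' s k x))
      (g (s + k) (cp g s k y))
    have h2 := hg (s + k) (cp g' s k x)
    have h3 := hL (s + k) (cp g' s k x) (cp g s k y)
    have h4 := mul_le_mul_of_nonneg_left ih hL0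
    have h5 : 1 ≤ L ^ (k + 1) := one_le_pow₀ hL1
    have h6 : η ≤ L ^ (k + 1) * η := le_mul_of_one_le_left hη h5
    have h7 : L * (L ^ k * (dist x y + k * η)) = L ^ (k + 1) * (dist x y + k * η) := by
      rw [pow_succ]
      ring
    have h8 : L ^ (k + 1) * (dist x y + ((k + 1 : ℕ) : ℝ) * η) =
        L ^ (k + 1) * (dist x y + k * η) + L ^ (k + 1) * η := by
      push_cast
      ring
    rw [h8]
    linarith

theorem approxt_bd {L η d : ℝ} {k N' : ℕ} (hL1 : 1 ≤ L) (hη : 0 ≤ η) (hd : d ≤ η) (hk : k ≤ N') :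
    L ^ k * (d + k * η) ≤ L ^ N' * ((N' + 1) * η) := by
  have h1 : L ^ k ≤ L ^ N' := pow_le_pow_right₀ hL1 hk
  have h2 : (k : ℝ) ≤ N' := by exact_mod_cast hk
  have h3 : (k : ℝ) * η ≤ N' * η := mul_le_mul_of_nonneg_right h2 hη
  have h4 : 0 ≤ L ^ k := by positivity
  calc L ^ k * (d + k * η) ≤ L ^ k * ((N' + 1) * η) :=
        mul_le_mul_of_nonneg_left (by linarith) h4
    _ ≤ L ^ N' * ((N' + 1) * η) := mul_le_mul_of_nonneg_right h1 (by positivity)

theorem approx_trap {X S : Type*} [MetricSpace S] {T : X → X} {G G' : X → S → S}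
    {V V' : X → Set S} {B : Set X} {r : X → ℕ} {Z : X → Finset S} {ρ ρ' ρ'' L η : ℝ} {N N' : ℕ}
    (hL1 : 1 ≤ L) (hη : 0 ≤ η) (hL : ∀ x a b, dist (G x a) (G x b) ≤ L * dist a b)
    (hG : ∀ x a, dist (G' x a) (G x a) ≤ η)
    (hV : ∀ x, ∀ v ∈ V' x, ∃ v' ∈ V x, dist v v' ≤ η)
    (hB : Base T B r N N') (h : Trap T G V B r Z ρ ρ')
    (hρ : L ^ N' * ((N' + 1) * η) + ρ' ≤ ρ'') :
    Trap T G' V' B r Z ρ ρ'' := by
  have hL' : ∀ b i x y, dist (orb T G b i x) (orb T G b i y) ≤ L * dist x y :=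
    fun b i x y => hL _ x y
  have hG' : ∀ b i x, dist (orb T G' b i x) (orb T G b i x) ≤ η := fun b i x => hG _ x
  refine ⟨?_, ?_⟩
  · intro b hb p hp
    obtain ⟨z, hz, hzz⟩ := h.1 b hb p hp
    refine ⟨z, hz, fun y hy => ?_⟩
    have h1 := cp_close hL1 hη (hL' b) (hG' b) 0 (r b) y y
    rw [dist_self] at h1
    have h2 := approxt_bd hL1 hη hη (hB.1 b hb).2.1
    have h3 := hzz y hy
    have h4 := dist_triangle (cp (orb T G' b) 0 (r b) y) (cp (orb T G b) 0 (r b) y) z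
    linarith
  · intro b hb t ht v hv
    obtain ⟨v', hv', hvv⟩ := hV _ v hv
    obtain ⟨z, hz, hzz⟩ := h.2 b hb t ht v' hv'
    refine ⟨z, hz, ?_⟩
    have h1 := cp_close hL1 hη (hL' b) (hG' b) (t + 1) (r b - (t + 1)) v v'
    have h5 := (hB.1 b hb).2.1
    have h2 := approxt_bd (k := r b - (t + 1)) (N' := N') hL1 hη hvv (by omega)
    have h4 := dist_triangle (cp (orb T G' b) (t + 1) (r b - (t + 1)) v)
      (cp (orb T G b) (t + 1) (r b - (t + 1)) v') z
    linarith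

end Pool.Agent.H56.CF
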