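import Mathlib
import Pool.Agent.H84.UC.Sink

/-!
# MODULE ATTRC: uniform contraction along an orbit gives an attracting cycle

PROOF.  `Sph` is compact (metric `sphMetric`).  Choose `n₀` with `C * l^n₀ < δ / 4`.  The sequence `F^k c` has a
convergent subsequence (`CompactSpace.tendsto_subseq`), which is Cauchy, so there are `a, b` with
`b ≥ a + n₀`, `b > a` and `dist (F^a c) (F^b c) < δ / 4`.  Put `u = F^a c`, `m = b - a ≥ max n₀ 1`, `Φ = F^m`.
* `dist y u < δ → dist (Φ y) u < δ / 2`: `dist (F^m y) (F^(a+m) c) ≤ C l^m ≤ C l^n₀ < δ/4` (if `C < 0` the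
  bound is impossible since distances are `≥ 0`; so `0 ≤ C` and `C l^m ≤ C l^n₀`), and `F^(a+m) c = F^b c`.
* So `Φ^k y` stays in the ball, and `dist (Φ^k y) (Φ^k u) ≤ C * (l^m)^k` (`F^(m k)`; hypothesis with `k := a`).
* `s k = Φ^k u`: `dist (s (k+1)) (s k) = dist (Φ^k (Φ u)) (Φ^k u) ≤ C (l^m)^k`, so `s` is Cauchy
  (`cauchySeq_of_le_geometric`) and converges to some `z` with `Φ z = z` (continuity) and `dist z u ≤ δ/2 < δ`.
* Every `w` in the ball `U` of radius `δ` around `u` (a neighbourhood of `z`) has `Φ^k w → z`.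
So `Attr F u` with `z`, the period `m`, `U` (`F^[m * k] = (F^[m])^[k]`, `Function.iterate_mul`), and
`attr_of_iterate` (`H35/NA/TrapS`) with `m := a` gives `Attr F c`.
-/

set_option autoImplicit false

open Filter Topology OnePoint
open Pool.Agent.H44.Fatou
open Pool.Agent.H35.NA (Attr attr_of_iterate)

namespace Pool.Agent.H56.CF

open Pool.Agent.H84.UC

theorem attr_of_contr {F : Sph → Sph} (hF : Continuous F) {c : Sph} {δ C l : ℝ} (hδ : 0 < δ)
    (hl0 : 0 < l) (hl1 : l < 1)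
    (h : ∀ (k n : ℕ) (y : Sph), dist y (F^[k] c) < δ →
      dist (F^[n] y) (F^[k + n] c) ≤ C * l ^ n) : Attr F c := by
  have hC : 0 ≤ C := by
    have h1 := h 0 0 c (by simpa using hδ)
    simpa using h1
  obtain ⟨n₀, hn₀⟩ : ∃ n₀ : ℕ, C * l ^ n₀ < δ / 4 := by
    have h1 := (tendsto_pow_atTop_nhds_zero_of_lt_one hl0.le hl1).const_mul C
    rw [mul_zero] at h1
    exact (h1.eventually (gt_mem_nhds (by linarith))).exists
  obtain ⟨a, b, hab, hdist⟩ : ∃ a b : ℕ, a + n₀ + 1 ≤ b ∧ dist (F^[b] c) (F^[a] c) < δ / 4 := by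
    obtain ⟨x, φ, hφ, hx⟩ := CompactSpace.tendsto_subseq (fun k => F^[k] c)
    obtain ⟨N, hN⟩ := Metric.cauchySeq_iff.1 hx.cauchySeq (δ / 4) (by linarith)
    obtain ⟨j, hj⟩ := ((hφ.tendsto_atTop.eventually_ge_atTop (φ N + n₀ + 1)).and
      (eventually_ge_atTop N)).exists
    exact ⟨φ N, φ j, hj.1, hN j hj.2 N le_rfl⟩
  obtain ⟨m, hm⟩ : ∃ m, b = a + m := ⟨b - a, by omega⟩
  have hm1 : n₀ + 1 ≤ m := by omega
  have hlm0 : 0 ≤ l ^ m := pow_nonneg hl0.le m
  have hlm1 : l ^ m < 1 := pow_lt_one₀ hl0.le hl1 (by omega)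
  have h1 : ∀ y, dist y (F^[a] c) < δ → dist (F^[m] y) (F^[a] c) < δ / 2 := by
    intro y hy
    have h2 := h a m y hy
    have h3 : C * l ^ m ≤ C * l ^ n₀ :=
      mul_le_mul_of_nonneg_left (pow_le_pow_of_le_one hl0.le hl1.le (by omega)) hC
    have h4 := dist_triangle (F^[m] y) (F^[a + m] c) (F^[a] c)
    rw [hm] at hdist
    linarith
  have h2 : ∀ (k : ℕ) (y : Sph), dist y (F^[a] c) < δ →
      dist ((F^[m])^[k] y) ((F^[m])^[k] (F^[a] c)) ≤ C * (l ^ m) ^ k := by
    intro k y hy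
    have h3 := h a (m * k) y hy
    rw [← Function.iterate_mul, ← Function.iterate_add_apply, Nat.add_comm (m * k) a, ← pow_mul]
    exact h3
  have hu : dist (F^[a] c) (F^[a] c) < δ := by
    rw [dist_self]
    exact hδ
  have hcau : CauchySeq (fun k : ℕ => (F^[m])^[k] (F^[a] c)) := by
    refine cauchySeq_of_le_geometric (l ^ m) C hlm1 (fun k => ?_)
    rw [Function.iterate_succ_apply, dist_comm]
    exact h2 k _ ((h1 _ hu).trans (by linarith))
  obtain ⟨z, hz⟩ := cauchySeq_tendsto_of_complete hcau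
  have hΦ : Continuous F^[m] := hF.iterate m
  have hfix : F^[m] z = z := by
    have h3 : Tendsto (fun k : ℕ => F^[m] ((F^[m])^[k] (F^[a] c))) atTop (𝓝 (F^[m] z)) :=
      (hΦ.tendsto z).comp hz
    have h4 : Tendsto (fun k : ℕ => (F^[m])^[k + 1] (F^[a] c)) atTop (𝓝 z) :=
      (tendsto_add_atTop_iff_nat 1).2 hz
    refine tendsto_nhds_unique h3 ?_
    simpa only [Function.iterate_succ_apply'] using h4
  have hball : ∀ k : ℕ, dist ((F^[m])^[k] (F^[a] c)) (F^[a] c) < δ := by
    intro k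
    induction k with
    | zero => exact hu
    | succ k ih =>
      rw [Function.iterate_succ_apply']
      exact (h1 _ ih).trans (by linarith)
  have hzu : dist z (F^[a] c) ≤ δ / 2 := by
    have h4 : Tendsto (fun k : ℕ => (F^[m])^[k + 1] (F^[a] c)) atTop (𝓝 z) :=
      (tendsto_add_atTop_iff_nat 1).2 hz
    refine le_of_tendsto (h4.dist tendsto_const_nhds) (Eventually.of_forall fun k => ?_)
    rw [Function.iterate_succ_apply']
    exact (h1 _ (hball k)).le
  have hconv : ∀ w : Sph, dist w (F^[a] c) < δ →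
      Tendsto (fun k : ℕ => F^[m * k] w) atTop (𝓝 z) := by
    intro w hw
    simp only [Function.iterate_mul]
    refine tendsto_iff_dist_tendsto_zero.2 ?_
    have h5 : Tendsto (fun k : ℕ => C * (l ^ m) ^ k + dist ((F^[m])^[k] (F^[a] c)) z) atTop
        (𝓝 0) := by
      have h6 := (tendsto_pow_atTop_nhds_zero_of_lt_one hlm0 hlm1).const_mul C
      have h7 := tendsto_iff_dist_tendsto_zero.1 hz
      have h8 := h6.add h7
      rwa [mul_zero, add_zero] at h8
    refine squeeze_zero (fun k => dist_nonneg) (fun k => ?_) h5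
    refine (dist_triangle _ ((F^[m])^[k] (F^[a] c)) _).trans ?_
    exact add_le_add (h2 k w hw) le_rfl
  apply attr_of_iterate hF a
  refine ⟨z, m, by omega, hfix, ⟨{w | dist w (F^[a] c) < δ}, ?_, fun w hw => hconv w hw⟩,
    hconv _ hu⟩
  exact (isOpen_lt (continuous_id.dist continuous_const) continuous_const).mem_nhds
    (show dist z (F^[a] c) < δ by linarith)

end Pool.Agent.H56.CF
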