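import Mathlib
import Pool.Agent.H84.UC.Segment
import Pool.Agent.H56.CF.SegDetM

/-!
# The segment lemma with a margin

Copy of `H84/UC/Segment`: the final discs have radius `ρ' = 15/16 ρ`.
-/

set_option autoImplicit false

namespace Pool.Agent.H56.CF

open Pool.Agent.H84.UC

theorem seg_h4M {ρL ρm : ℝ} {a q c1 c2 : ℕ} (hρm : 0 < ρm) (h2 : ρL ≤ 2 ^ c2 * ρm) :
    (ρL + ρm / 2 ^ ((a + 1) * (2 * q))) *
      2 ^ ((a + 1) * (2 * q) + a * ((a + 1) * (2 * q) + c1)) /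
      2 ^ (2 * (a + 1) * (a + 2) * q + (a * c1 + c2 + 2)) <
      15 / 16 * (ρm / 2 ^ ((a + 1) * (2 * q))) := by
  have h3 : ρm / 2 ^ ((a + 1) * (2 * q)) ≤ ρm := by
    apply div_le_self hρm.le
    exact one_le_pow₀ (by norm_num)
  have h4 : ρL + ρm / 2 ^ ((a + 1) * (2 * q)) ≤ 2 ^ (c2 + 1) * ρm := by
    have : (1 : ℝ) ≤ 2 ^ c2 := one_le_pow₀ (by norm_num)
    rw [pow_succ]
    nlinarith
  rw [← mul_div_assoc, div_lt_div_iff₀ (by positivity) (by positivity)]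
  calc (ρL + ρm / 2 ^ ((a + 1) * (2 * q))) *
      2 ^ ((a + 1) * (2 * q) + a * ((a + 1) * (2 * q) + c1)) * 2 ^ ((a + 1) * (2 * q))
      ≤ (2 ^ (c2 + 1) * ρm) *
      2 ^ ((a + 1) * (2 * q) + a * ((a + 1) * (2 * q) + c1)) * 2 ^ ((a + 1) * (2 * q)) := by
        gcongr
    _ = 1 / 2 * (ρm * 2 ^ (2 * (a + 1) * (a + 2) * q + (a * c1 + c2 + 2))) := by
        ring
    _ < 15 / 16 * ρm * 2 ^ (2 * (a + 1) * (a + 2) * q + (a * c1 + c2 + 2)) := by
        have : 0 < ρm * 2 ^ (2 * (a + 1) * (a + 2) * q + (a * c1 + c2 + 2)) := by positivity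
        nlinarith

theorem seg_h3M {r ρm : ℝ} {a q c1 : ℕ} (hr : 0 < r) (hρm : 0 < ρm) (h1 : r ≤ 2 ^ c1 * ρm) :
    7 / 8 * r / 2 ^ ((a + 1) * (2 * q) + c1) < 15 / 16 * (ρm / 2 ^ ((a + 1) * (2 * q))) := by
  rw [pow_add, ← div_div, div_right_comm, ← mul_div_assoc]
  apply div_lt_div_of_pos_right _ (by positivity)
  rw [div_lt_iff₀ (by positivity)]
  nlinarith

open Classical in
theorem segmentM {S K : Type} [MetricSpace S] [CompactSpace S] [Nonempty S] [Monoid K] [MulAction K S]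
    (κ : Kick K S) {H : Set (S → S)} (hLC : LC H) (L r ε ρmax : ℝ) (hL : 1 ≤ L) (hr : 0 < r)
    (hε : 0 < ε) (hρ : 0 < ρmax) (B : ℕ) :
    ∃ (Ω : Type) (_ : Fintype Ω) (_ : Nonempty Ω) (m Lw : ℕ) (R : Ω → ℕ → K) (ρ ρ' : ℝ),
      1 ≤ Lw ∧ (∀ ω k, κ.nrm (R ω k) < ε) ∧ 0 < ρ' ∧ ρ' < ρ ∧ ρ ≤ ρmax ∧
      ∀ (h : ℕ → S → S) (X : ℕ → S), (∀ k, h k ∈ H) →
        (∀ k a b, dist (h k a) (h k b) ≤ L * dist a b) → MovingDisc h X r →
        ∃ Z : Ω → Finset S, (∀ ω, (Z ω).card ≤ m) ∧ ∀ p : S,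
          5 * ((m + B * Lw) * (Finset.univ.filter (fun ω : Ω => ¬ ∃ z ∈ Z ω, ∀ x, dist x p ≤ ρ →
            dist (cp (kick (R ω) h) 0 Lw x) z < ρ')).card) ≤ Fintype.card Ω := by
  obtain ⟨J, hJ, n, γ, hn, hγε, hγr, ρL, hρL, hblk⟩ := block κ hLC L r ε hL hr hε
  obtain ⟨a, ha⟩ := pow_unbounded_of_one_lt (L ^ J) (one_lt_two)
  -- the net
  obtain ⟨N, hN⟩ : ∃ N : Finset S, ∀ x, ∃ ζ ∈ N, dist ζ x ≤ ρL := by
    obtain ⟨t, _, htf, ht⟩ := finite_cover_balls_of_compact (isCompact_univ (X := S)) hρL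
    refine ⟨htf.toFinset, fun x => ?_⟩
    have hx := ht (Set.mem_univ x)
    rw [Set.mem_iUnion₂] at hx
    obtain ⟨ζ, hζ, hxζ⟩ := hx
    refine ⟨ζ, htf.mem_toFinset.2 hζ, ?_⟩
    rw [dist_comm]
    exact (Metric.mem_ball.1 hxζ).le
  set ρm : ℝ := min (min ρL (r / 8)) ρmax with hρmdef
  have hρm0 : 0 < ρm := lt_min (lt_min hρL (by linarith)) hρ
  have hρmL : ρm ≤ ρL := (min_le_left _ _).trans (min_le_left _ _)
  have hρmr : ρm ≤ r / 8 := (min_le_left _ _).trans (min_le_right _ _)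
  have hρmx : ρm ≤ ρmax := min_le_right _ _
  obtain ⟨c1, hc1⟩ := seg_exists_pow (x := r) hρm0
  obtain ⟨c2, hc2⟩ := seg_exists_pow (x := ρL) hρm0
  obtain ⟨A, hA⟩ : ∃ A : ℕ, A = 2 ^ (2 * (a + 1) * (a + 2) + 1) := ⟨_, rfl⟩
  have hApos : 0 < A := by rw [hA]; positivity
  haveI : Nonempty (Fin A) := ⟨⟨0, hApos⟩⟩
  haveI : Nonempty (Fin n) := ⟨⟨0, hn⟩⟩
  haveI hWne : Nonempty ((Fin J → Fin n) × Fin A) := inferInstance
  have hWpos : 1 ≤ Fintype.card ((Fin J → Fin n) × Fin A) := Fintype.card_pos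
  obtain ⟨q, hq1, hq⟩ := seg_num (Fintype.card ((Fin J → Fin n) × Fin A)) N.card J B a c1
    (2 * (a + 1) * (a + 2)) (a * c1 + c2 + 2) hWpos
  obtain ⟨b, hb⟩ : ∃ b : ℕ, b = 2 * (a + 1) * (a + 2) * q + (a * c1 + c2 + 2) := ⟨_, rfl⟩
  obtain ⟨lq, hlq⟩ : ∃ lq : ℕ, lq = (a + 1) * (2 * q) + c1 := ⟨_, rfl⟩
  obtain ⟨ρ, hρdef⟩ : ∃ ρ : ℝ, ρ = ρm / 2 ^ ((a + 1) * (2 * q)) := ⟨_, rfl⟩
  have hρ0 : 0 < ρ := by rw [hρdef]; positivity
  have hρm : ρ ≤ ρm := by
    rw [hρdef]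
    exact div_le_self hρm0.le (one_le_pow₀ (by norm_num))
  have hnrm1 : κ.nrm 1 = 0 := κ.nrm_one
  refine ⟨Fin b → (Fin J → Fin n) × Fin A, inferInstance, inferInstance, 1 + (b + 1) * N.card,
    b * J + lq, fun ω => segR γ ω, ρ, 15 / 16 * ρ, ?_, ?_, by positivity, by linarith,
    hρm.trans hρmx, ?_⟩
  · have h1 : 1 ≤ b := by omega
    have h2 : 1 ≤ b * J := Nat.mul_pos h1 hJ
    omega
  · intro ω k
    exact segR_ind γ (fun x => κ.nrm x < ε) (by rw [hnrm1]; exact hε) hγε ω k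
  intro h X hH hLip hM
  have hRr : ∀ (ω : Fin b → (Fin J → Fin n) × Fin A) k, κ.nrm (segR γ ω k) ≤ r / 4 :=
    fun ω k => segR_ind γ (fun x => κ.nrm x ≤ r / 4) (by rw [hnrm1]; linarith) hγr ω k
  refine ⟨fun ω => segZ (kick (segR γ ω) h) X N b J (b * J + lq),
    fun ω => segZ_card _ _ _ _ _ _, ?_⟩
  intro p
  -- the two kinds of bad words
  have hbad : ∀ ω : Fin b → (Fin J → Fin n) × Fin A,
      (¬ ∃ z ∈ segZ (kick (segR γ ω) h) X N b J (b * J + lq), ∀ x, dist x p ≤ ρ →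
        dist (cp (kick (segR γ ω) h) 0 (b * J + lq) x) z < 15 / 16 * ρ) →
      (q - 1 + 1 ≤ ((Finset.range b).filter (fun i =>
        ¬ dist (pos (segStep γ h) ω p i) (X (i * J)) ≤ 3 / 4 * r ∧
          Hit γ h X r J (i * J) (pos (segStep γ h) ω p i))).card) ∨
      (q ≤ (Finset.univ.filter (fun i => (ω i).2.val = 0)).card) := by
    intro ω hω
    by_contra hcon
    obtain ⟨hcA, hcB⟩ := not_or.1 hcon
    rw [not_le] at hcA hcB
    apply hω
    have hcB' : ((Finset.range b).filter (fun i => (ext ω i).2.val = 0)).card < q := by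
      refine lt_of_le_of_lt ?_ hcB
      refine le_of_eq_of_le ?_ ((seg_act_count
        (fun u : (Fin J → Fin n) × Fin A => u.2.val = 0) ω).trans (le_of_eq ?_)) <;> congr!
    have hE : ((Finset.range b).filter (fun i =>
      ¬ dist (cp (kick (segR γ ω) h) 0 (i * J) p) (X (i * J)) ≤ 3 / 4 * r ∧
      (Hit γ h X r J (i * J) (cp (kick (segR γ ω) h) 0 (i * J) p) ∨
        (ext ω i).2.val = 0))).card ≤ 2 * q := by
      have hsub : (Finset.range b).filter (fun i =>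
          ¬ dist (cp (kick (segR γ ω) h) 0 (i * J) p) (X (i * J)) ≤ 3 / 4 * r ∧
          (Hit γ h X r J (i * J) (cp (kick (segR γ ω) h) 0 (i * J) p) ∨
            (ext ω i).2.val = 0)) ⊆
          ((Finset.range b).filter (fun i =>
            ¬ dist (pos (segStep γ h) ω p i) (X (i * J)) ≤ 3 / 4 * r ∧
            Hit γ h X r J (i * J) (pos (segStep γ h) ω p i))) ∪
          ((Finset.range b).filter (fun i => (ext ω i).2.val = 0)) := by
        intro i hi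
        rw [Finset.mem_filter] at hi
        obtain ⟨hir, hi1, hi2⟩ := hi
        rw [Finset.mem_union, Finset.mem_filter, Finset.mem_filter]
        have hps := seg_pos γ h ω p i (Finset.mem_range.1 hir).le
        rcases hi2 with hi2 | hi2
        · left
          refine ⟨hir, ?_⟩
          rw [hps]
          exact ⟨hi1, hi2⟩
        · exact Or.inr ⟨hir, hi2⟩
      have h1 := (Finset.card_le_card hsub).trans (Finset.card_union_le _ _)
      omega
    obtain ⟨z, hz1, hz2⟩ := seg_detM κ (ρ' := 15 / 16 * ρ) hL hr hρL hρ0 (b := b) (e := 2 * q)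
      (lq := lq) hJ ha.le γ h X
      hLip hM (hblk h X hH hLip hM) N hN
      (by rw [hρdef, div_mul_cancel₀ _ (by positivity)]; exact hρmL)
      (by rw [hρdef, div_mul_cancel₀ _ (by positivity)]; exact hρmr)
      (by rw [hρdef, hlq]; exact seg_h3M hr hρm0 hc1)
      (by rw [hρdef, hlq, hb]; exact seg_h4M hρm0 hc2)
      (segR γ ω) (fun i => (ext ω i).2.val = 0)
      (fun k hk => by unfold segR; rw [if_neg (by omega)])
      (fun i hi hact j hj => by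
        rw [segR_eq γ ω hi hj]; unfold segBlk; rw [dif_neg (fun hh => hact hh.2)])
      (hRr ω) p (by convert hE)
    exact ⟨z, segZ_mem hz1, hz2⟩
  -- counting
  have hcapA : ∀ (i : ℕ) (u : (Fin J → Fin n) × Fin A) (y : S), dist y (X (i * J)) ≤ 3 / 4 * r →
      dist (segStep γ h i u y) (X ((i + 1) * J)) ≤ 3 / 4 * r := by
    intro i u y hy
    rw [Nat.succ_mul]
    exact seg_stay κ hr hM (segBlk γ u) (fun j => segBlk_ind γ (fun x => κ.nrm x ≤ r / 4)
      (by rw [hnrm1]; linarith) hγr u j) (i * J) y hy J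
  have hnsA : ∀ (i : ℕ) (y : S), Hit γ h X r J (i * J) y →
      ∃ u : (Fin J → Fin n) × Fin A, dist (segStep γ h i u y) (X ((i + 1) * J)) ≤ 3 / 4 * r := by
    rintro i y ⟨u, hu⟩
    refine ⟨(u, ⟨0, hApos⟩), ?_⟩
    rw [Nat.succ_mul]
    have h1 : segStep γ h i ((u, ⟨0, hApos⟩) : (Fin J → Fin n) × Fin A) y =
        cp (fun j x => (if hj : j < J then γ (u ⟨j, hj⟩) else 1) • h (i * J + j) x) 0 J y := by
      unfold segStep
      apply cp_congr
      intro j hj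
      funext x
      simp only [Nat.zero_add]
      congr 1
      unfold segBlk
      rw [dif_pos ⟨hj, rfl⟩, dif_pos hj]
    rw [h1]
    exact hu
  have hcA := count_ns b (segStep γ h) (fun i y => dist y (X (i * J)) ≤ 3 / 4 * r)
    (fun i y => Hit γ h X r J (i * J) y) hcapA hnsA (q - 1) p
  have hcB := count_act (fun u : (Fin J → Fin n) × Fin A => u.2.val = 0)
    ((2 : ℝ) ^ (2 * (a + 1) * (a + 2) + 1)) (one_le_pow₀ (by norm_num))
    (by
      have h1 := seg_act_card (n := n) (J := J) (A := A)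
      have h2 : ((A : ℕ) : ℝ) = 2 ^ (2 * (a + 1) * (a + 2) + 1) := by
        rw [hA]; push_cast; ring
      have h3 : ((A : ℕ) : ℝ) * ((Finset.univ.filter
          (fun u : (Fin J → Fin n) × Fin A => u.2.val = 0)).card : ℝ) ≤
          Fintype.card ((Fin J → Fin n) × Fin A) := by exact_mod_cast h1
      rw [← h2]
      convert h3) b q
  have hun := seg_union _ _ _ hbad
  have hfin := seg_final (M := ((1 + (b + 1) * N.card + B * (b * J + lq) : ℕ) : ℝ))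
    (W := (Fintype.card ((Fin J → Fin n) × Fin A) : ℝ))
    (x := (1 - 1 / (Fintype.card ((Fin J → Fin n) × Fin A) : ℝ)) ^ (q - 1))
    (Nat.cast_nonneg _) (Nat.cast_nonneg _) hb hcA hcB (by rw [hb, hlq]; exact hq)
  have hcard : (Fintype.card (Fin b → (Fin J → Fin n) × Fin A) : ℝ) =
      (Fintype.card ((Fin J → Fin n) × Fin A) : ℝ) ^ b := by
    rw [Fintype.card_fun, Fintype.card_fin]
    push_cast
    rfl
  have hgoal : 5 * (((1 + (b + 1) * N.card + B * (b * J + lq) : ℕ) : ℝ) *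
      ((Finset.univ.filter (fun ω : Fin b → (Fin J → Fin n) × Fin A =>
        ¬ ∃ z ∈ segZ (kick (segR γ ω) h) X N b J (b * J + lq), ∀ x, dist x p ≤ ρ →
        dist (cp (kick (segR γ ω) h) 0 (b * J + lq) x) z < 15 / 16 * ρ)).card : ℝ)) ≤
      (Fintype.card (Fin b → (Fin J → Fin n) × Fin A) : ℝ) := by
    rw [hcard]
    refine le_trans ?_ hfin
    gcongr
    refine le_of_eq_of_le ?_ (hun.trans (le_of_eq ?_)) <;> congr!
  exact_mod_cast hgoal

end Pool.Agent.H56.CF
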