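import Mathlib
import Pool.Agent.H56.CF.Defs
import Pool.Agent.H56.CF.SegmentM

/-!
# MODULE BLOCKWIN: one block, at the level of windows

Adaptation of `H84/UC/WinMain.lean` (copy that file and change it): there the `m` segments are closed up
cyclically, here the chain of segments is open and the letters of the first and the last segment are
left free.  `segmentM` (proved, `H56/CF/SegmentM`) has a margin: discs of radius `ρ` are mapped into discs
of radius `ρ' < ρ`.

PROOF.  Let `Ω, m₀, Lw, R₀, ρ, ρ'` be given by `segmentM` (constant `B`), `m' = m₀ + B * Lw`.  Let `m ≥ 2`,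
`h, X, births` be given.  For every `j` apply it to the shifted sequences `h_j = fun i => h (j Lw + i)`,
`X_j = fun i => X (j Lw + i)`: get `Z_j : Ω → Finset S`.  As in `WinMain`, for `ω ∈ Ω` let `Bi_j(ω)` be
the finite set of the points `cp (kick (R₀ ω) h_j) (i+1) (Lw - (i+1)) (R₀ ω i • β)`, `i < Lw`,
`β ∈ births (j Lw + i)`, and `P_j(ω) = Z_j(ω) ∪ Bi_j(ω)`, at most `m₀ + B * Lw` points;
`Gd j ω' p := ∃ z ∈ Z_j(ω'), ∀ x, dist x p ≤ ρ → dist (cp (kick (R₀ ω') h_j) 0 Lw x) z < ρ'`;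
`Good j ω ω' := ∀ p ∈ P_j(ω), Gd (j+1) ω' p`.  By the union bound `4 * #{ω' | ¬ Good j ω ω'} < |Ω|`.

Take `P ω = P_{m-1}(ω)`, `Acc ω = {p | Gd 0 ω p}` and
`Adm ω₀ ω₁ := ∃ ω : ℕ → Ω, ω 0 = ω₀ ∧ ω (m-1) = ω₁ ∧ ∀ j, j + 1 < m → Good j (ω j) (ω (j+1))`.

* card: clear.  `Acc`: this is the statement of `segmentM` for `j = 0`.
* `Adm`: given `ω₀`, choose recursively `s 0 = ω₀`, `Good j (s j) (s (j+1))` for all `j` (possible since fewer
  than a quarter of the letters is bad).  If `Good (m-2) (s (m-2)) ω₁` then `Adm ω₀ ω₁` (take `s j` for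
  `j < m-1` and `ω₁` for `j = m-1`; `m - 1 ≠ 0`).  So `{ω₁ | ¬ Adm ω₀ ω₁} ⊆ {ω₁ | ¬ Good (m-2) (s (m-2)) ω₁}`,
  less than a quarter.
* kicks: if `Adm ω₀ ω₁` with the chain `ω`, put `R k = R₀ (ω (k / Lw)) (k % Lw)`; as in `WinMain`
  `cp (kick R h) (j Lw + i) l = cp (kick (R₀ (ω j)) h_j) i l` for `i + l ≤ Lw`.  `M = 0`: `0 * _ ≤ _`.
  (claim1) for `j + 1 < m`, `p ∈ P_j(ω_j)`: there is `z ∈ Z_{j+1}(ω_{j+1})` with
  `dist x p ≤ ρ → dist (cp (kick R h) ((j+1) Lw) Lw x) z < ρ'`.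
  (claim2) iterate: for `j + 1 < m`, `p ∈ P_j(ω_j)` there is `z ∈ Z_{m-1}(ω_{m-1})` with
  `dist x p ≤ ρ → dist (cp (kick R h) ((j+1) Lw) ((m-1-j) Lw) x) z < ρ'` (`ρ' < ρ`).
  Discs: `p ∈ Acc ω₀` gives `z₀ ∈ Z_0(ω_0)` for the first segment, then (claim2) with `j = 0`.
  Births: `k = j Lw + i < m Lw`, `β ∈ births k`: the position at time `(j+1) Lw` is `p ∈ Bi_j(ω_j)`; if
  `j = m-1` it is itself in `P ω₁` (distance `0 < ρ'`), otherwise use (claim2) with `x = p`.
  (Convert `Finset.filter` cardinalities to `Set.ncard` with `Set.ncard_coe_finset`.)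
-/

set_option autoImplicit false

namespace Pool.Agent.H56.CF

open Pool.Agent.H84.UC

theorem block_win {S K : Type} [MetricSpace S] [CompactSpace S] [Nonempty S] [Monoid K] [MulAction K S]
    (κ : Kick K S) {H : Set (S → S)} (hLC : LC H) (L r ε ρmax : ℝ) (hL : 1 ≤ L) (hr : 0 < r)
    (hε : 0 < ε) (hρ : 0 < ρmax) (B : ℕ) :
    ∃ (Ω : Type) (_ : Fintype Ω) (_ : Nonempty Ω) (m' Lw : ℕ) (ρ ρ' : ℝ),
      1 ≤ Lw ∧ 0 < ρ' ∧ ρ' < ρ ∧ ρ ≤ ρmax ∧
      ∀ m : ℕ, 2 ≤ m → ∀ (h : ℕ → S → S) (X : ℕ → S), (∀ k, h k ∈ H) →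
        (∀ k a b, dist (h k a) (h k b) ≤ L * dist a b) → MovingDisc h X r →
        ∀ births : ℕ → Finset S, (∀ k, (births k).card ≤ B) →
        ∃ (P : Ω → Finset S) (Acc : Ω → Set S) (Adm : Ω → Ω → Prop),
          BlockData κ ε ρ ρ' m' 0 (m * Lw) h births P Acc Adm := by
  classical
  obtain ⟨Ω, iF, iN, m₀, Lw, R₀, ρ, ρ', hLw, hR₀, hρ0, hρρ, hρm, hseg⟩ :=
    segmentM κ hLC L r ε ρmax hL hr hε hρ B
  refine ⟨Ω, iF, iN, m₀ + B * Lw, Lw, ρ, ρ', hLw, hρ0, hρρ, hρm, ?_⟩
  intro m hm h X hH hLip hM births hbirths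
  have hseg' := fun j : ℕ => hseg (fun i => h (j * Lw + i)) (fun i => X (j * Lw + i))
    (fun k => hH _) (fun k => hLip _) (fun k => hM (j * Lw + k))
  choose Z hZc hZ using hseg'
  set hj : ℕ → ℕ → S → S := fun j i => h (j * Lw + i) with hhj
  set Bi : ℕ → Ω → Finset S := fun j ω => (Finset.range Lw).biUnion (fun i =>
    (births (j * Lw + i)).image (fun β =>
      cp (kick (R₀ ω) (hj j)) (i + 1) (Lw - (i + 1)) (R₀ ω i • β))) with hBi
  have hBic : ∀ j ω, (Bi j ω).card ≤ B * Lw := by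
    intro j ω
    refine Finset.card_biUnion_le.trans ?_
    calc ∑ i ∈ Finset.range Lw, ((births (j * Lw + i)).image (fun β =>
          cp (kick (R₀ ω) (hj j)) (i + 1) (Lw - (i + 1)) (R₀ ω i • β))).card
        ≤ ∑ _i ∈ Finset.range Lw, B :=
          Finset.sum_le_sum (fun i _ => Finset.card_image_le.trans (hbirths _))
      _ = B * Lw := by rw [Finset.sum_const, Finset.card_range, smul_eq_mul, Nat.mul_comm]
  set P : ℕ → Ω → Finset S := fun j ω => Z j ω ∪ Bi j ω with hP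
  have hPc : ∀ j ω, (P j ω).card ≤ m₀ + B * Lw := fun j ω =>
    (Finset.card_union_le _ _).trans (Nat.add_le_add (hZc j ω) (hBic j ω))
  set Gd : ℕ → Ω → S → Prop := fun j ω' p => ∃ z ∈ Z j ω', ∀ x, dist x p ≤ ρ →
    dist (cp (kick (R₀ ω') (hj j)) 0 Lw x) z < ρ' with hGd
  have hZ' : ∀ j p, 5 * ((m₀ + B * Lw) *
      (Finset.univ.filter (fun ω' : Ω => ¬ Gd j ω' p)).card) ≤ Fintype.card Ω := by
    intro j p
    convert hZ j p
  have hgood : ∀ j j' : ℕ, ∀ ω, 4 * (Finset.univ.filter (fun ω' : Ω =>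
      ¬ (∀ p ∈ P j ω, Gd j' ω' p))).card < Fintype.card Ω := by
    intro j j' ω
    have hsub : Finset.univ.filter (fun ω' : Ω => ¬ (∀ p ∈ P j ω, Gd j' ω' p)) ⊆
        (P j ω).biUnion (fun p => Finset.univ.filter (fun ω' : Ω => ¬ Gd j' ω' p)) := by
      intro ω' hω'
      rw [Finset.mem_filter] at hω'
      have h1 := hω'.2
      push Not at h1
      obtain ⟨p, hp, hnp⟩ := h1
      rw [Finset.mem_biUnion]
      exact ⟨p, hp, Finset.mem_filter.2 ⟨Finset.mem_univ _, hnp⟩⟩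
    have hc1 : (Finset.univ.filter (fun ω' : Ω => ¬ (∀ p ∈ P j ω, Gd j' ω' p))).card ≤
        ∑ p ∈ P j ω, (Finset.univ.filter (fun ω' : Ω => ¬ Gd j' ω' p)).card :=
      (Finset.card_le_card hsub).trans Finset.card_biUnion_le
    have hpos : 0 < Fintype.card Ω := Fintype.card_pos
    rcases Nat.eq_zero_or_pos (m₀ + B * Lw) with h0 | h0
    · have hP0 : P j ω = ∅ := by
        have := hPc j ω
        rw [h0] at this
        exact Finset.card_eq_zero.1 (Nat.le_zero.1 this)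
      have hc1' := hc1.trans_eq (by rw [hP0, Finset.sum_empty])
      omega
    · have hc2 : 5 * ((m₀ + B * Lw) *
          ∑ p ∈ P j ω, (Finset.univ.filter (fun ω' : Ω => ¬ Gd j' ω' p)).card) ≤
          (m₀ + B * Lw) * Fintype.card Ω := by
        rw [Finset.mul_sum, Finset.mul_sum]
        calc ∑ p ∈ P j ω, 5 * ((m₀ + B * Lw) *
              (Finset.univ.filter (fun ω' : Ω => ¬ Gd j' ω' p)).card)
            ≤ ∑ _p ∈ P j ω, Fintype.card Ω := Finset.sum_le_sum (fun p _ => hZ' j' p)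
          _ = (P j ω).card * Fintype.card Ω := by
              rw [Finset.sum_const, smul_eq_mul]
          _ ≤ (m₀ + B * Lw) * Fintype.card Ω := Nat.mul_le_mul_right _ (hPc j ω)
      have hc3 : 5 * ∑ p ∈ P j ω, (Finset.univ.filter (fun ω' : Ω => ¬ Gd j' ω' p)).card ≤
          Fintype.card Ω := by
        apply Nat.le_of_mul_le_mul_left _ h0
        calc (m₀ + B * Lw) * (5 * ∑ p ∈ P j ω,
              (Finset.univ.filter (fun ω' : Ω => ¬ Gd j' ω' p)).card)
            = 5 * ((m₀ + B * Lw) * ∑ p ∈ P j ω,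
              (Finset.univ.filter (fun ω' : Ω => ¬ Gd j' ω' p)).card) := by ring
          _ ≤ _ := hc2
      omega
  have hZP : ∀ j ω, Z j ω ⊆ P j ω := fun j ω => Finset.subset_union_left
  have hLw0 : 0 < Lw := hLw
  refine ⟨P (m - 1), fun ω => {p | Gd 0 ω p}, fun ω₀ ω₁ => ∃ ω : ℕ → Ω, ω 0 = ω₀ ∧
    ω (m - 1) = ω₁ ∧ ∀ j, j + 1 < m → ∀ p ∈ P j (ω j), Gd (j + 1) (ω (j + 1)) p, ?_, ?_, ?_, ?_⟩
  · exact fun ω => hPc _ ω
  · intro p
    have h1 := hZ' 0 p
    have h2 : {ω : Ω | p ∉ {p | Gd 0 ω p}} =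
        ((Finset.univ.filter (fun ω' : Ω => ¬ Gd 0 ω' p) : Finset Ω) : Set Ω) := by
      ext ω
      simp
    rw [h2, Set.ncard_coe_finset]
    exact h1
  · intro ω₀
    have hstep : ∀ (j : ℕ) (ω : Ω), ∃ ω', ∀ p ∈ P j ω, Gd (j + 1) ω' p := by
      intro j ω
      by_contra hcon
      push Not at hcon
      have h1 := hgood j (j + 1) ω
      rw [Finset.filter_true_of_mem (fun x _ => by
        intro hx
        obtain ⟨p, hp, hnp⟩ := hcon x
        exact hnp (hx p hp)), Finset.card_univ] at h1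
      omega
    choose f hf using hstep
    let s : ℕ → Ω := fun j => Nat.rec ω₀ (fun j w => f j w) j
    have hs : ∀ j, s (j + 1) = f j (s j) := fun j => rfl
    have hs0 : s 0 = ω₀ := rfl
    refine lt_of_le_of_lt ?_ (hgood (m - 2) (m - 1) (s (m - 2)))
    refine Nat.mul_le_mul_left 4 ?_
    rw [← Set.ncard_coe_finset]
    refine Set.ncard_le_ncard ?_ (Set.toFinite _)
    intro w hw
    rw [Finset.mem_coe, Finset.mem_filter]
    refine ⟨Finset.mem_univ _, fun hg => hw ?_⟩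
    refine ⟨fun j => if j = m - 1 then w else s j, ?_, ?_, ?_⟩
    · have h0 : (0 : ℕ) ≠ m - 1 := by omega
      simp only [if_neg h0, hs0]
    · simp only [if_true]
    · intro j hjm
      have hj1 : j ≠ m - 1 := by omega
      simp only [if_neg hj1]
      by_cases hj2 : j + 1 = m - 1
      · simp only [if_pos hj2]
        have hj3 : j = m - 2 := by omega
        rw [hj2, hj3]
        exact hg
      · simp only [if_neg hj2]
        rw [hs]
        exact hf j (s j)
  · rintro ω₀ ω₁ ⟨ω, hω0, hωm, hω1⟩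
    set R : ℕ → K := fun k => R₀ (ω (k / Lw)) (k % Lw) with hR
    have hcp : ∀ j i l, i + l ≤ Lw → ∀ x, cp (kick R h) (j * Lw + i) l x =
        cp (kick (R₀ (ω j)) (hj j)) i l x := by
      intro j i l hil x
      apply cp_congr
      intro t ht
      have h1 : (j * Lw + (i + t)) / Lw = j := by
        rw [Nat.add_comm (j * Lw), Nat.add_mul_div_right _ _ hLw0, Nat.div_eq_of_lt (by omega),
          Nat.zero_add]
      have h2 : (j * Lw + (i + t)) % Lw = i + t := by
        rw [Nat.add_comm (j * Lw), Nat.add_mul_mod_self_right, Nat.mod_eq_of_lt (by omega)]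
      funext y
      simp only [kick, hR, hhj, h1, h2, Nat.add_assoc]
    have claim1 : ∀ j, j + 1 < m → ∀ p ∈ P j (ω j), ∃ z ∈ Z (j + 1) (ω (j + 1)),
        ∀ x, dist x p ≤ ρ → dist (cp (kick R h) ((j + 1) * Lw) Lw x) z < ρ' := by
      intro j hjm p hp
      obtain ⟨z, hz, hzx⟩ := hω1 j hjm p hp
      refine ⟨z, hz, fun x hx => ?_⟩
      have h2 := hcp (j + 1) 0 Lw (by omega) x
      rw [Nat.add_zero] at h2
      rw [h2]
      exact hzx x hx
    have claim2 : ∀ d j, j + (d + 1) + 1 = m → ∀ p ∈ P j (ω j), ∃ z ∈ Z (m - 1) (ω (m - 1)),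
        ∀ x, dist x p ≤ ρ → dist (cp (kick R h) ((j + 1) * Lw) ((d + 1) * Lw) x) z < ρ' := by
      intro d
      induction d with
      | zero =>
        intro j hjm p hp
        obtain ⟨z, hz, hzx⟩ := claim1 j (by omega) p hp
        have h1 : j + 1 = m - 1 := by omega
        rw [h1] at hz
        refine ⟨z, hz, fun x hx => ?_⟩
        rw [Nat.zero_add, Nat.one_mul]
        exact hzx x hx
      | succ d ih =>
        intro j hjm p hp
        obtain ⟨z1, hz1, hzx1⟩ := claim1 j (by omega) p hp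
        obtain ⟨z, hz, hzx⟩ := ih (j + 1) (by omega) z1 (hZP _ _ hz1)
        refine ⟨z, hz, fun x hx => ?_⟩
        have h1 : (d + 1 + 1) * Lw = Lw + (d + 1) * Lw := by ring
        have h2 : (j + 1) * Lw + Lw = (j + 1 + 1) * Lw := by ring
        rw [h1, cp_add, h2]
        exact hzx _ ((hzx1 x hx).trans hρρ).le
    refine ⟨R, fun k => hR₀ _ _, by rw [Nat.zero_mul]; exact Nat.zero_le _, ?_, ?_⟩
    · rintro p ⟨z0, hz0, hzx0⟩
      rw [← hω0] at hz0 hzx0
      obtain ⟨z, hz, hzx⟩ := claim2 (m - 2) 0 (by omega) z0 (hZP _ _ hz0)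
      rw [hωm] at hz
      refine ⟨z, hZP _ _ hz, fun x hx => ?_⟩
      have h1 : m * Lw = Lw + (m - 2 + 1) * Lw := by
        obtain ⟨m', rfl⟩ : ∃ m', m = m' + 2 := ⟨m - 2, by omega⟩
        have : m' + 2 - 2 = m' := by omega
        rw [this]
        ring
      rw [h1, cp_add]
      have h2 : (0 + 1) * Lw = 0 + Lw := by ring
      rw [← h2]
      refine hzx _ ?_
      have h3 := hcp 0 0 Lw (by omega) x
      rw [Nat.zero_mul, Nat.add_zero] at h3
      rw [h3]
      exact ((hzx0 x hx).trans hρρ).le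
    · intro k hk β hβ
      obtain ⟨j, i, hi, hjm, rfl⟩ : ∃ j i, i < Lw ∧ j < m ∧ k = j * Lw + i := by
        refine ⟨k / Lw, k % Lw, Nat.mod_lt _ hLw0, ?_, ?_⟩
        · rw [Nat.div_lt_iff_lt_mul hLw0]; exact hk
        · exact (Nat.div_add_mod' k Lw).symm
      have hRk : R (j * Lw + i) = R₀ (ω j) i := by
        have h1 : (j * Lw + i) / Lw = j := by
          rw [Nat.add_comm (j * Lw), Nat.add_mul_div_right _ _ hLw0, Nat.div_eq_of_lt hi,
            Nat.zero_add]
        have h2 : (j * Lw + i) % Lw = i := by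
          rw [Nat.add_comm (j * Lw), Nat.add_mul_mod_self_right, Nat.mod_eq_of_lt hi]
        simp only [hR, h1, h2]
      set p : S := cp (kick (R₀ (ω j)) (hj j)) (i + 1) (Lw - (i + 1)) (R₀ (ω j) i • β) with hp
      have hpP : p ∈ P j (ω j) := by
        apply Finset.mem_union_right
        rw [hBi]
        simp only [Finset.mem_biUnion, Finset.mem_range, Finset.mem_image]
        exact ⟨i, hi, β, hβ, rfl⟩
      have hposn : cp (kick R h) (j * Lw + i + 1) (m * Lw - (j * Lw + i + 1))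
          (R (j * Lw + i) • β) = cp (kick R h) ((j + 1) * Lw) ((m - 1 - j) * Lw) p := by
        obtain ⟨d, hd⟩ : ∃ d, m = j + 1 + d := ⟨m - (j + 1), by omega⟩
        have h1 : m * Lw - (j * Lw + i + 1) = (Lw - (i + 1)) + (m - 1 - j) * Lw := by
          have e1 : m - 1 - j = d := by omega
          rw [e1, hd]
          have e2 : (j + 1 + d) * Lw = j * Lw + Lw + d * Lw := by ring
          rw [e2]
          omega
        rw [h1, cp_add]
        have h2 : j * Lw + i + 1 + (Lw - (i + 1)) = (j + 1) * Lw := by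
          have : (j + 1) * Lw = j * Lw + Lw := by ring
          rw [this]
          omega
        rw [h2, hRk]
        congr 1
        exact hcp j (i + 1) (Lw - (i + 1)) (by omega) _
      rw [hposn]
      by_cases hjl : j = m - 1
      · have h1 : m - 1 - j = 0 := by omega
        rw [h1, Nat.zero_mul, cp_zero]
        rw [hjl, hωm] at hpP
        exact ⟨p, hpP, by rw [dist_self]; exact hρ0⟩
      · obtain ⟨z1, hz1, hzx1⟩ := claim2 (m - 2 - j) j (by omega) p hpP
        have h1 : m - 1 - j = m - 2 - j + 1 := by omega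
        rw [h1]
        rw [hωm] at hz1
        exact ⟨z1, hZP _ _ hz1, hzx1 p (by rw [dist_self]; exact (hρ0.trans hρρ).le)⟩

end Pool.Agent.H56.CF
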