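import Mathlib
import Pool.Agent.H56.CF.BlockWin
import Pool.Agent.H84.UC.Global

/-!
# MODULE BLOCKMAIN: one block, at the level of single steps

Adaptation of `H84/UC/Global.lean` (`abstract_main`; copy that file and change it): replace `win_main` by
`block_win`.

PROOF.  `T, r` from `window` with `ε/4`; `block_win` with `LT = L^(T+1)`, `r`, `ε/4`, `ρmax`, `B1 = B * (T+1)`
gives `Ω, m', Lw, ρ, ρ'`.  `N = Lw * T * (T + 2)`.  For `n ≥ N` and a word `w` let `m, u, τ`, the skeleton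
`X k, a k, h k` and the `births k` be exactly as in `abstract_main` (`τ (m * Lw) = n`, `m ≥ 2`).  `block_win`
gives `P, Acc, Adm`; keep them.  If `Adm ω₀ ω₁`, its last part gives kicks `R` of the windows and `transfer`
gives `A`, with `nrm (A t) < ε` as in `abstract_main`.  The two conclusions are those of `block_win`
rewritten with `transfer` (`M := m * Lw`), as in `abstract_main`.  (The number `M` of `BlockData` is `0`.)
The lemma `glob_cp_mem` of `H84/UC/Global` can be cited.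
-/

set_option autoImplicit false

namespace Pool.Agent.H56.CF

open Pool.Agent.H84.UC

theorem block_main {S K ι : Type} [MetricSpace S] [CompactSpace S] [Nonempty S] [Monoid K]
    [MulAction K S] (κ : Kick K S) {H : Set (S → S)} (hLC : LC H)
    (Hcomp : ∀ f ∈ H, ∀ g ∈ H, (fun x => f (g x)) ∈ H) (Hsmul : ∀ a : K, (fun x : S => a • x) ∈ H)
    (f : ι → S → S) (hf : ∀ i, f i ∈ H) (L : ℝ) (hL1 : 1 ≤ L)
    (hL : ∀ i x y, dist (f i x) (f i y) ≤ L * dist x y)
    (c : ι → S) (hc : ∀ η : ℝ, 0 < η → ∃ ρ : ℝ, 0 < ρ ∧ ∀ i x, dist x (c i) ≤ ρ →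
        dist (f i x) (f i (c i)) ≤ η * dist x (c i))
    (W : ι → Finset S) (B : ℕ) (hW : ∀ i, (W i).card ≤ B)
    (ε : ℝ) (hε : 0 < ε) (ρmax : ℝ) (hρ : 0 < ρmax) :
    ∃ (Ω : Type) (_ : Fintype Ω) (_ : Nonempty Ω) (m N : ℕ) (ρ ρ' : ℝ),
      0 < ρ' ∧ ρ' < ρ ∧ ρ ≤ ρmax ∧
      ∀ n ≥ N, ∀ w : ℕ → ι, ∃ (P : Ω → Finset S) (Acc : Ω → Set S) (Adm : Ω → Ω → Prop),
        BlockData κ ε ρ ρ' m 0 n (fun t => f (w t)) (fun t => W (w t)) P Acc Adm := by
  classical
  obtain ⟨T, hT1, r, hr, hwin⟩ := window κ hLC f hf L hL1 hL c hc (ε / 4) (by positivity)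
  obtain ⟨Ω, iF, iN, m', Lw, ρ, ρ', hLw, hρ'0, hρρ, hρ1, hwm⟩ := block_win κ hLC (L ^ (T + 1)) r
    (ε / 4) ρmax (one_le_pow₀ hL1) hr (by positivity) hρ (B * (T + 1))
  refine ⟨Ω, iF, iN, m', Lw * T * (T + 2), ρ, ρ', hρ'0, hρρ, hρ1, fun n hn w => ?_⟩
  have hLT : 0 < Lw * T := Nat.mul_pos hLw hT1
  obtain ⟨m, hm⟩ : ∃ m, m = n / (Lw * T) := ⟨_, rfl⟩
  obtain ⟨u, hu⟩ : ∃ u, u = n % (Lw * T) := ⟨_, rfl⟩
  have hmT : T + 2 ≤ m := by
    rw [hm, Nat.le_div_iff_mul_le hLT]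
    calc (T + 2) * (Lw * T) = Lw * T * (T + 2) := by ring
      _ ≤ n := hn
  have hu1 : u < Lw * T := by
    rw [hu]
    exact Nat.mod_lt _ hLT
  have hn1 : n = T * (m * Lw) + u := by
    have h1 := Nat.div_add_mod n (Lw * T)
    rw [← hm, ← hu] at h1
    rw [← h1]
    ring
  have hu2 : u ≤ m * Lw := by
    have h1 : Lw * T ≤ Lw * m := Nat.mul_le_mul_left _ (by omega)
    have h2 : Lw * m = m * Lw := Nat.mul_comm _ _
    omega
  obtain ⟨τ, hτ⟩ : ∃ τ : ℕ → ℕ, ∀ k, τ k = T * k + min k u := ⟨fun k => T * k + min k u, fun _ => rfl⟩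
  have hτ0 : τ 0 = 0 := by
    rw [hτ]
    simp
  have hτs : ∀ k, τ (k + 1) = τ k + T ∨ τ (k + 1) = τ k + (T + 1) := by
    intro k
    rw [hτ, hτ, Nat.mul_add, Nat.mul_one]
    rcases Nat.lt_or_ge k u with h | h
    · right
      rw [min_eq_left (by omega : k + 1 ≤ u), min_eq_left (by omega : k ≤ u)]
      omega
    · left
      rw [min_eq_right (by omega : u ≤ k + 1), min_eq_right h]
      omega
  have hτm : StrictMono τ := by
    apply strictMono_nat_of_lt_succ
    intro k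
    rcases hτs k with h | h <;> omega
  have hτd : ∀ k, τ (k + 1) - τ k = T ∨ τ (k + 1) - τ k = T + 1 := by
    intro k
    rcases hτs k with h | h <;> omega
  have hτn : τ (m * Lw) = n := by
    rw [hτ, min_eq_right hu2, hn1]
  choose a ha1 ha2 using fun (k : ℕ) (x : S) =>
    hwin (τ (k + 1) - τ k) (hτd k) (fun t => w (τ k + t)) x
  obtain ⟨X, hX⟩ : ∃ X : ℕ → S, ∀ k, X (k + 1) =
      cp (kick (a k (X k)) (fun t => f (w (τ k + t)))) 0 (τ (k + 1) - τ k) (X k) :=
    ⟨fun k => Nat.rec (Classical.arbitrary S) (fun k x =>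
      cp (kick (a k x) (fun t => f (w (τ k + t)))) 0 (τ (k + 1) - τ k) x) k, fun _ => rfl⟩
  obtain ⟨h, hh⟩ : ∃ h : ℕ → S → S, ∀ k, h k =
      cp (kick (a k (X k)) (fun t => f (w (τ k + t)))) 0 (τ (k + 1) - τ k) := ⟨_, fun _ => rfl⟩
  have hhH : ∀ k, h k ∈ H := by
    intro k
    have h1 : ∃ l, τ (k + 1) - τ k = l + 1 := ⟨τ (k + 1) - τ k - 1, by
      rcases hτd k with h | h <;> omega⟩
    obtain ⟨l, hl⟩ := h1
    rw [hh, hl]
    apply glob_cp_mem Hcomp
    intro i
    exact Hcomp _ (Hsmul (a k (X k) i)) _ (hf (w (τ k + i)))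
  have hhL : ∀ k x y, dist (h k x) (h k y) ≤ L ^ (T + 1) * dist x y := by
    intro k x y
    rw [hh]
    have h1 := cp_lip (g := kick (a k (X k)) (fun t => f (w (τ k + t)))) (L := L)
      (by linarith) (s := 0) (k := τ (k + 1) - τ k) (by
        intro i _ x y
        show dist (a k (X k) (0 + i) • f (w (τ k + (0 + i))) x)
          (a k (X k) (0 + i) • f (w (τ k + (0 + i))) y) ≤ _
        rw [κ.dist_smul]
        exact hL _ _ _) x y
    refine h1.trans ?_
    apply mul_le_mul_of_nonneg_right _ dist_nonneg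
    apply pow_le_pow_right₀ hL1
    rcases hτd k with h | h <;> omega
  have hdisc : MovingDisc h X r := by
    intro k
    refine ⟨by rw [hh, hX], fun y hy => ?_⟩
    rw [hh, hX]
    exact ha2 k (X k) y hy
  obtain ⟨births, hbirths⟩ : ∃ births : ℕ → Finset S, ∀ k, births k =
      (Finset.range (τ (k + 1) - τ k)).biUnion (fun t' => (W (w (τ k + t'))).image (fun v =>
        cp (kick (a k (X k)) (fun t => f (w (τ k + t)))) (t' + 1) (τ (k + 1) - τ k - (t' + 1))
          (a k (X k) t' • v))) := ⟨_, fun _ => rfl⟩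
  have hbc : ∀ k, (births k).card ≤ B * (T + 1) := by
    intro k
    rw [hbirths]
    refine Finset.card_biUnion_le.trans ?_
    calc _ ≤ ∑ _t ∈ Finset.range (τ (k + 1) - τ k), B := by
          apply Finset.sum_le_sum
          intro t' _
          exact Finset.card_image_le.trans (hW _)
      _ = (τ (k + 1) - τ k) * B := by
          rw [Finset.sum_const, Finset.card_range, smul_eq_mul]
      _ ≤ (T + 1) * B := by
          apply Nat.mul_le_mul_right
          rcases hτd k with h | h <;> omega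
      _ = B * (T + 1) := Nat.mul_comm _ _
  obtain ⟨P, Acc, Adm, b1, b2, b3, b4⟩ := hwm m (by omega) h X hhH hhL hdisc births hbc
  refine ⟨P, Acc, Adm, b1, b2, b3, ?_⟩
  intro ω₀ ω₁ hadm
  obtain ⟨R, hR, _, hZ1, hZ2⟩ := b4 ω₀ ω₁ hadm
  obtain ⟨A, hA1, hA2, hA3⟩ := transfer (fun t => f (w t)) τ hτ0 hτm (fun k => a k (X k)) R h
    (fun k => hh k)
  refine ⟨A, ?_, by rw [Nat.zero_mul]; exact Nat.zero_le _, ?_, ?_⟩
  · intro t
    obtain ⟨k, t', _, _, hAt⟩ := hA1 t
    rw [hAt]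
    have h1 : κ.nrm (if t + 1 = τ (k + 1) then R k else 1) < ε / 4 := by
      split_ifs
      · exact hR k
      · rw [κ.nrm_one]
        positivity
    have h2 := ha1 k (X k) t'
    have h3 := κ.nrm_mul (if t + 1 = τ (k + 1) then R k else 1) (a k (X k) t')
    linarith
  · intro z hz
    obtain ⟨z', hz', h1⟩ := hZ1 z hz
    refine ⟨z', hz', fun x hx => ?_⟩
    have h2 := hA2 (m * Lw) x
    rw [hτn] at h2
    rw [h2]
    exact h1 x hx
  · intro t ht v hv
    obtain ⟨k, t', ht', hteq, _⟩ := hA1 t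
    have hk : k < m * Lw := by
      rw [← hτm.lt_iff_lt, hτn]
      omega
    obtain ⟨z, hz, h1⟩ := hZ2 k hk
      (cp (kick (a k (X k)) (fun t => f (w (τ k + t)))) (t' + 1) (τ (k + 1) - τ k - (t' + 1))
          (a k (X k) t' • v)) (by
        rw [hbirths, Finset.mem_biUnion]
        refine ⟨t', Finset.mem_range.2 ht', ?_⟩
        apply Finset.mem_image_of_mem
        rw [← hteq]
        exact hv)
    refine ⟨z, hz, ?_⟩
    have h2 := hA3 (m * Lw) k t' hk ht' v
    rw [hτn, ← hteq] at h2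
    rw [h2]
    exact h1

end Pool.Agent.H56.CF
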