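import Mathlib
import Pool.Agent.H56.CF.BlockMain
import Pool.Agent.H84.UC.Rare

/-!
# MODULE BLOCKRARE: one block with rare kicks

Adaptation of `H84/UC/Rare.lean` (`abstract_rare`; copy that proof and change it): replace `abstract_main`
by `block_main`.

PROOF.  Letters of length `l`, `M ≤ l < 2M`: `ι' = {p : ℕ × (ℕ → ι) // M ≤ p.1 ∧ p.1 < 2 * M}`,
`f' (l, u) = cp (fun t => f (u t)) 0 l`, `c' , W'` exactly as in `abstract_rare`.  `block_main` for `f'` gives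
`Ω, m, N', ρ, ρ'`; `N = M * (N' + 1)`.  For `n ≥ N` and `w` use the boundaries `Rare_tau M n` and the word
`w' k`; `block_main` for `n / M` and `w'` gives `P, Acc, Adm`, keep them.  If `Adm ω₀ ω₁` the last part gives
kicks `R k`, and `transfer` (with `a k t' = 1`) gives `A`: `A t` is `R k` if `t + 1 = τ (k+1)` and `1`
otherwise; `M * #{t < n | A t ≠ 1} ≤ M * (n / M) ≤ n` and the other conclusions as in `abstract_rare`.
The lemmas `Rare_*` of `H84/UC/Rare` can be cited.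
-/

set_option autoImplicit false

namespace Pool.Agent.H56.CF

open Pool.Agent.H84.UC

theorem block_rare {S K ι : Type} [MetricSpace S] [CompactSpace S] [Nonempty S] [Monoid K]
    [MulAction K S] (κ : Kick K S) {H : Set (S → S)} (hLC : LC H)
    (Hcomp : ∀ f ∈ H, ∀ g ∈ H, (fun x => f (g x)) ∈ H) (Hsmul : ∀ a : K, (fun x : S => a • x) ∈ H)
    (f : ι → S → S) (hf : ∀ i, f i ∈ H) (L : ℝ) (hL1 : 1 ≤ L)
    (hL : ∀ i x y, dist (f i x) (f i y) ≤ L * dist x y)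
    (c : ι → S) (hc : ∀ η : ℝ, 0 < η → ∃ ρ : ℝ, 0 < ρ ∧ ∀ i x, dist x (c i) ≤ ρ →
        dist (f i x) (f i (c i)) ≤ η * dist x (c i))
    (W : ι → Finset S) (B : ℕ) (hW : ∀ i, (W i).card ≤ B)
    (ε : ℝ) (hε : 0 < ε) (ρmax : ℝ) (hρ : 0 < ρmax) (M : ℕ) (hM : 1 ≤ M) :
    ∃ (Ω : Type) (_ : Fintype Ω) (_ : Nonempty Ω) (m N : ℕ) (ρ ρ' : ℝ),
      0 < ρ' ∧ ρ' < ρ ∧ ρ ≤ ρmax ∧
      ∀ n ≥ N, ∀ w : ℕ → ι, ∃ (P : Ω → Finset S) (Acc : Ω → Set S) (Adm : Ω → Ω → Prop),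
        BlockData κ ε ρ ρ' m M n (fun t => f (w t)) (fun t => W (w t)) P Acc Adm := by
  classical
  let ι' : Type := {p : ℕ × (ℕ → ι) // M ≤ p.1 ∧ p.1 < 2 * M}
  let f' : ι' → S → S := fun p => cp (fun t => f (p.1.2 t)) 0 p.1.1
  have hL0 : (0 : ℝ) ≤ L := by linarith
  have hLpos : (0 : ℝ) < L ^ (2 * M) := by positivity
  have hf' : ∀ i, f' i ∈ H := by
    rintro ⟨⟨l, u⟩, h1, h2⟩
    simp only at h1 h2
    obtain ⟨m, rfl⟩ : ∃ m, l = m + 1 := ⟨l - 1, by omega⟩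
    exact Rare_cp_mem Hcomp (fun t => f (u t)) (fun t => hf _) 0 m
  have hL' : ∀ i x y, dist (f' i x) (f' i y) ≤ L ^ (2 * M) * dist x y := by
    rintro ⟨⟨l, u⟩, h1, h2⟩ x y
    simp only at h1 h2
    refine (cp_lip (g := fun t => f (u t)) hL0 (s := 0) (k := l)
      (fun i _ a b => hL _ a b) x y).trans ?_
    have : L ^ l ≤ L ^ (2 * M) := pow_le_pow_right₀ hL1 h2.le
    exact mul_le_mul_of_nonneg_right this dist_nonneg
  have hc' : ∀ η : ℝ, 0 < η → ∃ ρ : ℝ, 0 < ρ ∧ ∀ (i : ι') x, dist x (c (i.1.2 0)) ≤ ρ →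
        dist (f' i x) (f' i (c (i.1.2 0))) ≤ η * dist x (c (i.1.2 0)) := by
    intro η hη
    obtain ⟨ρ, hρ0, hρ1⟩ := hc (η / L ^ (2 * M)) (by positivity)
    refine ⟨ρ, hρ0, ?_⟩
    rintro ⟨⟨l, u⟩, h1, h2⟩ x hx
    simp only at h1 h2 hx ⊢
    obtain ⟨m, rfl⟩ : ∃ m, l = m + 1 := ⟨l - 1, by omega⟩
    have h3 := hρ1 (u 0) x hx
    change dist (cp (fun t => f (u t)) 0 (m + 1) x) (cp (fun t => f (u t)) 0 (m + 1) (c (u 0))) ≤ _
    rw [cp_succ', cp_succ']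
    have h4 := cp_lip (g := fun t => f (u t)) hL0 (s := 0 + 1) (k := m)
      (fun i _ a b => hL _ a b) (f (u 0) x) (f (u 0) (c (u 0)))
    refine h4.trans ?_
    have h5 : L ^ m ≤ L ^ (2 * M) := pow_le_pow_right₀ hL1 (by omega)
    calc L ^ m * dist (f (u 0) x) (f (u 0) (c (u 0)))
        ≤ L ^ (2 * M) * (η / L ^ (2 * M) * dist x (c (u 0))) := by
          gcongr
      _ = η * dist x (c (u 0)) := by
          field_simp
  let W' : ι' → Finset S := fun p => (Finset.range p.1.1).biUnion (fun t =>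
    (W (p.1.2 t)).image (fun v => cp (fun s => f (p.1.2 s)) (t + 1) (p.1.1 - (t + 1)) v))
  have hW' : ∀ i, (W' i).card ≤ 2 * M * B := by
    rintro ⟨⟨l, u⟩, h1, h2⟩
    simp only at h1 h2
    refine Finset.card_biUnion_le.trans ?_
    calc ∑ t ∈ Finset.range l, ((W (u t)).image (fun v => cp (fun s => f (u s)) (t + 1)
          (l - (t + 1)) v)).card ≤ ∑ t ∈ Finset.range l, B :=
          Finset.sum_le_sum (fun t _ => Finset.card_image_le.trans (hW _))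
      _ = l * B := by simp
      _ ≤ 2 * M * B := Nat.mul_le_mul_right _ h2.le
  obtain ⟨Ω, i1, i2, m, N', ρ, ρ', hρ0, hρ1, hρ2, hN'⟩ := block_main κ hLC Hcomp Hsmul f' hf'
    (L ^ (2 * M)) (one_le_pow₀ hL1) hL' (fun i => c (i.1.2 0)) hc' W' (2 * M * B) hW' ε hε ρmax hρ
  refine ⟨Ω, i1, i2, m, M * (N' + 1), ρ, ρ', hρ0, hρ1, hρ2, ?_⟩
  intro n hn w
  have hn' : N' + 1 ≤ n / M := by
    rw [Nat.le_div_iff_mul_le (by omega)]
    rw [mul_comm]
    exact hn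
  have hτ := Rare_tau_mono M n hM
  have hτ0 := Rare_tau_zero M n (by omega)
  have hτe := Rare_tau_end M n
  have hτd := fun k => Rare_tau_diff M n k hM
  let w' : ℕ → ι' := fun k => ⟨(Rare_tau M n (k + 1) - Rare_tau M n k,
    fun t => w (Rare_tau M n k + t)), hτd k⟩
  obtain ⟨P, Acc, Adm, hb1, hb2, hb3, hb4⟩ := hN' (n / M) (by omega) w'
  refine ⟨P, Acc, Adm, hb1, hb2, hb3, ?_⟩
  intro ω₀ ω₁ hadm
  obtain ⟨R, hR, -, hZ1, hZ2⟩ := hb4 ω₀ ω₁ hadm
  obtain ⟨A, hA1, hA2, hA3⟩ := transfer (fun t => f (w t)) (Rare_tau M n) hτ0 hτ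
    (fun _ _ => (1 : K)) R (fun k => f' (w' k)) (by
      intro k
      rw [Rare_kick_one])
  refine ⟨A, ?_, ?_, ?_, ?_⟩
  · intro t
    obtain ⟨k, t', -, -, h⟩ := hA1 t
    rw [h, mul_one]
    split_ifs
    · exact hR k
    · rw [κ.nrm_one]; exact hε
  · have hsub : {t : ℕ | t < n ∧ A t ≠ 1} ⊆
        ((Finset.range (n / M)).image (fun k => Rare_tau M n (k + 1) - 1) : Finset ℕ) := by
      rintro t ⟨ht1, ht2⟩
      obtain ⟨k, t', h1, h2, h3⟩ := hA1 t
      have h4 : t + 1 = Rare_tau M n (k + 1) := by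
        by_contra h4
        rw [if_neg h4, mul_one] at h3
        exact ht2 h3
      have h5 : k + 1 ≤ n / M := by
        rw [← hτ.le_iff_le, hτe]
        omega
      simp only [Finset.coe_image, Set.mem_image, Finset.mem_coe, Finset.mem_range]
      exact ⟨k, by omega, by omega⟩
    have hcard : {t : ℕ | t < n ∧ A t ≠ 1}.ncard ≤ n / M := by
      refine (Set.ncard_le_ncard hsub (Finset.finite_toSet _)).trans ?_
      rw [Set.ncard_coe_finset]
      refine Finset.card_image_le.trans ?_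
      rw [Finset.card_range]
    calc M * {t : ℕ | t < n ∧ A t ≠ 1}.ncard ≤ M * (n / M) := Nat.mul_le_mul_left _ hcard
      _ ≤ n := Nat.mul_div_le n M
  · intro p hp
    obtain ⟨z, hz, h⟩ := hZ1 p hp
    refine ⟨z, hz, fun x hx => ?_⟩
    have h1 := hA2 (n / M) x
    rw [hτe] at h1
    rw [h1]
    exact h x hx
  · intro t ht v hv
    obtain ⟨k, t', h1, h2, h3⟩ := hA1 t
    have hk : k < n / M := by
      rw [← hτ.lt_iff_lt, hτe]
      omega
    have h4 := hA3 (n / M) k t' hk h1 v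
    rw [hτe, ← h2, one_smul, Rare_kick_one] at h4
    have h5 : cp (fun t => f (w (Rare_tau M n k + t))) (t' + 1)
        (Rare_tau M n (k + 1) - Rare_tau M n k - (t' + 1)) v ∈ W' (w' k) := by
      simp only [W', w', Finset.mem_biUnion, Finset.mem_range, Finset.mem_image]
      exact ⟨t', h1, v, by rw [← h2]; exact hv, rfl⟩
    obtain ⟨z, hz, h6⟩ := hZ2 k hk _ h5
    refine ⟨z, hz, ?_⟩
    rw [h4]
    exact h6

end Pool.Agent.H56.CF
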