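import Mathlib
import Pool.Agent.H56.CF.Defs
import Pool.Agent.H84.UC.Global

/-!
# MODULE CONTRB: contraction along blocks (application of `LC`)

PROOF.  Apply `hLC` with `L ^ N'` (it is `≥ 1`), `δ = ρ - ρ'`, `r = d`: get `ρC, C, l`.  Let `b ∈ B`, `u` with
`z₀ ∈ Z b`, `dist u z₀ < ρ'`, and `J, y`.  Write `b_k = T^(bt T r b k) b`; by induction `b_k ∈ B`
(`b_(k+1) = T^(r b_k) b_k`, `Function.iterate_add_apply`).
Choose centres `z k ∈ Z b_k` with `z 0 = z₀` and
`∀ y, dist y (z k) ≤ ρ → dist (cp (orb T G b_k) 0 (r b_k) y) (z (k+1)) < ρ'` recursively from the first part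
of `Trap` (e.g. a sequence in the subtype `{q : ℕ × S // q.2 ∈ Z b_(q.1)}`, or prove by `Nat.rec` on a
dependent sum; or use `exists_seq`-type choice: for all `k` and `p` choose a successor, total function
`succ k p`, `z (k+1) = succ k (z k)`, then show `z k ∈ Z b_k` by induction).
Block maps `g k = cp (orb T G b_k) 0 (r b_k)`, also `= cp (orb T G b) (bt T r b k) (r b_k)` (`cp_orb_shift`).
They are in `H` (`r b_k ≥ 1`; nonempty compositions, as `glob_cp_mem` in `H84/UC/Global`, reprove or import)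
and `L ^ N'` Lipschitz (`cp_lip`, `r b_k ≤ N'`, `L ≥ 1`).  Targets `x k` with `ρ + d ≤ dist (x k) (z k)` (`far`).
Pseudo-orbits: `p 0 = u`, `dist (p (k+1)) (g k (p k)) < ρ - ρ'` for `k < J`.  By induction on `k ≤ J`:
`dist (p k) (z k) ≤ ρ` (step: `g k (p k)` is within `ρ'` of `z (k+1)`).  Hence
`dist (p (k+1)) (x (k+1)) ≥ dist (x (k+1)) (z (k+1)) - ρ ≥ d` for `k < J`.
So `dist (cp g 0 J y) (cp g 0 J u) ≤ C * l^J * dist y u`, and `cp g 0 J = cp (orb T G b) 0 (bt T r b J)`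
by induction on `J` (`cp_add`).
`block_stay`: by induction on `J` the point stays within `ρ'` of a centre.
-/

set_option autoImplicit false

namespace Pool.Agent.H56.CF

open Pool.Agent.H84.UC

/-- the time from the beginning of the block `b` to the beginning of the `J`-th next block -/
def bt {X : Type*} (T : X → X) (r : X → ℕ) (b : X) : ℕ → ℕ
  | 0 => 0
  | J + 1 => bt T r b J + r (T^[bt T r b J] b)

theorem bt_succ_iter {X : Type*} (T : X → X) (r : X → ℕ) (b : X) (J : ℕ) :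
    T^[bt T r b (J + 1)] b = T^[r (T^[bt T r b J] b)] (T^[bt T r b J] b) := by
  show T^[bt T r b J + r (T^[bt T r b J] b)] b = _
  rw [Nat.add_comm, Function.iterate_add_apply]

theorem bt_mem {X : Type*} {T : X → X} {B : Set X} {r : X → ℕ} {N N' : ℕ}
    (hB : Base T B r N N') {b : X} (hb : b ∈ B) (J : ℕ) : T^[bt T r b J] b ∈ B := by
  induction J with
  | zero => exact hb
  | succ J ih =>
    rw [bt_succ_iter]
    exact (hB.1 _ ih).2.2

theorem bt_bounds {X : Type*} {T : X → X} {B : Set X} {r : X → ℕ} {N N' : ℕ} (hN : 1 ≤ N)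
    (hB : Base T B r N N') {b : X} (hb : b ∈ B) (J : ℕ) :
    J ≤ bt T r b J ∧ bt T r b J ≤ N' * J := by
  induction J with
  | zero => exact ⟨le_rfl, by simp [bt]⟩
  | succ J ih =>
    have h1 := hB.1 _ (bt_mem hB hb J)
    have e : bt T r b (J + 1) = bt T r b J + r (T^[bt T r b J] b) := rfl
    rw [e, Nat.mul_succ]
    omega

theorem cp_bt_succ {X S : Type*} (T : X → X) (G : X → S → S) (r : X → ℕ) (b : X) (J : ℕ) (y : S) :
    cp (orb T G b) 0 (bt T r b (J + 1)) y =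
      cp (orb T G (T^[bt T r b J] b)) 0 (r (T^[bt T r b J] b))
        (cp (orb T G b) 0 (bt T r b J) y) := by
  rw [cp_orb_shift]
  show cp (orb T G b) 0 (bt T r b J + r (T^[bt T r b J] b)) y = _
  rw [cp_add, Nat.zero_add, Nat.add_zero]

theorem block_stay {X S : Type*} [MetricSpace S] {T : X → X} {G : X → S → S} {V : X → Set S}
    {B : Set X} {r : X → ℕ} {Z : X → Finset S} {ρ ρ' : ℝ} {N N' : ℕ}
    (hB : Base T B r N N') (hT : Trap T G V B r Z ρ ρ') (hρ' : ρ' < ρ)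
    {b : X} (hb : b ∈ B) {u : S} (hu : ∃ z ∈ Z b, dist u z < ρ') (J : ℕ) :
    ∃ z ∈ Z (T^[bt T r b J] b), dist (cp (orb T G b) 0 (bt T r b J) u) z < ρ' := by
  induction J with
  | zero => exact hu
  | succ J ih =>
    obtain ⟨z, hz, hz1⟩ := ih
    obtain ⟨q, hq, hq1⟩ := hT.1 _ (bt_mem hB hb J) z hz
    refine ⟨q, ?_, ?_⟩
    · rw [bt_succ_iter]
      exact hq
    · rw [cp_bt_succ]
      exact hq1 _ (hz1.le.trans hρ'.le)

theorem contr_blocks {X : Type*} {S : Type} [MetricSpace S] {H : Set (S → S)} (hLC : LC H)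
    (Hcomp : ∀ f ∈ H, ∀ g ∈ H, (fun x => f (g x)) ∈ H) {T : X → X} {G : X → S → S}
    {V : X → Set S} {B : Set X} {r : X → ℕ} {Z : X → Finset S} {ρ ρ' d L : ℝ} {N N' : ℕ}
    (hN : 1 ≤ N) (hG : ∀ x, G x ∈ H) (hL1 : 1 ≤ L)
    (hL : ∀ x a b, dist (G x a) (G x b) ≤ L * dist a b)
    (hB : Base T B r N N') (hT : Trap T G V B r Z ρ ρ') (hρ' : ρ' < ρ) (hd : 0 < d)
    (far : ∀ p : S, ∃ y, ρ + d ≤ dist y p) :
    ∃ ρC : ℝ, 0 < ρC ∧ ∃ C : ℝ, 1 ≤ C ∧ ∃ l : ℝ, 0 < l ∧ l < 1 ∧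
      ∀ b ∈ B, ∀ u, (∃ z ∈ Z b, dist u z < ρ') → ∀ (J : ℕ) (y : S), dist y u ≤ ρC →
        dist (cp (orb T G b) 0 (bt T r b J) y) (cp (orb T G b) 0 (bt T r b J) u)
          ≤ C * l ^ J * dist y u := by
  classical
  obtain ⟨ρC, hρC, C, hC, l, hl0, hl1, hmain⟩ := hLC (L ^ N') (ρ - ρ') d (one_le_pow₀ hL1)
    (by linarith) hd
  refine ⟨ρC, hρC, C, hC, l, hl0, hl1, ?_⟩
  rintro b hb u ⟨z0, hz0, hu⟩ J y hy
  have hsucc : ∀ (k : ℕ) (p : S), ∃ q : S, p ∈ Z (T^[bt T r b k] b) →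
      q ∈ Z (T^[bt T r b (k + 1)] b) ∧ ∀ y, dist y p ≤ ρ →
        dist (cp (orb T G (T^[bt T r b k] b)) 0 (r (T^[bt T r b k] b)) y) q < ρ' := by
    intro k p
    by_cases hp : p ∈ Z (T^[bt T r b k] b)
    · obtain ⟨q, hq, hq1⟩ := hT.1 _ (bt_mem hB hb k) p hp
      refine ⟨q, fun _ => ⟨?_, hq1⟩⟩
      rw [bt_succ_iter]
      exact hq
    · exact ⟨p, fun h => absurd h hp⟩
  choose F hF using hsucc
  obtain ⟨z, hz00, hzs⟩ : ∃ z : ℕ → S, z 0 = z0 ∧ ∀ k, z (k + 1) = F k (z k) :=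
    ⟨fun k => Nat.rec z0 (fun k p => F k p) k, rfl, fun _ => rfl⟩
  have hzZ : ∀ k, z k ∈ Z (T^[bt T r b k] b) := by
    intro k
    induction k with
    | zero => rw [hz00]; exact hz0
    | succ k ih => rw [hzs]; exact (hF k (z k) ih).1
  have hzd : ∀ k y, dist y (z k) ≤ ρ →
      dist (cp (orb T G (T^[bt T r b k] b)) 0 (r (T^[bt T r b k] b)) y) (z (k + 1)) < ρ' := by
    intro k y hy
    rw [hzs]
    exact (hF k (z k) (hzZ k)).2 y hy
  choose x hx using fun k => far (z k)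
  have hcp : ∀ (J : ℕ) (w : S), cp (fun k => cp (orb T G (T^[bt T r b k] b)) 0
      (r (T^[bt T r b k] b))) 0 J w = cp (orb T G b) 0 (bt T r b J) w := by
    intro J w
    induction J with
    | zero => rfl
    | succ J ih =>
      rw [cp_succ, ih, cp_bt_succ, Nat.zero_add]
  have h1 := hmain J (fun k => cp (orb T G (T^[bt T r b k] b)) 0 (r (T^[bt T r b k] b))) x u
    (by
      intro k
      have h2 := hB.1 _ (bt_mem hB hb k)
      obtain ⟨m, hm⟩ : ∃ m, r (T^[bt T r b k] b) = m + 1 := ⟨r (T^[bt T r b k] b) - 1, by omega⟩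
      show cp (orb T G (T^[bt T r b k] b)) 0 (r (T^[bt T r b k] b)) ∈ H
      rw [hm]
      exact glob_cp_mem Hcomp (fun i => hG _) 0 m)
    (by
      intro k p q
      have h2 := hB.1 _ (bt_mem hB hb k)
      show dist (cp (orb T G (T^[bt T r b k] b)) 0 (r (T^[bt T r b k] b)) p)
        (cp (orb T G (T^[bt T r b k] b)) 0 (r (T^[bt T r b k] b)) q) ≤ _
      refine (cp_lip (L := L) (by linarith) (fun i _ a b => hL _ a b) p q).trans ?_
      exact mul_le_mul_of_nonneg_right (pow_le_pow_right₀ hL1 h2.2.1) dist_nonneg)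
    (by
      intro p hp0 hp k hk
      have h2 : ∀ k ≤ J, dist (p k) (z k) ≤ ρ := by
        intro k
        induction k with
        | zero =>
          intro _
          rw [hp0, hz00]
          linarith
        | succ k ih =>
          intro hk
          have h3 := hzd k (p k) (ih (by omega))
          have h4 := hp k (by omega)
          have h5 := dist_triangle (p (k + 1))
            (cp (orb T G (T^[bt T r b k] b)) 0 (r (T^[bt T r b k] b)) (p k)) (z (k + 1))
          have h6 : dist (p (k + 1))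
            (cp (orb T G (T^[bt T r b k] b)) 0 (r (T^[bt T r b k] b)) (p k)) < ρ - ρ' := h4
          linarith
      have h3 := h2 (k + 1) (by omega)
      have h4 := hx (k + 1)
      have h5 := dist_triangle (x (k + 1)) (p (k + 1)) (z (k + 1))
      rw [dist_comm (x (k + 1)) (p (k + 1))] at h5
      linarith) y hy
  rwa [hcp, hcp] at h1

end Pool.Agent.H56.CF
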