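import Mathlib
import Pool.Agent.H56.CF.Defs
import Pool.Agent.H56.CF.ContrB

/-!
# MODULE CONTRO: uniform contraction along the critical orbits

PROOF.  Let `ρC, C₀, l₀` be given by `contr_blocks` (may be used).  Put `l = 1 - (1 - l₀) / (N' + 1)` (so
`0 < l < 1` and `l₀ ≤ l^(N'+1)` by Bernoulli, `one_add_mul_le_pow`), `δ = ρC / L^N'`,
`C = L^(2 N') * (C₀ + 1) * (ρC + 1) / (l^(2 N' + 2) * l₀^2)` or any convenient larger number.

Let `x, c` with `G x c ∈ V x`.  By `Base` `x = T^t b`, `b ∈ B`, `t < r b`.  Put `a₀ = r b - t`, `1 ≤ a₀ ≤ N'`,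
`b₁ = T^(r b) b = T^a₀ x ∈ B`, `u = cp (orb T G x) 0 a₀ c`.  By `cp_orb_shift`, `cp_succ'`:
`u = cp (orb T G b) (t+1) (r b - (t+1)) (G x c)`, so the second part of `Trap` gives `z ∈ Z b₁` with
`dist u z < ρ'`.  Put `a J = a₀ + bt T r b₁ J`, `u J = cp (orb T G x) 0 (a J) c = cp (orb T G b₁) 0 (bt T r b₁ J) u`
(`cp_add`); `T^(a J) x = T^(bt T r b₁ J) b₁ ∈ B` (`bt_mem`), and `u J` is within `ρ'` of a point of `Z` there
(`block_stay`).  Also `bt T r b₁ (J + J') = bt T r b₁ J + bt T r (T^(bt T r b₁ J) b₁) J'` (induction on `J'`).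
`a (J+1) ≤ a J + N'`, `J ≤ a J`.

Let `k, n, y` be given with `dist y w < δ`, `w = cp (orb T G x) 0 k c`.  Let `J` be the least number with
`k ≤ a J` (`Nat.find`); then `a J ≤ k + N'`.
CASE 1: `k + n < a J`.  Then `n < N'`; by `cp_lip` the distance at time `k + n` is at most
`L^n δ ≤ L^N' δ ≤ C l^n`.
CASE 2: `a J ≤ k + n`.  The distance at time `a J` is at most `L^N' * δ ≤ ρC`.  Let `J'` be the largest number
with `a (J + J') ≤ k + n` (`Nat.findGreatest` or `Nat.find` for the least `J'' ` with `k + n < a (J + J'')`), so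
`k + n < a (J + J' + 1) ≤ a (J + J') + N'` and `n ≤ N' * (J' + 2)`.  By `contr_blocks` (block start `T^(a J) x`,
point `u J`) the distance at time `a (J + J')` is at most `C₀ * l₀^J' * ρC`, so the distance at time `k + n` is at
most `L^N' * C₀ * l₀^J' * ρC`, and `l₀^J' = l₀^(J'+2) / l₀^2 ≤ l^((N'+1) (J'+2)) / l₀^2 ≤ l^n / l₀^2`.
-/

set_option autoImplicit false

namespace Pool.Agent.H56.CF

open Pool.Agent.H84.UC

theorem bt_add {X : Type*} (T : X → X) (r : X → ℕ) (b : X) (J J' : ℕ) :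
    bt T r b (J + J') = bt T r b J + bt T r (T^[bt T r b J] b) J' := by
  induction J' with
  | zero => rfl
  | succ J' ih =>
    rw [← Nat.add_assoc]
    change bt T r b (J + J') + r (T^[bt T r b (J + J')] b) = bt T r b J +
      (bt T r (T^[bt T r b J] b) J' + r (T^[bt T r (T^[bt T r b J] b) J'] (T^[bt T r b J] b)))
    rw [ih, ← Function.iterate_add_apply, Nat.add_comm (bt T r (T^[bt T r b J] b) J') (bt T r b J),
      Nat.add_assoc]

theorem bt_step {X : Type*} {T : X → X} {B : Set X} {r : X → ℕ} {N N' : ℕ} (hB : Base T B r N N')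
    {b : X} (hb : b ∈ B) (J : ℕ) : bt T r b (J + 1) ≤ bt T r b J + N' := by
  change bt T r b J + r (T^[bt T r b J] b) ≤ _
  have := (hB.1 _ (bt_mem hB hb J)).2.1
  omega

/-- contraction from the beginning of a block up to an arbitrary time -/
theorem contr_any {X : Type*} {S : Type} [MetricSpace S] {T : X → X} {G : X → S → S}
    {B : Set X} {r : X → ℕ} {Z : X → Finset S} {ρ' L ρC C₀ l₀ : ℝ} {N N' : ℕ}
    (hN : 1 ≤ N) (hL1 : 1 ≤ L)
    (hL : ∀ x a b, dist (G x a) (G x b) ≤ L * dist a b)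
    (hB : Base T B r N N') (hC₀ : 1 ≤ C₀) (hl₀ : 0 < l₀)
    (hcb : ∀ b ∈ B, ∀ u, (∃ z ∈ Z b, dist u z < ρ') → ∀ (J : ℕ) (y : S), dist y u ≤ ρC →
        dist (cp (orb T G b) 0 (bt T r b J) y) (cp (orb T G b) 0 (bt T r b J) u)
          ≤ C₀ * l₀ ^ J * dist y u)
    {b : X} (hb : b ∈ B) {u : S} (hu : ∃ z ∈ Z b, dist u z < ρ') (y : S) (hy : dist y u ≤ ρC)
    (m : ℕ) : ∃ J : ℕ, m ≤ N' * (J + 1) ∧
      dist (cp (orb T G b) 0 m y) (cp (orb T G b) 0 m u) ≤ L ^ N' * (C₀ * l₀ ^ J * ρC) := by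
  classical
  have hex : ∃ J, m < bt T r b J := ⟨m + 1, (bt_bounds hN hB hb (m + 1)).1⟩
  obtain ⟨J, hJ⟩ : ∃ J, Nat.find hex = J := ⟨_, rfl⟩
  have hJ1 : m < bt T r b J := hJ ▸ Nat.find_spec hex
  have hJ0 : J ≠ 0 := by
    intro h0
    rw [h0] at hJ1
    exact absurd hJ1 (Nat.not_lt_zero m)
  obtain ⟨j, rfl⟩ := Nat.exists_eq_succ_of_ne_zero hJ0
  have hj : bt T r b j ≤ m := by
    by_contra hcon
    push Not at hcon
    have := Nat.find_min' hex hcon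
    omega
  refine ⟨j, ?_, ?_⟩
  · have := (bt_bounds hN hB hb (j + 1)).2
    exact (Nat.le_of_lt hJ1).trans this
  · obtain ⟨i, hi⟩ : ∃ i, m = bt T r b j + i := ⟨m - bt T r b j, by omega⟩
    have hiN : i ≤ N' := by
      have h1 := bt_step hB hb j
      have h2 : m < bt T r b (j + 1) := hJ1
      omega
    rw [hi, cp_add, cp_add]
    have h1 := hcb b hb u hu j y hy
    have h2 : dist (cp (orb T G b) (0 + bt T r b j) i (cp (orb T G b) 0 (bt T r b j) y))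
        (cp (orb T G b) (0 + bt T r b j) i (cp (orb T G b) 0 (bt T r b j) u)) ≤
        L ^ i * dist (cp (orb T G b) 0 (bt T r b j) y) (cp (orb T G b) 0 (bt T r b j) u) :=
      cp_lip (by linarith) (fun _ _ x y => hL _ x y) _ _
    have h3 : C₀ * l₀ ^ j * dist y u ≤ C₀ * l₀ ^ j * ρC :=
      mul_le_mul_of_nonneg_left hy (by positivity)
    have h4 : L ^ i ≤ L ^ N' := pow_le_pow_right₀ hL1 hiN
    refine h2.trans (mul_le_mul h4 (h1.trans h3) dist_nonneg (by positivity))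

theorem contr_orbit {X : Type*} {S : Type} [MetricSpace S] {H : Set (S → S)} (hLC : LC H)
    (Hcomp : ∀ f ∈ H, ∀ g ∈ H, (fun x => f (g x)) ∈ H) {T : X → X} {G : X → S → S}
    {V : X → Set S} {B : Set X} {r : X → ℕ} {Z : X → Finset S} {ρ ρ' d L : ℝ} {N N' : ℕ}
    (hN : 1 ≤ N) (hG : ∀ x, G x ∈ H) (hL1 : 1 ≤ L)
    (hL : ∀ x a b, dist (G x a) (G x b) ≤ L * dist a b)
    (hB : Base T B r N N') (hT : Trap T G V B r Z ρ ρ') (hρ' : ρ' < ρ) (hd : 0 < d)
    (far : ∀ p : S, ∃ y, ρ + d ≤ dist y p) :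
    ∃ δ : ℝ, 0 < δ ∧ ∃ C l : ℝ, 0 < l ∧ l < 1 ∧ ∀ (x : X) (c : S), G x c ∈ V x →
      ∀ (k n : ℕ) (y : S), dist y (cp (orb T G x) 0 k c) < δ →
        dist (cp (orb T G x) k n y) (cp (orb T G x) 0 (k + n) c) ≤ C * l ^ n := by
  classical
  obtain ⟨ρC, hρC, C₀, hC₀, l₀, hl₀, hl₁, hcb⟩ := contr_blocks hLC Hcomp hN hG hL1 hL hB hT hρ' hd far
  set l : ℝ := 1 - (1 - l₀) / (N' + 1) with hl
  have hN'0 : (0 : ℝ) < (N' : ℝ) + 1 := by positivity
  have hq0 : 0 < (1 - l₀) / ((N' : ℝ) + 1) := div_pos (by linarith) hN'0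
  have hq1 : (1 - l₀) / ((N' : ℝ) + 1) ≤ 1 - l₀ := by
    rw [div_le_iff₀ hN'0]
    have : (0 : ℝ) ≤ N' := Nat.cast_nonneg _
    nlinarith
  have hlpos : 0 < l := by rw [hl]; linarith
  have hllt : l < 1 := by rw [hl]; linarith
  have hbern : l₀ ≤ l ^ (N' + 1) := by
    have h1 := one_add_mul_le_pow (a := -((1 - l₀) / ((N' : ℝ) + 1))) (by linarith) (N' + 1)
    have h2 : (1 : ℝ) + ((N' + 1 : ℕ) : ℝ) * -((1 - l₀) / ((N' : ℝ) + 1)) = l₀ := by
      push_cast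
      field_simp
      ring
    rw [h2] at h1
    have h3 : 1 + -((1 - l₀) / ((N' : ℝ) + 1)) = l := by rw [hl]; ring
    rw [h3] at h1
    exact h1
  have hLN : 0 < L ^ N' := pow_pos (by linarith) _
  have hLN1 : 1 ≤ L ^ N' := one_le_pow₀ hL1
  refine ⟨ρC / L ^ N', div_pos hρC hLN, L ^ N' * C₀ * ρC / l₀ ^ 2, l, hlpos, hllt, ?_⟩
  intro x c hxc k n y hy
  obtain ⟨b, hb, t, ht, rfl⟩ := hB.2 x
  obtain ⟨hrN, hrN', hrB⟩ := hB.1 b hb
  obtain ⟨a₀, ha₀⟩ : ∃ a₀, a₀ + (t + 1) = r b := ⟨r b - (t + 1), by omega⟩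
  -- the first entrance
  set x : X := T^[t] b with hx
  set b₁ : X := T^[r b] b with hb₁
  have hxb : T^[a₀ + 1] x = b₁ := by
    rw [hx, hb₁, ← Function.iterate_add_apply]
    congr 1
    omega
  set u : S := cp (orb T G x) 0 (a₀ + 1) c with hu
  have hub : u = cp (orb T G b) (t + 1) a₀ (G x c) := by
    rw [hu, hx, cp_orb_shift, Nat.add_zero, cp_succ']
    rfl
  have hstay : ∃ z ∈ Z b₁, dist u z < ρ' := by
    obtain ⟨z, hz, hz2⟩ := hT.2 b hb t ht (G x c) hxc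
    refine ⟨z, hz, ?_⟩
    have h1 : r b - (t + 1) = a₀ := by omega
    rw [h1] at hz2
    rw [hub]
    exact hz2
  -- times
  have hcpx : ∀ (m i : ℕ) (p : S), cp (orb T G b₁) i m p = cp (orb T G x) (a₀ + 1 + i) m p := by
    intro m i p
    rw [← hxb, cp_orb_shift]
  have hex : ∃ J, k ≤ a₀ + 1 + bt T r b₁ J :=
    ⟨k, by have := (bt_bounds hN hB hrB k).1; omega⟩
  obtain ⟨J, hJ⟩ : ∃ J, Nat.find hex = J := ⟨_, rfl⟩
  have hJ1 : k ≤ a₀ + 1 + bt T r b₁ J := hJ ▸ Nat.find_spec hex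
  have hJ2 : a₀ + 1 + bt T r b₁ J ≤ k + N' := by
    rcases Nat.eq_zero_or_pos J with h0 | h0
    · rw [h0]
      change a₀ + 1 + 0 ≤ _
      omega
    · obtain ⟨j, rfl⟩ := Nat.exists_eq_succ_of_ne_zero (Nat.pos_iff_ne_zero.1 h0)
      have h1 : ¬ (k ≤ a₀ + 1 + bt T r b₁ j) := by
        intro h2
        have := Nat.find_min' hex h2
        omega
      have h2 := bt_step hB hrB j
      have h3 : bt T r b₁ (Nat.succ j) = bt T r b₁ (j + 1) := rfl
      rw [h3]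
      omega
  have hgoal1 : ∀ m ≤ N' + 1, ρC ≤ L ^ N' * C₀ * ρC / l₀ ^ 2 * l ^ m := by
    intro m hm
    have h1 : l₀ ≤ l ^ m := hbern.trans (pow_le_pow_of_le_one hlpos.le hllt.le hm)
    have h2 : ρC ≤ L ^ N' * C₀ * ρC := by
      have : 1 ≤ L ^ N' * C₀ := by nlinarith
      nlinarith
    have h3 : ρC * l₀ ^ 2 ≤ L ^ N' * C₀ * ρC * l ^ m := by
      have h4 : l₀ ^ 2 ≤ l ^ m := by nlinarith
      exact mul_le_mul h2 h4 (by positivity) (by positivity)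
    have h5 : L ^ N' * C₀ * ρC / l₀ ^ 2 * l ^ m = L ^ N' * C₀ * ρC * l ^ m / l₀ ^ 2 := by ring
    rw [h5, le_div_iff₀ (by positivity)]
    exact h3
  have hyw : dist y (cp (orb T G x) 0 k c) ≤ ρC / L ^ N' := hy.le
  have hlipk : ∀ m ≤ N', dist (cp (orb T G x) k m y) (cp (orb T G x) 0 (k + m) c) ≤ ρC := by
    intro m hm
    rw [cp_add, Nat.zero_add]
    have h2 : dist (cp (orb T G x) k m y) (cp (orb T G x) k m (cp (orb T G x) 0 k c)) ≤
        L ^ m * dist y (cp (orb T G x) 0 k c) :=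
      cp_lip (by linarith) (fun _ _ x y => hL _ x y) _ _
    refine h2.trans ?_
    calc L ^ m * dist y (cp (orb T G x) 0 k c) ≤ L ^ N' * (ρC / L ^ N') :=
          mul_le_mul (pow_le_pow_right₀ hL1 hm) hyw dist_nonneg hLN.le
      _ = ρC := by field_simp
  rcases Nat.lt_or_ge (k + n) (a₀ + 1 + bt T r b₁ J) with hcase | hcase
  · have hnN : n ≤ N' := by omega
    exact (hlipk n hnN).trans (hgoal1 n (by omega))
  · obtain ⟨i, hi⟩ : ∃ i, k + i = a₀ + 1 + bt T r b₁ J := ⟨a₀ + 1 + bt T r b₁ J - k, by omega⟩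
    obtain ⟨m, hm⟩ : ∃ m, n = i + m := ⟨n - i, by omega⟩
    have hiN : i ≤ N' := by omega
    set bJ : X := T^[bt T r b₁ J] b₁ with hbJ
    have hbJB : bJ ∈ B := bt_mem hB hrB J
    set uJ : S := cp (orb T G x) 0 (k + i) c with huJ
    have huJ' : uJ = cp (orb T G b₁) 0 (bt T r b₁ J) u := by
      rw [hcpx, huJ, hi, cp_add, Nat.zero_add, Nat.add_zero]
    have hstayJ : ∃ z ∈ Z bJ, dist uJ z < ρ' := by
      rw [huJ']
      exact block_stay hB hT hρ' hrB hstay J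
    have hyJ : dist (cp (orb T G x) k i y) uJ ≤ ρC := hlipk i hiN
    obtain ⟨J', hJ'1, hJ'2⟩ := contr_any hN hL1 hL hB hC₀ hl₀ hcb hbJB hstayJ
      (cp (orb T G x) k i y) hyJ m
    have hxJ : T^[k + i] x = bJ := by
      rw [hi, hbJ, Nat.add_comm (a₀ + 1) (bt T r b₁ J), Function.iterate_add_apply, hxb]
    have hcpJ : ∀ p : S, cp (orb T G bJ) 0 m p = cp (orb T G x) (k + i) m p := by
      intro p
      rw [← hxJ, cp_orb_shift, Nat.add_zero]
    rw [hcpJ, hcpJ] at hJ'2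
    have e1 : cp (orb T G x) k n y = cp (orb T G x) (k + i) m (cp (orb T G x) k i y) := by
      rw [hm, cp_add]
    have e2 : cp (orb T G x) 0 (k + n) c = cp (orb T G x) (k + i) m uJ := by
      rw [hm, ← Nat.add_assoc, cp_add, Nat.zero_add]
    rw [e1, e2]
    refine hJ'2.trans ?_
    have hnle : n ≤ (N' + 1) * (J' + 2) := by
      have h0 : N' * (J' + 1) + N' ≤ (N' + 1) * (J' + 2) := by nlinarith
      have h1 : n ≤ N' * (J' + 1) + N' := by
        rw [hm]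
        omega
      exact h1.trans h0
    have h1 : l₀ ^ (J' + 2) ≤ l ^ n := by
      calc l₀ ^ (J' + 2) ≤ (l ^ (N' + 1)) ^ (J' + 2) := pow_le_pow_left₀ hl₀.le hbern _
        _ = l ^ ((N' + 1) * (J' + 2)) := by rw [← pow_mul]
        _ ≤ l ^ n := pow_le_pow_of_le_one hlpos.le hllt.le hnle
    have h2 : L ^ N' * (C₀ * l₀ ^ J' * ρC) = L ^ N' * C₀ * ρC / l₀ ^ 2 * l₀ ^ (J' + 2) := by
      rw [pow_add]
      field_simp
    rw [h2]
    exact mul_le_mul_of_nonneg_left h1 (by positivity)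

end Pool.Agent.H56.CF
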