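import Mathlib

/-!
# MODULE MARKER: a clopen marker set (only Mathlib)

`X` compact, Hausdorff, totally disconnected, `T` a homeomorphism without points of period `< N`.  There is
a clopen set `B` which is disjoint from `T^n B` for `0 < n < N` and which every orbit meets within
`2 N - 1` steps.

PROOF.
(1) Every `x` has a clopen neighbourhood `U` with `T^n y ∉ U` for all `y ∈ U`, `0 < n < N`.  For every `n` with
`0 < n < N` there are disjoint open `O₁ ∋ x`, `O₂ ∋ T^n x` (`t2_separation`), put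
`O_n = O₁ ∩ (T^n)⁻¹ O₂`; intersect the finitely many `O_n` and use `compact_exists_isClopen_in_isOpen`.
(2) For every finite set `t` of points (with the neighbourhoods `U x` of (1)) there is a clopen `B` with
`∀ y ∈ B, ∀ n, 0 < n → n < N → T^n y ∉ B` and: for every `y ∈ ⋃ x ∈ t, U x` there is `n < N` with `T^n y ∈ B` or
`T.symm^n y ∈ B`.  Induction on `t` (`Finset.induction_on`): `B = ∅`; if `B` works for `t` then
`B' = B ∪ {y ∈ U a | ∀ n < N, T^n y ∉ B ∧ T.symm^n y ∉ B}` works for `insert a t` (clopen: finite intersections of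
preimages of clopen sets under the continuous maps `T^n`, `T.symm^n`).  Disjointness for `y ∈ B'`,
`T^n y ∈ B'`, `0 < n < N`: both in `B`: hypothesis; `y ∈ B`, `T^n y` new: `T.symm^n (T^n y) = y ∈ B` contradicts
newness of `T^n y`; `y` new, `T^n y ∈ B`: contradicts newness of `y`; both new: both in `U a`, contradiction to (1).
Covering: if `y ∈ U a` is not new then some `T^n y` or `T.symm^n y` is in `B`; if it is new, `n = 0`.
(3) By compactness finitely many `U x` cover `X` (`CompactSpace.elim_nhds_subcover`); let `B` be given by (2).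
For `x : X` apply the covering property to `y = T^(N-1) x`: there is `n < N` with `T^n y ∈ B`, i.e.
`T^(N-1+n) x ∈ B`, or `T.symm^n y = T^(N-1-n) x ∈ B`; both exponents are `≤ 2 N - 2`.
-/

set_option autoImplicit false

namespace Pool.Agent.H56.CF

theorem marker_nbhd {X : Type*} [TopologicalSpace X] [CompactSpace X] [T2Space X]
    [TotallyDisconnectedSpace X] (T : X ≃ₜ X) (N : ℕ)
    (h : ∀ x : X, ∀ n : ℕ, 0 < n → n < N → (⇑T)^[n] x ≠ x) (x : X) :
    ∃ U : Set X, IsClopen U ∧ x ∈ U ∧ ∀ y ∈ U, ∀ n : ℕ, 0 < n → n < N → (⇑T)^[n] y ∉ U := by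
  have h1 : ∀ n : ℕ, 0 < n → n < N →
      ∃ O : Set X, IsOpen O ∧ x ∈ O ∧ ∀ y ∈ O, (⇑T)^[n] y ∉ O := by
    intro n hn0 hnN
    obtain ⟨O1, O2, ho1, ho2, hx1, hx2, hd⟩ := t2_separation (h x n hn0 hnN).symm
    refine ⟨O1 ∩ ((⇑T)^[n]) ⁻¹' O2, ho1.inter (ho2.preimage (T.continuous.iterate n)),
      ⟨hx1, hx2⟩, ?_⟩
    rintro y ⟨hy1, hy2⟩ ⟨hy3, -⟩
    exact Set.disjoint_left.1 hd hy3 hy2
  choose! O hO hxO hOd using h1
  have h2 : IsOpen (⋂ n ∈ Finset.Ioo 0 N, O n) :=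
    isOpen_biInter_finset fun n hn => by
      rw [Finset.mem_Ioo] at hn
      exact hO n hn.1 hn.2
  have h3 : x ∈ ⋂ n ∈ Finset.Ioo 0 N, O n := by
    rw [Set.mem_iInter₂]
    intro n hn
    rw [Finset.mem_Ioo] at hn
    exact hxO n hn.1 hn.2
  obtain ⟨U, hU, hxU, hUs⟩ := compact_exists_isClopen_in_isOpen h2 h3
  refine ⟨U, hU, hxU, fun y hy n hn0 hnN hy' => ?_⟩
  have h4 := Set.mem_iInter₂.1 (hUs hy) n (Finset.mem_Ioo.2 ⟨hn0, hnN⟩)
  have h5 := Set.mem_iInter₂.1 (hUs hy') n (Finset.mem_Ioo.2 ⟨hn0, hnN⟩)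
  exact hOd n hn0 hnN y h4 h5

theorem marker_symm_iter {X : Type*} [TopologicalSpace X] (T : X ≃ₜ X) (n : ℕ) (z : X) :
    (⇑T.symm)^[n] ((⇑T)^[n] z) = z :=
  (show Function.LeftInverse T.symm T from fun z => T.symm_apply_apply z).iterate n z

theorem marker_fin {X : Type*} [TopologicalSpace X] (T : X ≃ₜ X) (N : ℕ) (hN : 1 ≤ N)
    (U : X → Set X) (hU : ∀ x, IsClopen (U x))
    (hd : ∀ x, ∀ y ∈ U x, ∀ n : ℕ, 0 < n → n < N → (⇑T)^[n] y ∉ U x) (t : Finset X) :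
    ∃ B : Set X, IsClopen B ∧ (∀ y ∈ B, ∀ n : ℕ, 0 < n → n < N → (⇑T)^[n] y ∉ B) ∧
      ∀ y : X, (∃ x ∈ t, y ∈ U x) →
        ∃ n < N, (⇑T)^[n] y ∈ B ∨ (⇑T.symm)^[n] y ∈ B := by
  classical
  induction t using Finset.induction_on with
  | empty =>
    refine ⟨∅, isClopen_empty, fun y hy => hy.elim, ?_⟩
    rintro y ⟨x, hx, -⟩
    exact absurd hx (Finset.notMem_empty x)
  | insert a t ha ih =>
    obtain ⟨B, hB, hBd, hBc⟩ := ih
    obtain ⟨A, hA⟩ : ∃ A : Set X, A = U a ∩ ⋂ n ∈ Finset.range N,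
        (((⇑T)^[n]) ⁻¹' Bᶜ ∩ ((⇑T.symm)^[n]) ⁻¹' Bᶜ) := ⟨_, rfl⟩
    have hAm : ∀ y, y ∈ A ↔ y ∈ U a ∧ ∀ n < N, (⇑T)^[n] y ∉ B ∧ (⇑T.symm)^[n] y ∉ B := by
      intro y
      rw [hA, Set.mem_inter_iff, Set.mem_iInter₂]
      simp only [Finset.mem_range, Set.mem_inter_iff, Set.mem_preimage, Set.mem_compl_iff]
    have hAc : IsClopen A := by
      rw [hA]
      refine (hU a).inter (isClopen_biInter_finset fun n _ => ?_)
      exact (hB.compl.preimage (T.continuous.iterate n)).inter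
        (hB.compl.preimage (T.symm.continuous.iterate n))
    refine ⟨B ∪ A, hB.union hAc, ?_, ?_⟩
    · intro y hy n hn0 hnN hy'
      rcases hy with hy | hy
      · rcases hy' with hy' | hy'
        · exact hBd y hy n hn0 hnN hy'
        · have h1 := ((hAm _).1 hy').2 n hnN
          rw [marker_symm_iter] at h1
          exact h1.2 hy
      · rcases hy' with hy' | hy'
        · exact (((hAm _).1 hy).2 n hnN).1 hy'
        · exact hd a y ((hAm _).1 hy).1 n hn0 hnN ((hAm _).1 hy').1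
    · rintro y ⟨x, hx, hyx⟩
      rcases Finset.mem_insert.1 hx with rfl | hx
      · by_cases hc : ∀ n < N, (⇑T)^[n] y ∉ B ∧ (⇑T.symm)^[n] y ∉ B
        · exact ⟨0, hN, Or.inl (Or.inr ((hAm y).2 ⟨hyx, hc⟩))⟩
        · push Not at hc
          obtain ⟨n, hn, hc⟩ := hc
          by_cases hb : (⇑T)^[n] y ∈ B
          · exact ⟨n, hn, Or.inl (Or.inl hb)⟩
          · exact ⟨n, hn, Or.inr (Or.inl (hc hb))⟩
      · obtain ⟨n, hn, hc⟩ := hBc y ⟨x, hx, hyx⟩
        exact ⟨n, hn, hc.imp Or.inl Or.inl⟩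

theorem marker {X : Type*} [TopologicalSpace X] [CompactSpace X] [T2Space X]
    [TotallyDisconnectedSpace X] (T : X ≃ₜ X) (N : ℕ) (hN : 1 ≤ N)
    (h : ∀ x : X, ∀ n : ℕ, 0 < n → n < N → (⇑T)^[n] x ≠ x) :
    ∃ B : Set X, IsClopen B ∧ (∀ x ∈ B, ∀ n : ℕ, 0 < n → n < N → (⇑T)^[n] x ∉ B) ∧
      ∀ x : X, ∃ n < 2 * N - 1, (⇑T)^[n] x ∈ B := by
  choose U hU hxU hUd using marker_nbhd T N h
  obtain ⟨t, ht⟩ := CompactSpace.elim_nhds_subcover U fun x => (hU x).isOpen.mem_nhds (hxU x)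
  obtain ⟨B, hB, hBd, hBc⟩ := marker_fin T N hN U hU hUd t
  refine ⟨B, hB, hBd, fun x => ?_⟩
  have h1 : (⇑T)^[N - 1] x ∈ ⋃ y ∈ t, U y := by
    rw [ht]
    trivial
  rw [Set.mem_iUnion₂] at h1
  obtain ⟨y, hy, hxy⟩ := h1
  obtain ⟨n, hn, hc⟩ := hBc _ ⟨y, hy, hxy⟩
  rcases hc with hc | hc
  · refine ⟨n + (N - 1), by omega, ?_⟩
    rw [Function.iterate_add_apply]
    exact hc
  · refine ⟨N - 1 - n, by omega, ?_⟩
    have h2 : N - 1 = n + (N - 1 - n) := by omega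
    rw [h2, Function.iterate_add_apply, marker_symm_iter] at hc
    exact hc

end Pool.Agent.H56.CF
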