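import Mathlib
import Pool.Agent.H56.CF.Defs
import Pool.Agent.H56.CF.Marker

/-!
# MODULE TOWERS: return times and towers over a clopen marker set

PROOF.  Let `B` be the clopen set of `marker`.  Every `x` has some `n < 2 N - 1` with `T^n x ∈ B`.
* `r x = least n ≥ 1 with T^n x ∈ B` (`Nat.find`; exists and is `≤ 2 N - 1`: apply the covering property to `T x`),
  `r⁻ x = least n ≥ 1 with T.symm^n x ∈ B`, `s x = least n ≥ 0 with T.symm^n x ∈ B` (existence: apply the
  covering property to `T.symm^(2 N - 2) x`, resp. `T.symm^(2 N - 1) x`: `T^n (T.symm^(2N-1) x) =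
  T.symm^(2N-1-n) x` for `n ≤ 2 N - 2`).
* These functions are locally constant: `{x | least = k}` is a finite intersection of preimages of `B` and of
  its complement under continuous maps, so it is open (`IsLocallyConstant.iff_isOpen_fiber`).  It is
  convenient to prove once and for all: if `φ : ℕ → X → X` are continuous, `B` is clopen and every `x` has
  some `n` with `φ n x ∈ B`, then `fun x => Nat.find (h x)` is locally constant.
* `next x = T^(r x) x`, `prev x = T.symm^(r⁻ x) x`, `base x = T.symm^(s x) x` are continuous: if `k : X → ℕ` is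
  locally constant then `fun x => φ (k x) x` is continuous (near `x₀` it agrees with `φ (k x₀)`;
  `continuous_iff_continuousAt`, `ContinuousAt.congr`).
* For `b ∈ B`: `N ≤ r b` since `T^n b ∉ B` for `0 < n < N`; `r b ≤ 2 N - 1`; `T^(r b) b ∈ B`.
* For `b ∈ B`, `t < r b`: `T.symm^j (T^t b) = T^(t-j) b ∉ B` for `j < t`, and `= b ∈ B` for `j = t`: so
  `s (T^t b) = t`, `base (T^t b) = b`.  In the same way `r⁻ (T^(r b) b) = r b`, so `prev (next b) = b`.
* Covering part of `Base`: for `x` take `b = base x`, `t = s x`: `T^t b = x`, `b ∈ B`; `t < r b`: otherwise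
  `n = r b` satisfies `1 ≤ n ≤ t`, `T^n b = T.symm^(t-n) x ∈ B` with `t - n < t`, against the minimality of `s x`.
-/

set_option autoImplicit false

namespace Pool.Agent.H56.CF

open Filter Topology

theorem lc_find {X : Type*} [TopologicalSpace X] (φ : ℕ → X → X) (hφ : ∀ n, Continuous (φ n))
    {B : Set X} (hB : IsClopen B) [∀ x, DecidablePred fun n => φ n x ∈ B]
    (h : ∀ x, ∃ n, φ n x ∈ B) : IsLocallyConstant fun x => Nat.find (h x) := by
  rw [IsLocallyConstant.iff_eventually_eq]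
  intro x
  have h1 : ∀ᶠ y in 𝓝 x, φ (Nat.find (h x)) y ∈ B :=
    (hφ _).continuousAt.eventually (hB.isOpen.mem_nhds (Nat.find_spec (h x)))
  have h2 : ∀ᶠ y in 𝓝 x, ∀ j ∈ Finset.range (Nat.find (h x)), φ j y ∉ B := by
    rw [eventually_all_finset]
    intro j hj
    have h3 : φ j x ∈ Bᶜ := Nat.find_min (h x) (Finset.mem_range.1 hj)
    exact (hφ _).continuousAt.eventually (hB.compl.isOpen.mem_nhds h3)
  filter_upwards [h1, h2] with y hy1 hy2
  rw [Nat.find_eq_iff]
  exact ⟨hy1, fun j hj => hy2 j (Finset.mem_range.2 hj)⟩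

theorem cont_of_lc {X : Type*} [TopologicalSpace X] (φ : ℕ → X → X) (hφ : ∀ n, Continuous (φ n))
    {k : X → ℕ} (hk : IsLocallyConstant k) : Continuous fun x => φ (k x) x := by
  rw [continuous_iff_continuousAt]
  intro x
  have h1 := (IsLocallyConstant.iff_eventually_eq k).1 hk x
  refine ContinuousAt.congr (hφ (k x)).continuousAt ?_
  filter_upwards [h1] with y hy
  rw [hy]

theorem iter_symm {X : Type*} [TopologicalSpace X] (T : X ≃ₜ X) (n m : ℕ) (hnm : n ≤ m) (x : X) :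
    (⇑T)^[n] ((⇑T.symm)^[m] x) = (⇑T.symm)^[m - n] x := by
  have h1 : Function.LeftInverse (⇑T) (⇑T.symm) := T.apply_symm_apply
  obtain ⟨k, rfl⟩ := Nat.exists_eq_add_of_le hnm
  rw [Function.iterate_add_apply, h1.iterate n, Nat.add_sub_cancel_left]

theorem towers {X : Type*} [TopologicalSpace X] [CompactSpace X] [T2Space X]
    [TotallyDisconnectedSpace X] (T : X ≃ₜ X) (N : ℕ) (hN : 1 ≤ N)
    (h : ∀ x : X, ∀ n : ℕ, 0 < n → n < N → (⇑T)^[n] x ≠ x) :
    ∃ (B : Set X) (r s : X → ℕ) (base prev next : X → X),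
      IsLocallyConstant r ∧ IsLocallyConstant s ∧
      Continuous base ∧ Continuous prev ∧ Continuous next ∧
      Base (⇑T) B r N (2 * N) ∧
      (∀ b ∈ B, next b = (⇑T)^[r b] b ∧ prev (next b) = b) ∧
      (∀ b ∈ B, ∀ t < r b, base ((⇑T)^[t] b) = b ∧ s ((⇑T)^[t] b) = t) := by
  classical
  obtain ⟨B, hB, hB1, hB2⟩ := marker T N hN h
  have hcT : ∀ n, Continuous (⇑T)^[n] := fun n => T.continuous.iterate n
  have hcS : ∀ n, Continuous (⇑T.symm)^[n] := fun n => T.symm.continuous.iterate n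
  have e1 : ∀ (n m : ℕ), n ≤ m → ∀ x, (⇑T)^[n] ((⇑T.symm)^[m] x) = (⇑T.symm)^[m - n] x :=
    fun n m hnm x => iter_symm T n m hnm x
  have e2 : ∀ (n m : ℕ), n ≤ m → ∀ x, (⇑T.symm)^[n] ((⇑T)^[m] x) = (⇑T)^[m - n] x :=
    fun n m hnm x => iter_symm T.symm n m hnm x
  have h1' : ∀ x, ∃ n < 2 * N - 1, (⇑T)^[n + 1] x ∈ B := by
    intro x
    obtain ⟨n, hn, hx⟩ := hB2 (T x)
    exact ⟨n, hn, by rw [Function.iterate_succ_apply]; exact hx⟩
  have h1 : ∀ x, ∃ n, (⇑T)^[n + 1] x ∈ B := by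
    intro x
    obtain ⟨n, _, hx⟩ := h1' x
    exact ⟨n, hx⟩
  have h2 : ∀ x, ∃ n, (⇑T.symm)^[n + 1] x ∈ B := by
    intro x
    obtain ⟨n, hn, hx⟩ := hB2 ((⇑T.symm)^[2 * N - 1] x)
    rw [e1 n _ hn.le] at hx
    refine ⟨2 * N - 1 - n - 1, ?_⟩
    have h3 : 2 * N - 1 - n - 1 + 1 = 2 * N - 1 - n := by omega
    rw [h3]
    exact hx
  have h3 : ∀ x, ∃ n, (⇑T.symm)^[n] x ∈ B := by
    intro x
    obtain ⟨n, hn, hx⟩ := hB2 ((⇑T.symm)^[2 * N - 2] x)
    rw [e1 n _ (by omega)] at hx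
    exact ⟨_, hx⟩
  let f1 : X → ℕ := fun x => Nat.find (h1 x)
  let f2 : X → ℕ := fun x => Nat.find (h2 x)
  let s : X → ℕ := fun x => Nat.find (h3 x)
  have hf1 : IsLocallyConstant f1 := lc_find (fun n => (⇑T)^[n + 1]) (fun n => hcT _) hB h1
  have hf2 : IsLocallyConstant f2 := lc_find (fun n => (⇑T.symm)^[n + 1]) (fun n => hcS _) hB h2
  have hs : IsLocallyConstant s := lc_find (fun n => (⇑T.symm)^[n]) (fun n => hcS _) hB h3
  have hr : IsLocallyConstant fun x => f1 x + 1 := hf1.comp (fun n => n + 1)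
  have key : ∀ b ∈ B, ∀ j, 0 < j → j < f1 b + 1 → (⇑T)^[j] b ∉ B := by
    intro b _ j hj hj2
    have h4 := Nat.find_min (h1 b) (show j - 1 < f1 b by omega)
    rwa [Nat.sub_add_cancel hj] at h4
  have hspec : ∀ b, (⇑T)^[f1 b + 1] b ∈ B := fun b => Nat.find_spec (h1 b)
  have hsb : ∀ b ∈ B, ∀ t < f1 b + 1, s ((⇑T)^[t] b) = t := by
    intro b hb t ht
    show Nat.find (h3 _) = t
    rw [Nat.find_eq_iff]
    constructor
    · rw [e2 t t le_rfl, Nat.sub_self]
      exact hb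
    · intro j hj
      rw [e2 j t hj.le]
      exact key b hb _ (by omega) (by omega)
  refine ⟨B, fun x => f1 x + 1, s, fun x => (⇑T.symm)^[s x] x, fun x => (⇑T.symm)^[f2 x + 1] x,
    fun x => (⇑T)^[f1 x + 1] x, hr, hs, cont_of_lc (fun n => (⇑T.symm)^[n]) hcS hs,
    cont_of_lc (fun n => (⇑T.symm)^[n + 1]) (fun n => hcS _) hf2,
    cont_of_lc (fun n => (⇑T)^[n + 1]) (fun n => hcT _) hf1, ⟨?_, ?_⟩, ?_, ?_⟩
  · intro b hb
    refine ⟨?_, ?_, hspec b⟩
    · by_contra hcon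
      exact hB1 b hb (f1 b + 1) (Nat.succ_pos _) (not_le.1 hcon) (hspec b)
    · obtain ⟨n, hn, hx⟩ := h1' b
      have h4 : f1 b ≤ n := Nat.find_min' (h1 b) hx
      show f1 b + 1 ≤ 2 * N
      omega
  · intro x
    have hb : (⇑T.symm)^[s x] x ∈ B := Nat.find_spec (h3 x)
    refine ⟨(⇑T.symm)^[s x] x, hb, s x, ?_, ?_⟩
    · by_contra hcon
      push Not at hcon
      have h4 := hspec ((⇑T.symm)^[s x] x)
      rw [e1 _ _ hcon] at h4
      exact Nat.find_min (h3 x) (show s x - (f1 ((⇑T.symm)^[s x] x) + 1) < s x by omega) h4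
    · rw [e1 _ _ le_rfl, Nat.sub_self]
      rfl
  · intro b hb
    refine ⟨rfl, ?_⟩
    show (⇑T.symm)^[f2 ((⇑T)^[f1 b + 1] b) + 1] ((⇑T)^[f1 b + 1] b) = b
    have h4 : f2 ((⇑T)^[f1 b + 1] b) = f1 b := by
      show Nat.find (h2 _) = f1 b
      rw [Nat.find_eq_iff]
      constructor
      · rw [e2 _ _ le_rfl, Nat.sub_self]
        exact hb
      · intro j hj
        rw [e2 _ _ (by omega)]
        exact key b hb _ (by omega) (by omega)
    rw [h4, e2 _ _ le_rfl, Nat.sub_self]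
    rfl
  · intro b hb t ht
    refine ⟨?_, hsb b hb t ht⟩
    show (⇑T.symm)^[s ((⇑T)^[t] b)] ((⇑T)^[t] b) = b
    rw [hsb b hb t ht, e2 _ _ le_rfl, Nat.sub_self]
    rfl

end Pool.Agent.H56.CF
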