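import Mathlib
import Pool.Agent.H56.CF.Defs
import Pool.Agent.H56.CF.Towers

/-!
# MODULE FIBRE: locally constant kicks over a zero dimensional system

PROOF.  Take `B, r, s, base, prev, next` from `towers` (proved there; may be used).
The block which starts at `x`: `D x : Blk N ι`,
`D x = ⟨(max (r x) N, fun t => if t < r x then π (T^t x) else π x), le_max_right _ _⟩`.
`D` is locally constant: near `x` one has `r y = r x` and `π (T^t y) = π (T^t x)` for all `t ≤ r x`
(`IsLocallyConstant.iff_eventually_eq`, finitely many conditions: `Filter.eventually_all_finset`;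
`π ∘ T^t` is locally constant by `IsLocallyConstant.comp_continuous`).
For `b ∈ B` the length of `D b` is `r b` (because `N ≤ r b`) and its word is `π (T^t b)` for `t < r b`.
Put
`R x = σ.A (D (prev (base x))) (D (base x)) (D (next (base x))) (s x)`,
`Z b = σ.Q (D (prev (prev b))) (D (prev b)) (D b)` (discs at the end of the block `prev b`, that is, at the
beginning of the block `b`).
`R` is locally constant (functions of finitely many locally constant maps: use
`IsLocallyConstant.iff_eventually_eq` again).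
For `b ∈ B`, `t < r b`: `base (T^t b) = b`, `s (T^t b) = t`, so
`R (T^t b) = σ.A (D (prev b)) (D b) (D (next b)) t`.
* Rare: `{t | t < r b ∧ R (T^t b) ≠ 1} = {t | t < r b ∧ σ.A .. t ≠ 1}`; `σ.rare`.
* First part of `Trap`: `b ∈ B`, `p ∈ Z b`; `σ.disc` with `a = D (prev (prev b))`, `b = D (prev b)`, `c = D b`,
  `d = D (next b)` gives `z ∈ σ.Q (D (prev b)) (D b) (D (next b)) = Z (next b)` (since `prev (next b) = b`,
  `next b = T^(r b) b`).  The maps agree: for `t < r b` the map `orb T G b t = fun y => R (T^t b) • f (π (T^t b)) y`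
  is `kick (σ.A ..) (fun t => f ((D b).1.2 t)) t`; use `cp_congr`.
* Second part: `σ.birth` with `D (prev b)`, `D b`, `D (next b)`; a point of `V (T^t b)` is `R (T^t b) • v` with
  `v ∈ W (π (T^t b)) = W ((D b).1.2 t)`.  Again `cp_congr` (indices `t+1+i < r b`).
-/

set_option autoImplicit false

namespace Pool.Agent.H56.CF

open Pool.Agent.H84.UC

/-- the block which starts at `x` -/
private def fbD {X ι : Type*} (N : ℕ) (T : X → X) (π : X → ι) (r : X → ℕ) (x : X) :
    {b : ℕ × (ℕ → ι) // N ≤ b.1} :=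
  ⟨(max (r x) N, fun t => if t < r x then π (T^[t] x) else π x), le_max_right _ _⟩

private theorem fbD_lc {X ι : Type*} [TopologicalSpace X] (N : ℕ) (T : X ≃ₜ X) {π : X → ι}
    {r : X → ℕ} (hπ : IsLocallyConstant π) (hr : IsLocallyConstant r) :
    IsLocallyConstant (fbD N (⇑T) π r) := by
  rw [IsLocallyConstant.iff_eventually_eq]
  intro x
  have h1 := (IsLocallyConstant.iff_eventually_eq _).1 hr x
  have h2 : ∀ᶠ y in nhds x, ∀ t ∈ Finset.range (r x), π ((⇑T)^[t] y) = π ((⇑T)^[t] x) := by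
    rw [Filter.eventually_all_finset]
    intro t _
    have h3 : IsLocallyConstant (π ∘ (⇑T)^[t]) :=
      hπ.comp_continuous (T.continuous.iterate t)
    exact (IsLocallyConstant.iff_eventually_eq _).1 h3 x
  have h4 := (IsLocallyConstant.iff_eventually_eq _).1 hπ x
  filter_upwards [h1, h2, h4] with y e1 e2 e4
  unfold fbD
  refine Subtype.ext (Prod.ext ?_ ?_)
  · simp only [e1]
  · funext t
    simp only [e1, e4]
    by_cases ht : t < r x
    · rw [if_pos ht, if_pos ht, e2 t (Finset.mem_range.2 ht)]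
    · rw [if_neg ht, if_neg ht]

theorem fibre {X : Type*} [TopologicalSpace X] [CompactSpace X] [T2Space X]
    [TotallyDisconnectedSpace X] {S K ι : Type} [MetricSpace S] [Monoid K] [MulAction K S]
    {κ : Kick K S} {f : ι → S → S} {W : ι → Finset S} {ε ρ ρ' : ℝ} {M N : ℕ}
    (σ : Sel κ f W ε ρ ρ' M N) (hN : 1 ≤ N) (T : X ≃ₜ X)
    (hT : ∀ x : X, ∀ n : ℕ, 0 < n → n < N → (⇑T)^[n] x ≠ x) (π : X → ι)
    (hπ : IsLocallyConstant π) :
    ∃ (R : X → K) (B : Set X) (r : X → ℕ) (Z : X → Finset S), IsLocallyConstant R ∧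
      (∀ x, κ.nrm (R x) < ε) ∧ Base (⇑T) B r N (2 * N) ∧
      (∀ b ∈ B, M * {t : ℕ | t < r b ∧ R ((⇑T)^[t] b) ≠ 1}.ncard ≤ r b) ∧
      Trap (⇑T) (fun x y => R x • f (π x) y) (fun x => {u | ∃ v ∈ W (π x), u = R x • v})
        B r Z ρ ρ' := by
  obtain ⟨B, r, s, base, prev, next, hr, hs, hbase, hprev, hnext, hB, hnp, hbs⟩ :=
    towers T N hN hT
  set D : X → Blk N ι := fbD N (⇑T) π r with hD
  have hDlc : IsLocallyConstant D := fbD_lc N T hπ hr
  set R : X → K := fun x => σ.A (D (prev (base x))) (D (base x)) (D (next (base x))) (s x) with hR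
  set Z : X → Finset S := fun b => σ.Q (D (prev (prev b))) (D (prev b)) (D b) with hZ
  have hDlen : ∀ b ∈ B, (D b).1.1 = r b := fun b hb => max_eq_left (hB.1 b hb).1
  have hDw : ∀ b, ∀ t < r b, (D b).1.2 t = π ((⇑T)^[t] b) := fun b t ht => if_pos ht
  have hRb : ∀ b ∈ B, ∀ t < r b,
      R ((⇑T)^[t] b) = σ.A (D (prev b)) (D b) (D (next b)) t := by
    intro b hb t ht
    obtain ⟨h1, h2⟩ := hbs b hb t ht
    simp only [hR, h1, h2]
  have hZn : ∀ b ∈ B, Z ((⇑T)^[r b] b) = σ.Q (D (prev b)) (D b) (D (next b)) := by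
    intro b hb
    obtain ⟨h1, h2⟩ := hnp b hb
    rw [← h1]
    simp only [hZ, h2]
  have hcp : ∀ b ∈ B, ∀ i k : ℕ, i + k ≤ r b → ∀ y : S,
      cp (orb (⇑T) (fun x y => R x • f (π x) y) b) i k y =
        cp (kick (σ.A (D (prev b)) (D b) (D (next b))) (fun t => f ((D b).1.2 t))) i k y := by
    intro b hb i k hik y
    refine cp_congr (fun j hj => ?_) y
    have hlt : i + j < r b := by omega
    funext z
    simp only [orb, kick]
    rw [hRb b hb _ hlt, hDw b _ hlt]
  refine ⟨R, B, r, Z, ?_, fun x => σ.nrm_lt _ _ _ _, hB, ?_, ?_, ?_⟩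
  · rw [IsLocallyConstant.iff_eventually_eq]
    intro x
    have h1 := (IsLocallyConstant.iff_eventually_eq _).1
      (hDlc.comp_continuous (hprev.comp hbase)) x
    have h2 := (IsLocallyConstant.iff_eventually_eq _).1 (hDlc.comp_continuous hbase) x
    have h3 := (IsLocallyConstant.iff_eventually_eq _).1
      (hDlc.comp_continuous (hnext.comp hbase)) x
    have h4 := (IsLocallyConstant.iff_eventually_eq _).1 hs x
    filter_upwards [h1, h2, h3, h4] with y e1 e2 e3 e4
    simp only [Function.comp_apply] at e1 e2 e3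
    simp only [hR, e1, e2, e3, e4]
  · intro b hb
    have h1 := σ.rare (D (prev b)) (D b) (D (next b))
    rw [hDlen b hb] at h1
    have h2 : {t : ℕ | t < r b ∧ R ((⇑T)^[t] b) ≠ 1} =
        {t : ℕ | t < r b ∧ σ.A (D (prev b)) (D b) (D (next b)) t ≠ 1} := by
      ext t
      simp only [Set.mem_setOf_eq]
      constructor
      · rintro ⟨ht, h⟩
        rw [hRb b hb t ht] at h
        exact ⟨ht, h⟩
      · rintro ⟨ht, h⟩
        refine ⟨ht, ?_⟩
        rw [hRb b hb t ht]
        exact h
    rw [h2]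
    exact h1
  · intro b hb q hq
    obtain ⟨z, hz, hd⟩ := σ.disc (D (prev (prev b))) (D (prev b)) (D b) (D (next b)) q hq
    refine ⟨z, ?_, fun y hy => ?_⟩
    · rw [hZn b hb]
      exact hz
    · have h1 := hd y hy
      rw [hDlen b hb] at h1
      rw [hcp b hb 0 (r b) (by omega)]
      exact h1
  · intro b hb t ht v hv
    obtain ⟨w, hw, rfl⟩ := hv
    rw [← hDw b t ht] at hw
    obtain ⟨z, hz, hd⟩ := σ.birth (D (prev b)) (D b) (D (next b)) t
      (by rw [hDlen b hb]; exact ht) w hw
    refine ⟨z, ?_, ?_⟩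
    · rw [hZn b hb]
      exact hz
    · rw [hDlen b hb] at hd
      rw [hcp b hb (t + 1) (r b - (t + 1)) (by omega), hRb b hb t ht]
      exact hd

end Pool.Agent.H56.CF
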