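import Mathlib
import Pool.Agent.H84.UC.Sphere
import Pool.Agent.H84.UC.RatU

/-!
# MODULE ND: nondegenerate pairs form an open set

`ND d` = pairs of coefficient vectors `(a, b)` with `pv a`, `pv b` coprime and `max` of the degrees `= d`.
`ruH a v = Σ a_i v₁^i v₂^(d-i)` (`H84/UC/RatU`), `hom (pv a) d v = ruH a v` (`hom_pv`), `rat_hom`, `ruSig` = the compact
sphere of unit vectors (`ruSig_compact`), `ruH_continuous`, `exists_unit` (`H84/UC/Sphere`).

PROOF of `nd_iff`.  `→`: `rat_hom` (with `dg (pv a) (pv b) = d`, `hom_pv`).  `←`: `v = (1, 0)`: `ruH a v = a_d`,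
`ruH b v = b_d`, so one of the two top coefficients is not `0` and the degree is `d` (`pv_natDegree`,
`pv_coeff`; `Polynomial.le_natDegree_of_ne_zero`).  Coprime: over `ℂ`, if not coprime there is a common
root `z` (`Polynomial.isCoprime_iff_aeval_ne_zero_of_isAlgClosed` or a root of the gcd); with
`v = (z, 1)` both forms vanish (`ruH a (z, 1) = (pv a).eval z`; `hom_eq`).

PROOF of `nd_open` (`1 ≤ d` or any `d`): the set `{(p, v) | ruH p.1 v = 0 ∧ ruH p.2 v = 0}` is closed; for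
`p₀ ∈ ND d` the compact set `{p₀} × ruSig` misses it, so by the tube lemma (`generalized_tube_lemma`) there
is a neighbourhood `U` of `p₀` with `U × ruSig` disjoint from it; `nd_iff` for unit vectors suffices: a
nonzero `v` is `t • (unit vector)` and `ruH a (t • v) = t^d ruH a v`.  (It may be simplest to state and
prove `nd_iff` with unit vectors `v ∈ ruSig` on the right, using normalised vectors in `←`.)
-/

set_option autoImplicit false

open Filter Topology OnePoint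
open Pool.Agent.H44.Fatou

namespace Pool.Agent.H56.CF

open Pool.Agent.H84.UC

/-- the nondegenerate pairs: coprime and of degree exactly `d` -/
def ND (d : ℕ) : Set ((Fin (d + 1) → ℂ) × (Fin (d + 1) → ℂ)) :=
  {p | IsCoprime (pv p.1) (pv p.2) ∧ max (pv p.1).natDegree (pv p.2).natDegree = d}

theorem ruSig_ne {v : ℂ × ℂ} (hv : v ∈ ruSig) : v ≠ 0 := by
  rintro rfl
  have hv' : ‖(0 : ℂ × ℂ).1‖ ^ 2 + ‖(0 : ℂ × ℂ).2‖ ^ 2 = 1 := hv
  simp at hv'

theorem nd_rat {d : ℕ} {p : (Fin (d + 1) → ℂ) × (Fin (d + 1) → ℂ)} (h : p ∈ ND d) {v : ℂ × ℂ}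
    (hv : v ≠ 0) : (ruH p.1 v ≠ 0 ∨ ruH p.2 v ≠ 0) ∧
      rat (pv p.1) (pv p.2) (pt v.1 v.2) = pt (ruH p.1 v) (ruH p.2 v) := by
  have h1 := rat_hom h.1 hv
  have h2 : dg (pv p.1) (pv p.2) = d := h.2
  rw [h2, hom_pv, hom_pv] at h1
  exact h1

theorem nd_iff {d : ℕ} (p : (Fin (d + 1) → ℂ) × (Fin (d + 1) → ℂ)) :
    p ∈ ND d ↔ ∀ v ∈ ruSig, ruH p.1 v ≠ 0 ∨ ruH p.2 v ≠ 0 := by
  constructor
  · intro h v hv
    exact (nd_rat h (ruSig_ne hv)).1
  · intro h
    refine ⟨?_, ?_⟩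
    · rw [Polynomial.isCoprime_iff_aeval_ne_zero_of_isAlgClosed ℂ ℂ]
      intro z
      set n := Pool.Agent.H91.Fatou.nn z 1 with hn
      have hn0 : 0 < n := Pool.Agent.H91.Fatou.nn_pos (Or.inr one_ne_zero)
      set t : ℂ := ((n⁻¹ : ℝ) : ℂ) with ht
      have ht0 : t ≠ 0 := by
        rw [ht]
        exact_mod_cast (inv_pos.2 hn0).ne'
      have hsig : (z * t, t) ∈ ruSig := by
        show ‖z * t‖ ^ 2 + ‖t‖ ^ 2 = 1
        have e1 : ‖t‖ = n⁻¹ := by
          rw [ht, Complex.norm_real, Real.norm_eq_abs, abs_of_pos (inv_pos.2 hn0)]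
        have e2 : n ^ 2 = ‖z‖ ^ 2 + ‖(1 : ℂ)‖ ^ 2 := nn_sq _ _
        rw [norm_mul, e1, mul_pow, inv_pow, e2, norm_one]
        have e3 : (0 : ℝ) < ‖z‖ ^ 2 + 1 ^ 2 := by positivity
        field_simp
      have hev : ∀ (a : Fin (d + 1) → ℂ), ruH a (z * t, t) = (pv a).eval z * t ^ d := by
        intro a
        rw [← hom_pv, Pool.Agent.H76.Fatou.hom_eq (pv_natDegree a) (by exact ht0)]
        simp only
        rw [mul_div_cancel_right₀ _ ht0]
      have h1 := h _ hsig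
      rw [hev, hev] at h1
      rw [Polynomial.coe_aeval_eq_eval]
      rcases h1 with h1 | h1
      · left; exact left_ne_zero_of_mul h1
      · right; exact left_ne_zero_of_mul h1
    · have hsig : ((1 : ℂ), (0 : ℂ)) ∈ ruSig := by
        show ‖(1 : ℂ)‖ ^ 2 + ‖(0 : ℂ)‖ ^ 2 = 1
        simp
      have h1 := h _ hsig
      have hev : ∀ (a : Fin (d + 1) → ℂ), ruH a ((1 : ℂ), (0 : ℂ)) = (pv a).coeff d := by
        intro a
        rw [← hom_pv, Pool.Agent.H76.Fatou.hom_zero rfl]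
        simp
      rw [hev, hev] at h1
      refine le_antisymm (max_le (pv_natDegree _) (pv_natDegree _)) ?_
      rcases h1 with h1 | h1
      · exact le_max_of_le_left (Polynomial.le_natDegree_of_ne_zero h1)
      · exact le_max_of_le_right (Polynomial.le_natDegree_of_ne_zero h1)

theorem ruH_pair_continuous (d : ℕ) :
    (Continuous fun q : ((Fin (d + 1) → ℂ) × (Fin (d + 1) → ℂ)) × (ℂ × ℂ) => ruH q.1.1 q.2) ∧
    (Continuous fun q : ((Fin (d + 1) → ℂ) × (Fin (d + 1) → ℂ)) × (ℂ × ℂ) => ruH q.1.2 q.2) :=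
  ⟨(ruH_continuous d).comp (by fun_prop :
      Continuous fun q : ((Fin (d + 1) → ℂ) × (Fin (d + 1) → ℂ)) × (ℂ × ℂ) => (q.1.1, q.2)),
    (ruH_continuous d).comp (by fun_prop :
      Continuous fun q : ((Fin (d + 1) → ℂ) × (Fin (d + 1) → ℂ)) × (ℂ × ℂ) => (q.1.2, q.2))⟩

theorem nd_open (d : ℕ) : IsOpen (ND d) := by
  rw [isOpen_iff_mem_nhds]
  intro p hp
  have hopen : IsOpen {q : ((Fin (d + 1) → ℂ) × (Fin (d + 1) → ℂ)) × (ℂ × ℂ) |
      ruH q.1.1 q.2 ≠ 0 ∨ ruH q.1.2 q.2 ≠ 0} := by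
    have h1 := (ruH_pair_continuous d).1
    have h2 := (ruH_pair_continuous d).2
    exact (isOpen_ne_fun h1 continuous_const).union (isOpen_ne_fun h2 continuous_const)
  obtain ⟨u, v, hu, _, hpu, hv, huv⟩ := generalized_tube_lemma (isCompact_singleton (x := p))
    ruSig_compact hopen (by
      rintro ⟨q, w⟩ ⟨hq, hw⟩
      rw [Set.mem_singleton_iff] at hq
      simp only at hq hw
      subst hq
      exact (nd_iff q).1 hp w hw)
  refine Filter.mem_of_superset (hu.mem_nhds (hpu rfl)) ?_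
  intro q hq
  rw [nd_iff]
  intro w hw
  exact huv (Set.mk_mem_prod hq (hv hw))

end Pool.Agent.H56.CF
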