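import Mathlib
import Pool.Agent.H56.CF.ND

/-!
# MODULE JCONT: joint continuity of the rational maps

PROOF.  The map `ND d × ruSig → ND d × Sph`, `(p, v) ↦ (p, pt v)`, is a quotient map: it is
continuous, surjective (`exists_unit`) and closed, being the product of the identity with the map
`ruSig → Sph` which is continuous from a compact space to a Hausdorff space
(`IsProperMap`: `IsProperMap.prodMap`, `Continuous.isProperMap`, `IsProperMap.isClosedMap`,
`IsClosedMap.isQuotientMap`).  The composition with it is `(p, v) ↦ pt (ruH p.1 v) (ruH p.2 v)`, which is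
continuous because `(ruH p.1 v, ruH p.2 v) ≠ 0` (`tendsto_pt` in `H44/Fatou/Basic`);
alternatively a direct proof with sequences or with `dist_unit`.
(`ruH`, `ruH_continuous`, `ruSig`, `ruSig_compact`, `hom_pv`, `rat_hom`: `H84/UC/RatU`; `nd_iff`: imported, may be used.)
-/

set_option autoImplicit false

open Filter Topology OnePoint
open Pool.Agent.H44.Fatou

namespace Pool.Agent.H56.CF

open Pool.Agent.H84.UC

theorem rat_jcont (d : ℕ) :
    Continuous fun q : ND d × Sph => rat (pv q.1.1.1) (pv q.1.1.2) q.2 := by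
  haveI : CompactSpace ruSig := isCompact_iff_compactSpace.1 ruSig_compact
  set τ : ruSig → Sph := fun v => pt v.1.1 v.1.2 with hτ
  have hτc : Continuous τ := by
    rw [continuous_iff_continuousAt]
    intro v
    exact tendsto_pt ((continuous_fst.comp continuous_subtype_val).tendsto v)
      ((continuous_snd.comp continuous_subtype_val).tendsto v)
      (Pool.Agent.H76.Fatou.ne_zero_iff.1 (ruSig_ne v.2))
  have hprop : IsProperMap (Prod.map (id : ND d → ND d) τ) :=
    isProperMap_id.prodMap hτc.isProperMap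
  have hsurj : Function.Surjective (Prod.map (id : ND d → ND d) τ) := by
    rintro ⟨p, x⟩
    obtain ⟨v, hv, hvx⟩ := exists_unit x
    exact ⟨(p, ⟨v, hv⟩), by simp [hτ, hvx]⟩
  have hq : IsQuotientMap (Prod.map (id : ND d → ND d) τ) :=
    hprop.isClosedMap.isQuotientMap hprop.continuous hsurj
  rw [hq.continuous_iff]
  have h1 : ((fun q : ND d × Sph => rat (pv q.1.1.1) (pv q.1.1.2) q.2) ∘
      (Prod.map (id : ND d → ND d) τ)) =
      fun q : ND d × ruSig => (pt (ruH q.1.1.1 q.2.1) (ruH q.1.1.2 q.2.1) : Sph) := by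
    funext q
    exact (nd_rat q.1.2 (ruSig_ne q.2.2)).2
  rw [h1, continuous_iff_continuousAt]
  intro q
  have h2 : Continuous fun q : ND d × ruSig => (((q.1 : (Fin (d + 1) → ℂ) × (Fin (d + 1) → ℂ)),
      (q.2 : ℂ × ℂ)) : ((Fin (d + 1) → ℂ) × (Fin (d + 1) → ℂ)) × (ℂ × ℂ)) := by
    fun_prop
  exact tendsto_pt (((ruH_pair_continuous d).1.comp h2).tendsto q)
    (((ruH_pair_continuous d).2.comp h2).tendsto q) (nd_rat q.1.2 (ruSig_ne q.2.2)).1

end Pool.Agent.H56.CF
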