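import Mathlib

/-!
# Locally constant selections on compact zero dimensional spaces
-/

set_option autoImplicit false

namespace Pool.Agent.H56.CF

theorem isLocallyConstant_ite {X Y : Type*} [TopologicalSpace X] {V : Set X} (hV : IsClopen V)
    {f g : X → Y} (hf : IsLocallyConstant f) (hg : IsLocallyConstant g)
    [∀ x, Decidable (x ∈ V)] : IsLocallyConstant (fun x => if x ∈ V then f x else g x) := by
  rw [IsLocallyConstant.iff_eventually_eq] at hf hg ⊢
  intro x
  by_cases hx : x ∈ V
  · filter_upwards [hf x, hV.isOpen.mem_nhds hx] with y hy hyV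
    rw [if_pos hx, if_pos hyV, hy]
  · filter_upwards [hg x, hV.compl.isOpen.mem_nhds hx] with y hy hyV
    rw [if_neg hx, if_neg hyV, hy]

/-- If every point `x` of a compact zero dimensional space has an open neighbourhood `U x`, then there
is a locally constant map `π` with `x ∈ U (π x)`. -/
theorem zd_select {X : Type*} [TopologicalSpace X] [CompactSpace X] [T2Space X]
    [TotallyDisconnectedSpace X] (U : X → Set X) (hU : ∀ x, IsOpen (U x)) (hx : ∀ x, x ∈ U x) :
    ∃ π : X → X, IsLocallyConstant π ∧ ∀ x, x ∈ U (π x) := by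
  classical
  have h1 : ∀ x, ∃ V : Set X, IsClopen V ∧ x ∈ V ∧ V ⊆ U x := fun x =>
    compact_exists_isClopen_in_isOpen (hU x) (hx x)
  choose V hV1 hV2 hV3 using h1
  obtain ⟨t, ht⟩ := CompactSpace.elim_nhds_subcover V (fun x => (hV1 x).isOpen.mem_nhds (hV2 x))
  have key : ∀ t : Finset X, (∃ x : X, True) → ∃ π : X → X, IsLocallyConstant π ∧
      ∀ x ∈ ⋃ y ∈ t, V y, x ∈ U (π x) := by
    rintro t ⟨x₀, -⟩
    induction t using Finset.induction_on with
    | empty => exact ⟨fun _ => x₀, IsLocallyConstant.const x₀, fun x hx => by simp at hx⟩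
    | insert a t _ ih =>
      obtain ⟨π, h1, h2⟩ := ih
      refine ⟨fun x => if x ∈ V a then a else π x,
        isLocallyConstant_ite (hV1 a) (IsLocallyConstant.const a) h1, fun x hx => ?_⟩
      by_cases hxa : x ∈ V a
      · simp only [if_pos hxa]
        exact hV3 a hxa
      · simp only [if_neg hxa]
        apply h2
        rw [Set.mem_iUnion₂] at hx ⊢
        obtain ⟨y, hy, hxy⟩ := hx
        rw [Finset.mem_insert] at hy
        rcases hy with rfl | hy
        · exact absurd hxy hxa
        · exact ⟨y, hy, hxy⟩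
  by_cases hne : Nonempty X
  · obtain ⟨x₀⟩ := hne
    obtain ⟨π, h1, h2⟩ := key t ⟨x₀, trivial⟩
    refine ⟨π, h1, fun x => h2 x ?_⟩
    have : x ∈ (⊤ : Set X) := trivial
    rw [← ht] at this
    exact this
  · refine ⟨fun x => x, ?_, fun x => hx x⟩
    rw [IsLocallyConstant.iff_eventually_eq]
    exact fun x => absurd ⟨x⟩ hne

end Pool.Agent.H56.CF
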