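import Mathlib
import Pool.Agent.H56.CF.ND
import Pool.Agent.H56.CF.ZDSel
import Pool.Agent.H44.Fatou.PowDense

/-!
# MODULE NET: continuous families of pairs are close to families in one compact set of nondegenerate pairs

Proof.  `coprime_pert` (used in `H84/UC/FinalNet.lean`, `main_all`; find the file which contains it with grep and
import it if necessary) gives for every `v` a nondegenerate pair `cv v ∈ ND d` with `‖cv v - v‖ < ε/4` or so (see
`main_all`, lines `hex`, `cv`, `hpv1`, `hpv2`; `pv_of_coeff` is in `FinalNet`, reprove it or import).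
The closed unit ball `B` is compact, so there is a finite set `t` with
`∀ v ∈ B, ∃ x ∈ t, dist v x < ε/4`; put `nt v := cv x` for such an `x`: finitely many values in `ND d`,
`‖nt v - v‖ ≤ ε/2` for `v ∈ B`.
`K` is compact and contained in the open set `ND d` (`nd_open`, imported, may be used): there is `δ₀ > 0` such
that `𝒦₀ = cthickening δ₀ K ⊆ ND d` (`IsCompact.exists_cthickening_subset_open`), and `𝒦₀` is compact
(closed and bounded: `IsCompact.cthickening`).  `𝒦 = 𝒦₀ ∪ (cv '' t)` is compact.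
Let `p : X → _` be continuous with `‖p x‖ ≤ 1`.  For `x₀ : X` put
`U x₀ = {x | dist (p x) (p x₀) < δ₀}` if `p x₀ ∈ K`, and
`U x₀ = {x | dist (p x) (p x₀) < ε/4 ∧ p x ∉ K}` if `p x₀ ∉ K`; open and `x₀ ∈ U x₀`.
`zd_select` (proved, `H56/CF/ZDSel`) gives a locally constant `π : X → X` with `x ∈ U (π x)`.
`q x = if p (π x) ∈ K then p x else nt (p (π x))`.  It is continuous: near `x₀` `π` is constant, so `q` agrees
near `x₀` with `p` or with a constant (`continuous_iff_continuousAt`, `ContinuousAt.congr`).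
If `p (π x) ∈ K` then `dist (p x) K ≤ dist (p x) (p (π x)) < δ₀`, so `q x = p x ∈ 𝒦₀`.  Otherwise
`q x ∈ cv '' t`, `‖q x - p x‖ ≤ ‖nt (p (π x)) - p (π x)‖ + ‖p (π x) - p x‖ ≤ ε/2 + ε/4`, and `p x ∉ K`.
-/

set_option autoImplicit false

open Filter Topology OnePoint
open Pool.Agent.H44.Fatou

namespace Pool.Agent.H56.CF

open Pool.Agent.H84.UC

private theorem net_pv {d : ℕ} {P : Polynomial ℂ} (hP : P.natDegree ≤ d) :
    pv (fun i : Fin (d + 1) => P.coeff i) = P := by
  ext i
  rw [pv_coeff]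
  split_ifs with h
  · rfl
  · exact (Polynomial.coeff_eq_zero_of_natDegree_lt (by omega)).symm

theorem net {d : ℕ} (hd : 2 ≤ d) {K : Set ((Fin (d + 1) → ℂ) × (Fin (d + 1) → ℂ))}
    (hK : IsCompact K) (hKd : K ⊆ ND d) {ε : ℝ} (hε : 0 < ε) :
    ∃ 𝒦 : Set ((Fin (d + 1) → ℂ) × (Fin (d + 1) → ℂ)), IsCompact 𝒦 ∧ 𝒦 ⊆ ND d ∧
      ∀ {X : Type*} [TopologicalSpace X] [CompactSpace X] [T2Space X] [TotallyDisconnectedSpace X]
        (p : X → (Fin (d + 1) → ℂ) × (Fin (d + 1) → ℂ)), Continuous p → (∀ x, ‖p x‖ ≤ 1) →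
        ∃ q : X → (Fin (d + 1) → ℂ) × (Fin (d + 1) → ℂ), Continuous q ∧ (∀ x, q x ∈ 𝒦) ∧
          (∀ x, p x ∈ K → q x = p x) ∧ ∀ x, ‖q x - p x‖ ≤ ε := by
  classical
  have hε4 : 0 < ε / 4 := by positivity
  have hex : ∀ v : (Fin (d + 1) → ℂ) × (Fin (d + 1) → ℂ), ∃ w ∈ ND d, ‖w - v‖ ≤ ε / 4 := by
    intro v
    obtain ⟨P1, Q1, h1, h2, h3, h4⟩ :=
      coprime_pert (m := d) (by omega) (pv_natDegree v.1) (pv_natDegree v.2) hε4
    refine ⟨(fun i => P1.coeff i, fun i => Q1.coeff i), ?_, ?_⟩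
    · show IsCoprime (pv _) (pv _) ∧ max (pv _).natDegree (pv _).natDegree = d
      rw [net_pv ((le_max_left _ _).trans h2.le), net_pv ((le_max_right _ _).trans h2.le)]
      exact ⟨h1, h2⟩
    · rw [Prod.norm_def, max_le_iff]
      constructor
      · rw [pi_norm_le_iff_of_nonneg hε4.le]
        intro i
        have h5 := (h3 i).le
        rw [pv_coeff, dif_pos i.2] at h5
        exact h5
      · rw [pi_norm_le_iff_of_nonneg hε4.le]
        intro i
        have h5 := (h4 i).le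
        rw [pv_coeff, dif_pos i.2] at h5
        exact h5
  choose cv hcv1 hcv2 using hex
  obtain ⟨δ₀, hδ₀, hth⟩ := hK.exists_cthickening_subset_open (nd_open d) hKd
  obtain ⟨t, htB, ht⟩ := (isCompact_closedBall (0 : (Fin (d + 1) → ℂ) × (Fin (d + 1) → ℂ)) 1).elim_nhds_subcover
    (fun v => Metric.ball v (ε / 4)) (fun v _ => Metric.ball_mem_nhds v hε4)
  have hnt : ∀ v : (Fin (d + 1) → ℂ) × (Fin (d + 1) → ℂ), ‖v‖ ≤ 1 →
      ∃ w ∈ cv '' (t : Set ((Fin (d + 1) → ℂ) × (Fin (d + 1) → ℂ))), ‖w - v‖ ≤ ε / 2 := by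
    intro v hv
    have hvB : v ∈ Metric.closedBall (0 : (Fin (d + 1) → ℂ) × (Fin (d + 1) → ℂ)) 1 := by
      rw [mem_closedBall_zero_iff]; exact hv
    have h1 := ht hvB
    rw [Set.mem_iUnion₂] at h1
    obtain ⟨x, hx, hxv⟩ := h1
    refine ⟨cv x, ⟨x, hx, rfl⟩, ?_⟩
    have h2 : ‖x - v‖ ≤ ε / 4 := by
      rw [Metric.mem_ball, dist_eq_norm] at hxv
      rw [norm_sub_rev]
      exact hxv.le
    calc ‖cv x - v‖ = ‖(cv x - x) + (x - v)‖ := by rw [sub_add_sub_cancel]
      _ ≤ ‖cv x - x‖ + ‖x - v‖ := norm_add_le _ _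
      _ ≤ ε / 4 + ε / 4 := add_le_add (hcv2 x) h2
      _ = ε / 2 := by ring
  have hnt' : ∀ v : (Fin (d + 1) → ℂ) × (Fin (d + 1) → ℂ), ∃ w, ‖v‖ ≤ 1 →
      w ∈ cv '' (t : Set ((Fin (d + 1) → ℂ) × (Fin (d + 1) → ℂ))) ∧ ‖w - v‖ ≤ ε / 2 := by
    intro v
    by_cases hv : ‖v‖ ≤ 1
    · obtain ⟨w, h1, h2⟩ := hnt v hv
      exact ⟨w, fun _ => ⟨h1, h2⟩⟩
    · exact ⟨0, fun h => absurd h hv⟩
  choose nt hnt1 using hnt'
  refine ⟨Metric.cthickening δ₀ K ∪ cv '' (t : Set ((Fin (d + 1) → ℂ) × (Fin (d + 1) → ℂ))),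
    hK.cthickening.union ((t.finite_toSet.image cv).isCompact), ?_, ?_⟩
  · apply Set.union_subset hth
    rintro _ ⟨x, _, rfl⟩
    exact hcv1 x
  · intro X _ _ _ _ p hp hp1
    have hKc : IsClosed K := hK.isClosed
    obtain ⟨π, hπ1, hπ2⟩ := zd_select (fun x₀ : X => if p x₀ ∈ K then {x | dist (p x) (p x₀) < δ₀} else
        {x | dist (p x) (p x₀) < ε / 4 ∧ p x ∉ K}) (by
      intro x₀
      split_ifs with h
      · exact isOpen_lt (hp.dist continuous_const) continuous_const
      · exact (isOpen_lt (hp.dist continuous_const) continuous_const).inter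
          (hKc.isOpen_compl.preimage hp)) (by
      intro x
      split_ifs with h
      · simpa using hδ₀
      · exact ⟨by simpa using hε4, h⟩)
    refine ⟨fun x => if p (π x) ∈ K then p x else nt (p (π x)), ?_, ?_, ?_, ?_⟩
    · rw [continuous_iff_continuousAt]
      intro x₀
      have hev := (IsLocallyConstant.iff_eventually_eq π).1 hπ1 x₀
      by_cases h : p (π x₀) ∈ K
      · refine hp.continuousAt.congr ?_
        filter_upwards [hev] with y hy
        rw [hy, if_pos h]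
      · refine (continuousAt_const (y := nt (p (π x₀)))).congr ?_
        filter_upwards [hev] with y hy
        rw [hy, if_neg h]
    · intro x
      have h1 := hπ2 x
      dsimp only at h1 ⊢
      by_cases h : p (π x) ∈ K
      · rw [if_pos h] at h1 ⊢
        left
        exact Metric.mem_cthickening_of_dist_le (p x) (p (π x)) δ₀ K h (le_of_lt h1)
      · rw [if_neg h] at h1 ⊢
        right
        exact (hnt1 _ (hp1 _)).1
    · intro x hx
      have h1 := hπ2 x
      dsimp only at h1 ⊢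
      by_cases h : p (π x) ∈ K
      · rw [if_pos h]
      · rw [if_neg h] at h1
        exact absurd hx h1.2
    · intro x
      have h1 := hπ2 x
      dsimp only at h1 ⊢
      by_cases h : p (π x) ∈ K
      · rw [if_pos h, sub_self, norm_zero]
        exact hε.le
      · rw [if_neg h] at h1 ⊢
        have h2 := (hnt1 _ (hp1 (π x))).2
        have h3 : ‖p (π x) - p x‖ ≤ ε / 4 := by
          have := h1.1.le
          rw [dist_eq_norm] at this
          rw [norm_sub_rev]
          exact this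
        calc ‖nt (p (π x)) - p x‖ = ‖(nt (p (π x)) - p (π x)) + (p (π x) - p x)‖ := by
              rw [sub_add_sub_cancel]
          _ ≤ ‖nt (p (π x)) - p (π x)‖ + ‖p (π x) - p x‖ := norm_add_le _ _
          _ ≤ ε / 2 + ε / 4 := add_le_add h2 h3
          _ ≤ ε := by linarith

end Pool.Agent.H56.CF
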