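import Mathlib
import Pool.Agent.H56.CF.Defs

/-!
# Rare kicks along orbits
-/

set_option autoImplicit false

namespace Pool.Agent.H56.CF

theorem rare_base {X : Type*} {T : X → X} {B : Set X} {r : X → ℕ} {N N' : ℕ} (hN : 1 ≤ N)
    (hB : Base T B r N N') (P : X → Prop) (M : ℕ)
    (h : ∀ b ∈ B, M * {t : ℕ | t < r b ∧ P (T^[t] b)}.ncard ≤ r b) :
    ∀ (m : ℕ), ∀ b ∈ B, M * {t : ℕ | t < m ∧ P (T^[t] b)}.ncard ≤ m + N' := by
  intro m
  induction m using Nat.strong_induction_on with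
  | _ m ih =>
    intro b hb
    have hfin : ∀ (m : ℕ) (Q : ℕ → Prop), {t : ℕ | t < m ∧ Q t}.Finite := fun m Q =>
      (Set.finite_lt_nat m).subset (fun t ht => ht.1)
    obtain ⟨h1, h2, h3⟩ := hB.1 b hb
    by_cases hm : m ≤ r b
    · have h4 : {t : ℕ | t < m ∧ P (T^[t] b)}.ncard ≤ {t : ℕ | t < r b ∧ P (T^[t] b)}.ncard :=
        Set.ncard_le_ncard (fun t ht => ⟨lt_of_lt_of_le ht.1 hm, ht.2⟩) (hfin _ _)
      have h5 := Nat.mul_le_mul_left M h4
      have h6 := h b hb
      omega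
    · push Not at hm
      have h4 : {t : ℕ | t < m ∧ P (T^[t] b)} ⊆ {t : ℕ | t < r b ∧ P (T^[t] b)} ∪
          (fun t => t + r b) '' {t : ℕ | t < m - r b ∧ P (T^[t] (T^[r b] b))} := by
        intro t ht
        by_cases h5 : t < r b
        · exact Or.inl ⟨h5, ht.2⟩
        · right
          have h7 := ht.1
          refine ⟨t - r b, ⟨by omega, ?_⟩, by show t - r b + r b = t; omega⟩
          rw [← Function.iterate_add_apply, Nat.sub_add_cancel (by omega)]
          exact ht.2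
      have h5 : {t : ℕ | t < m ∧ P (T^[t] b)}.ncard ≤ {t : ℕ | t < r b ∧ P (T^[t] b)}.ncard +
          {t : ℕ | t < m - r b ∧ P (T^[t] (T^[r b] b))}.ncard := by
        refine (Set.ncard_le_ncard h4 ((hfin _ _).union ((hfin _ _).image _))).trans ?_
        refine (Set.ncard_union_le _ _).trans (Nat.add_le_add_left ?_ _)
        exact Set.ncard_image_le (hfin _ _)
      have h6 := ih (m - r b) (by omega) _ h3
      have h7 := h b hb
      calc M * {t : ℕ | t < m ∧ P (T^[t] b)}.ncard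
          ≤ M * ({t : ℕ | t < r b ∧ P (T^[t] b)}.ncard +
          {t : ℕ | t < m - r b ∧ P (T^[t] (T^[r b] b))}.ncard) := Nat.mul_le_mul_left M h5
        _ = M * {t : ℕ | t < r b ∧ P (T^[t] b)}.ncard +
          M * {t : ℕ | t < m - r b ∧ P (T^[t] (T^[r b] b))}.ncard := Nat.mul_add _ _ _
        _ ≤ m + N' := by omega

theorem rare_orbit {X : Type*} {T : X → X} {B : Set X} {r : X → ℕ} {N N' : ℕ} (hN : 1 ≤ N)
    (hB : Base T B r N N') (P : X → Prop) (M : ℕ)
    (h : ∀ b ∈ B, M * {t : ℕ | t < r b ∧ P (T^[t] b)}.ncard ≤ r b) (x : X) (n : ℕ) :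
    M * {t : ℕ | t < n ∧ P (T^[t] x)}.ncard ≤ n + 2 * N' := by
  obtain ⟨b, hb, t, ht, rfl⟩ := hB.2 x
  have h1 := rare_base hN hB P M h (t + n) b hb
  have h2 : {s : ℕ | s < n ∧ P (T^[s] (T^[t] b))}.ncard ≤
      {s : ℕ | s < t + n ∧ P (T^[s] b)}.ncard := by
    refine Set.ncard_le_ncard_of_injOn (fun s => s + t) ?_ ?_
      ((Set.finite_lt_nat (t + n)).subset (fun t ht => ht.1))
    · rintro s ⟨h3, h4⟩
      refine ⟨by show s + t < t + n; omega, ?_⟩
      rwa [← Function.iterate_add_apply] at h4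
    · intro a _ b _ hab
      exact Nat.add_right_cancel hab
  have h3 := Nat.mul_le_mul_left M h2
  have h4 := (hB.1 b hb).2.1
  omega

theorem rare_periodic {X : Type*} {T : X → X} (P : X → Prop) (M C n : ℕ) (x : X)
    (hx : T^[n] x = x) (h : ∀ m : ℕ, M * {t : ℕ | t < m ∧ P (T^[t] x)}.ncard ≤ m + C) :
    M * {t : ℕ | t < n ∧ P (T^[t] x)}.ncard ≤ n := by
  have hfin : ∀ (m : ℕ), {t : ℕ | t < m ∧ P (T^[t] x)}.Finite := fun m =>
    (Set.finite_lt_nat m).subset (fun t ht => ht.1)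
  have hper : ∀ k t, T^[k * n + t] x = T^[t] x := by
    intro k t
    rw [Nat.add_comm, Function.iterate_add_apply, Nat.mul_comm, Function.iterate_mul,
      Function.iterate_fixed hx]
  have hk : ∀ k : ℕ, k * {t : ℕ | t < n ∧ P (T^[t] x)}.ncard ≤
      {t : ℕ | t < k * n ∧ P (T^[t] x)}.ncard := by
    intro k
    induction k with
    | zero => simp
    | succ k ih =>
      have h1 : {t : ℕ | t < k * n ∧ P (T^[t] x)} ∪
          (fun t => k * n + t) '' {t : ℕ | t < n ∧ P (T^[t] x)} ⊆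
          {t : ℕ | t < (k + 1) * n ∧ P (T^[t] x)} := by
        rintro t (⟨h1, h2⟩ | ⟨s, ⟨h1, h2⟩, rfl⟩)
        · exact ⟨by rw [Nat.succ_mul]; omega, h2⟩
        · refine ⟨by show k * n + s < (k + 1) * n; rw [Nat.succ_mul]; omega, ?_⟩
          show P (T^[k * n + s] x)
          rw [hper]
          exact h2
      have h2 : Disjoint {t : ℕ | t < k * n ∧ P (T^[t] x)}
          ((fun t => k * n + t) '' {t : ℕ | t < n ∧ P (T^[t] x)}) := by
        rw [Set.disjoint_left]
        rintro t ⟨h1, -⟩ ⟨s, -, rfl⟩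
        have h1' : k * n + s < k * n := h1
        omega
      have h3 := Set.ncard_le_ncard h1 (hfin _)
      rw [Set.ncard_union_eq h2 (hfin _) ((hfin _).image _),
        Set.ncard_image_of_injective _ (fun a b hab => Nat.add_left_cancel hab)] at h3
      rw [Nat.succ_mul]
      omega
  by_contra hcon
  push Not at hcon
  have h1 := h ((C + 1) * n)
  have h2 := Nat.mul_le_mul_left M (hk (C + 1))
  have h3 : M * ((C + 1) * {t : ℕ | t < n ∧ P (T^[t] x)}.ncard) =
      (C + 1) * (M * {t : ℕ | t < n ∧ P (T^[t] x)}.ncard) := by ring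
  rw [h3] at h2
  have h4 : (C + 1) * (n + 1) ≤ (C + 1) * (M * {t : ℕ | t < n ∧ P (T^[t] x)}.ncard) :=
    Nat.mul_le_mul_left _ hcon
  have h5 : (C + 1) * (n + 1) = (C + 1) * n + (C + 1) := by ring
  omega

end Pool.Agent.H56.CF
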