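import Mathlib
import Pool.Agent.H56.CF.ND
import Pool.Agent.H84.UC.RotInv
import Pool.Agent.H35.NA.Final

/-!
# Rotations act on the coefficient pairs
-/

set_option autoImplicit false

open Filter Topology OnePoint Polynomial
open scoped ComplexConjugate
open Pool.Agent.H44.Fatou
open Pool.Agent.H76.Fatou (Lift)
open Pool.Agent.H35.NA (numR denR coprime_rot dg_rot rot_rat)

namespace Pool.Agent.H56.CF

open Pool.Agent.H84.UC

/-- the map given by the pair `p` -/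
noncomputable def rm {d : ℕ} (p : (Fin (d + 1) → ℂ) × (Fin (d + 1) → ℂ)) : Sph → Sph :=
  rat (pv p.1) (pv p.2)

theorem rm_lift {d : ℕ} {p : (Fin (d + 1) → ℂ) × (Fin (d + 1) → ℂ)} (hp : p ∈ ND d) :
    Lift (rm p) := Pool.Agent.H76.Fatou.lift_rat hp.1

/-- the coefficients of the rotated map -/
noncomputable def rotc {d : ℕ} (r : SU) (p : (Fin (d + 1) → ℂ) × (Fin (d + 1) → ℂ)) :
    (Fin (d + 1) → ℂ) × (Fin (d + 1) → ℂ) :=
  (fun i => r.a * p.1 i - conj r.b * p.2 i, fun i => r.b * p.1 i + conj r.a * p.2 i)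

theorem pv_rotc_fst {d : ℕ} (r : SU) (p : (Fin (d + 1) → ℂ) × (Fin (d + 1) → ℂ)) :
    pv (rotc r p).1 = numR r (pv p.1) (pv p.2) := by
  ext i
  unfold numR
  rw [coeff_sub, coeff_C_mul, coeff_C_mul, pv_coeff, pv_coeff, pv_coeff]
  split_ifs with h
  · rfl
  · simp

theorem pv_rotc_snd {d : ℕ} (r : SU) (p : (Fin (d + 1) → ℂ) × (Fin (d + 1) → ℂ)) :
    pv (rotc r p).2 = denR r (pv p.1) (pv p.2) := by
  ext i
  unfold denR
  rw [coeff_add, coeff_C_mul, coeff_C_mul, pv_coeff, pv_coeff, pv_coeff]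
  split_ifs with h
  · rfl
  · simp

theorem rotc_nd {d : ℕ} (r : SU) {p : (Fin (d + 1) → ℂ) × (Fin (d + 1) → ℂ)} (hp : p ∈ ND d) :
    rotc r p ∈ ND d := by
  show IsCoprime (pv (rotc r p).1) (pv (rotc r p).2) ∧
    max (pv (rotc r p).1).natDegree (pv (rotc r p).2).natDegree = d
  rw [pv_rotc_fst, pv_rotc_snd]
  refine ⟨coprime_rot r hp.1, ?_⟩
  have := dg_rot r hp.1
  unfold dg at this
  rw [this]
  exact hp.2

theorem rm_rotc {d : ℕ} (r : SU) {p : (Fin (d + 1) → ℂ) × (Fin (d + 1) → ℂ)} (hp : p ∈ ND d)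
    (y : Sph) : rm (rotc r p) y = r • rm p y := by
  unfold rm
  rw [pv_rotc_fst, pv_rotc_snd]
  exact (rot_rat r hp.1 y).symm

theorem ab_one (r : SU) : r.a * conj r.a + r.b * conj r.b = 1 := by
  rw [Complex.mul_conj, Complex.mul_conj, Complex.normSq_eq_norm_sq, Complex.normSq_eq_norm_sq]
  exact_mod_cast r.norm_sq

theorem rotc_inv {d : ℕ} (r : SU) (p : (Fin (d + 1) → ℂ) × (Fin (d + 1) → ℂ)) :
    rotc r (rotc r.inv p) = p := by
  have h := ab_one r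
  refine Prod.ext (funext fun i => ?_) (funext fun i => ?_)
  · show r.a * (conj r.a * p.1 i - conj (-r.b) * p.2 i) -
      conj r.b * (-r.b * p.1 i + conj (conj r.a) * p.2 i) = p.1 i
    rw [Complex.conj_conj, map_neg]
    linear_combination p.1 i * h
  · show r.b * (conj r.a * p.1 i - conj (-r.b) * p.2 i) +
      conj r.a * (-r.b * p.1 i + conj (conj r.a) * p.2 i) = p.2 i
    rw [Complex.conj_conj, map_neg]
    linear_combination p.2 i * h

theorem inv_rotc {d : ℕ} (r : SU) (p : (Fin (d + 1) → ℂ) × (Fin (d + 1) → ℂ)) :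
    rotc r.inv (rotc r p) = p := by
  have h := ab_one r
  refine Prod.ext (funext fun i => ?_) (funext fun i => ?_)
  · show conj r.a * (r.a * p.1 i - conj r.b * p.2 i) -
      conj (-r.b) * (r.b * p.1 i + conj r.a * p.2 i) = p.1 i
    rw [map_neg]
    linear_combination p.1 i * h
  · show -r.b * (r.a * p.1 i - conj r.b * p.2 i) +
      conj (conj r.a) * (r.b * p.1 i + conj r.a * p.2 i) = p.2 i
    rw [Complex.conj_conj]
    linear_combination p.2 i * h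

theorem dist_rotc {d : ℕ} (r : SU) (p q : (Fin (d + 1) → ℂ) × (Fin (d + 1) → ℂ)) :
    dist (rotc r p) (rotc r q) ≤ 2 * dist p q := by
  have ha := r.norm_a_le
  have hb := r.norm_b_le
  have hd0 : 0 ≤ dist p q := dist_nonneg
  have h1 : ∀ i, ‖p.1 i - q.1 i‖ ≤ dist p q := fun i => by
    rw [← dist_eq_norm]
    exact (dist_le_pi_dist p.1 q.1 i).trans (le_max_left _ _)
  have h2 : ∀ i, ‖p.2 i - q.2 i‖ ≤ dist p q := fun i => by
    rw [← dist_eq_norm]
    exact (dist_le_pi_dist p.2 q.2 i).trans (le_max_right _ _)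
  rw [Prod.dist_eq, max_le_iff, dist_pi_le_iff (by positivity), dist_pi_le_iff (by positivity)]
  constructor
  · intro i
    rw [dist_eq_norm]
    show ‖r.a * p.1 i - conj r.b * p.2 i - (r.a * q.1 i - conj r.b * q.2 i)‖ ≤ _
    have e : r.a * p.1 i - conj r.b * p.2 i - (r.a * q.1 i - conj r.b * q.2 i) =
        r.a * (p.1 i - q.1 i) - conj r.b * (p.2 i - q.2 i) := by ring
    rw [e]
    calc _ ≤ ‖r.a * (p.1 i - q.1 i)‖ + ‖conj r.b * (p.2 i - q.2 i)‖ := norm_sub_le _ _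
      _ = ‖r.a‖ * ‖p.1 i - q.1 i‖ + ‖r.b‖ * ‖p.2 i - q.2 i‖ := by
          rw [norm_mul, norm_mul, RCLike.norm_conj]
      _ ≤ 1 * dist p q + 1 * dist p q := by
          gcongr
          · exact h1 i
          · exact h2 i
      _ = 2 * dist p q := by ring
  · intro i
    rw [dist_eq_norm]
    show ‖r.b * p.1 i + conj r.a * p.2 i - (r.b * q.1 i + conj r.a * q.2 i)‖ ≤ _
    have e : r.b * p.1 i + conj r.a * p.2 i - (r.b * q.1 i + conj r.a * q.2 i) =
        r.b * (p.1 i - q.1 i) + conj r.a * (p.2 i - q.2 i) := by ring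
    rw [e]
    calc _ ≤ ‖r.b * (p.1 i - q.1 i)‖ + ‖conj r.a * (p.2 i - q.2 i)‖ := norm_add_le _ _
      _ = ‖r.b‖ * ‖p.1 i - q.1 i‖ + ‖r.a‖ * ‖p.2 i - q.2 i‖ := by
          rw [norm_mul, norm_mul, RCLike.norm_conj]
      _ ≤ 1 * dist p q + 1 * dist p q := by
          gcongr
          · exact h1 i
          · exact h2 i
      _ = 2 * dist p q := by ring

theorem rotc_close {d : ℕ} {r : SU} {δ : ℝ} (hr : ‖r.a - 1‖ + ‖r.b‖ ≤ δ)
    (p : (Fin (d + 1) → ℂ) × (Fin (d + 1) → ℂ)) : ‖rotc r p - p‖ ≤ δ * ‖p‖ := by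
  have h1 : ∀ i, ‖p.1 i‖ ≤ ‖p‖ := fun i => (norm_le_pi_norm p.1 i).trans (le_max_left _ _)
  have h2 : ∀ i, ‖p.2 i‖ ≤ ‖p‖ := fun i => (norm_le_pi_norm p.2 i).trans (le_max_right _ _)
  have ha := norm_nonneg (r.a - 1)
  have hb := norm_nonneg r.b
  have hp := norm_nonneg p
  have hδ : 0 ≤ δ := by linarith
  have hδp : 0 ≤ δ * ‖p‖ := by positivity
  rw [Prod.norm_def, max_le_iff, pi_norm_le_iff_of_nonneg hδp, pi_norm_le_iff_of_nonneg hδp]
  constructor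
  · intro i
    show ‖r.a * p.1 i - conj r.b * p.2 i - p.1 i‖ ≤ _
    have e : r.a * p.1 i - conj r.b * p.2 i - p.1 i = (r.a - 1) * p.1 i - conj r.b * p.2 i := by
      ring
    rw [e]
    calc _ ≤ ‖(r.a - 1) * p.1 i‖ + ‖conj r.b * p.2 i‖ := norm_sub_le _ _
      _ = ‖r.a - 1‖ * ‖p.1 i‖ + ‖r.b‖ * ‖p.2 i‖ := by rw [norm_mul, norm_mul, RCLike.norm_conj]
      _ ≤ ‖r.a - 1‖ * ‖p‖ + ‖r.b‖ * ‖p‖ := by
          gcongr
          · exact h1 i
          · exact h2 i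
      _ = (‖r.a - 1‖ + ‖r.b‖) * ‖p‖ := by ring
      _ ≤ δ * ‖p‖ := by gcongr
  · intro i
    show ‖r.b * p.1 i + conj r.a * p.2 i - p.2 i‖ ≤ _
    have e : r.b * p.1 i + conj r.a * p.2 i - p.2 i = r.b * p.1 i + conj (r.a - 1) * p.2 i := by
      rw [map_sub, map_one]; ring
    rw [e]
    calc _ ≤ ‖r.b * p.1 i‖ + ‖conj (r.a - 1) * p.2 i‖ := norm_add_le _ _
      _ = ‖r.b‖ * ‖p.1 i‖ + ‖r.a - 1‖ * ‖p.2 i‖ := by rw [norm_mul, norm_mul, RCLike.norm_conj]
      _ ≤ ‖r.b‖ * ‖p‖ + ‖r.a - 1‖ * ‖p‖ := by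
          gcongr
          · exact h1 i
          · exact h2 i
      _ = (‖r.a - 1‖ + ‖r.b‖) * ‖p‖ := by ring
      _ ≤ δ * ‖p‖ := by gcongr

end Pool.Agent.H56.CF
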