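import Mathlib
import Pool.Agent.H56.CF.ND
import Pool.Agent.H56.CF.JCont
import Pool.Agent.H84.UC.CvU

/-!
# MODULE SAMPLE: upper semicontinuity of the critical values

`CVf p` = the values of `rat p` at `∞` and at the finite zeros of the Wronskian `Wr`.

PROOF.  `cvf_card`, `cvf_mem`: as in the proof of `cv_card` (`H84/UC/CvU`).

`sample`: let `p₀ ∈ ND d`, `η > 0`.  Work in the subtype `ND d` (which is open, `nd_open`, so a neighbourhood in
the subtype comes from an open set of the whole space; or intersect).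
(1) `A₁ = {(p, z) : ND d × Sph | dist (rat p z) (rat p₀ z) < η}` is open (`rat_jcont` (imported, may be used) and
continuity of `rat p₀`), and contains `{p₀} × Sph`.
(2) `C = {(p, z) : ND d × Sph | z = ∞ ∨ ∃ c : ℂ, z = c ∧ (Wr (pv p.1) (pv p.2)).eval c = 0}` is closed: its complement
is the image of the open set `{(p, c) | Wr.eval c ≠ 0}` of `ND d × ℂ` under the open embedding
`id × coe` (`OnePoint.isOpenEmbedding_coe`, `IsOpenEmbedding.prodMap`); the function `(p, c) ↦ Wr.eval c` is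
continuous: `(pv a).eval c = Σ a_i c^i`, `(pv a).derivative.eval c = Σ i a_i c^(i-1)`, `Wr P Q = P' Q - P Q'` (look at
the definition of `Wr`).
(3) `A₂ = {(p, z) | (p, z) ∉ C ∨ ∃ v' ∈ CVf p₀, dist (rat p z) v' < η}` is open and contains `{p₀} × Sph` (if
`(p₀, z) ∈ C` then `rat p₀ z ∈ CVf p₀`).
(4) `Sph` is compact: the tube lemma (`generalized_tube_lemma` or `isClosedMap_fst_of_compactSpace`, or
`IsCompact.eventually_forall_of_forall_eventually`) gives a neighbourhood `U` of `p₀` with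
`U × Sph ⊆ A₁ ∩ A₂`.  For `p ∈ U`, `v ∈ CVf p`: `v = rat p z` with `(p, z) ∈ C`.
(`Wr P Q ≠ 0` is needed for `mem_roots`: `wr_ne_zero`, used in `cv_card`; if `d = 0` the statement with
`2 ≤ d` is not needed, we assume `2 ≤ d`.)
-/

set_option autoImplicit false

open Filter Topology OnePoint
open Pool.Agent.H44.Fatou

namespace Pool.Agent.H56.CF

open Pool.Agent.H84.UC

open Classical in
/-- the values at infinity and at the zeros of the Wronskian -/
noncomputable def CVf {d : ℕ} (p : (Fin (d + 1) → ℂ) × (Fin (d + 1) → ℂ)) : Finset Sph :=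
  insert (rat (pv p.1) (pv p.2) ∞)
    ((Wr (pv p.1) (pv p.2)).roots.toFinset.image fun c : ℂ => rat (pv p.1) (pv p.2) (c : Sph))

theorem cvf_card {d : ℕ} (hd : 2 ≤ d) {p : (Fin (d + 1) → ℂ) × (Fin (d + 1) → ℂ)} (hp : p ∈ ND d) :
    (CVf p).card ≤ 2 * d := by
  classical
  unfold CVf
  refine (Finset.card_insert_le _ _).trans ?_
  have h1 : ((Wr (pv p.1) (pv p.2)).roots.toFinset.image
      fun c : ℂ => rat (pv p.1) (pv p.2) (c : Sph)).card ≤ 2 * d - 1 :=
    Finset.card_image_le.trans ((Multiset.toFinset_card_le _).trans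
      ((Polynomial.card_roots' _).trans (wr_natDegree (by omega) hp.2)))
  omega

theorem cvf_mem {d : ℕ} (hd : 2 ≤ d) {p : (Fin (d + 1) → ℂ) × (Fin (d + 1) → ℂ)} (hp : p ∈ ND d)
    {y : Sph} (hy : ¬ ∃ U ∈ 𝓝 y, Set.InjOn (rat (pv p.1) (pv p.2)) U) :
    rat (pv p.1) (pv p.2) y ∈ CVf p := by
  classical
  unfold CVf
  have hW := wr_ne_zero hp.1 (by rw [hp.2]; omega)
  induction y using OnePoint.rec with
  | infty => exact Finset.mem_insert_self _ _
  | coe c =>
    refine Finset.mem_insert_of_mem (Finset.mem_image_of_mem _ ?_)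
    rw [Multiset.mem_toFinset, Polynomial.mem_roots hW]
    exact crit_coe hy

theorem wr_continuous (d : ℕ) :
    Continuous fun q : ((Fin (d + 1) → ℂ) × (Fin (d + 1) → ℂ)) × ℂ =>
      (Wr (pv q.1.1) (pv q.1.2)).eval q.2 := by
  have h1 : ∀ (a : Fin (d + 1) → ℂ) (c : ℂ), (pv a).eval c = ∑ i, a i * c ^ (i : ℕ) := by
    intro a c
    simp [pv, Polynomial.eval_finsetSum]
  have h2 : ∀ (a : Fin (d + 1) → ℂ) (c : ℂ), (Polynomial.derivative (pv a)).eval c =
      ∑ i, a i * ((i : ℕ) * c ^ ((i : ℕ) - 1)) := by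
    intro a c
    simp [pv, Polynomial.eval_finsetSum, Polynomial.derivative_X_pow]
  unfold Wr
  simp only [Polynomial.eval_sub, Polynomial.eval_mul, h1, h2]
  fun_prop

theorem sample {d : ℕ} (hd : 2 ≤ d) {p₀ : (Fin (d + 1) → ℂ) × (Fin (d + 1) → ℂ)}
    (h₀ : p₀ ∈ ND d) {η : ℝ} (hη : 0 < η) :
    ∃ U : Set ((Fin (d + 1) → ℂ) × (Fin (d + 1) → ℂ)), IsOpen U ∧ p₀ ∈ U ∧ ∀ p ∈ U, p ∈ ND d →
      (∀ z : Sph, dist (rat (pv p.1) (pv p.2) z) (rat (pv p₀.1) (pv p₀.2) z) < η) ∧
      ∀ v ∈ CVf p, ∃ v' ∈ CVf p₀, dist v v' < η := by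
  classical
  have hev : ∀ᶠ p : ND d in 𝓝 ⟨p₀, h₀⟩, ∀ z ∈ (Set.univ : Set Sph),
      dist (rat (pv p.1.1) (pv p.1.2) z) (rat (pv p₀.1) (pv p₀.2) z) < η ∧
      ((z = ∞ ∨ ∃ c : ℂ, z = (c : Sph) ∧ (Wr (pv p.1.1) (pv p.1.2)).eval c = 0) →
        ∃ v' ∈ CVf p₀, dist (rat (pv p.1.1) (pv p.1.2) z) v' < η) := by
    refine isCompact_univ.eventually_forall_of_forall_eventually fun z _ => ?_
    have hc1 : Continuous fun q : ND d × Sph => rat (pv q.1.1.1) (pv q.1.1.2) q.2 := rat_jcont d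
    have hc2 : Continuous fun q : ND d × Sph => rat (pv p₀.1) (pv p₀.2) q.2 :=
      (rat_continuous h₀.1).comp continuous_snd
    have e1 : ∀ᶠ q : ND d × Sph in 𝓝 (⟨p₀, h₀⟩, z),
        dist (rat (pv q.1.1.1) (pv q.1.1.2) q.2) (rat (pv p₀.1) (pv p₀.2) q.2) < η := by
      refine (hc1.dist hc2).continuousAt.eventually (Iio_mem_nhds ?_)
      show dist (rat (pv p₀.1) (pv p₀.2) z) (rat (pv p₀.1) (pv p₀.2) z) < η
      rw [dist_self]
      exact hη
    have e2 : ∀ᶠ q : ND d × Sph in 𝓝 (⟨p₀, h₀⟩, z),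
        ((q.2 = ∞ ∨ ∃ c : ℂ, q.2 = (c : Sph) ∧ (Wr (pv q.1.1.1) (pv q.1.1.2)).eval c = 0) →
        ∃ v' ∈ CVf p₀, dist (rat (pv q.1.1.1) (pv q.1.1.2) q.2) v' < η) := by
      by_cases hz : z = ∞ ∨ ∃ c : ℂ, z = (c : Sph) ∧ (Wr (pv p₀.1) (pv p₀.2)).eval c = 0
      · have hmem : rat (pv p₀.1) (pv p₀.2) z ∈ CVf p₀ := by
          unfold CVf
          rcases hz with rfl | ⟨c, rfl, hc⟩
          · exact Finset.mem_insert_self _ _
          · refine Finset.mem_insert_of_mem (Finset.mem_image_of_mem _ ?_)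
            rw [Multiset.mem_toFinset,
              Polynomial.mem_roots (wr_ne_zero h₀.1 (by rw [h₀.2]; omega))]
            exact hc
        have e3 : ∀ᶠ q : ND d × Sph in 𝓝 (⟨p₀, h₀⟩, z),
            dist (rat (pv q.1.1.1) (pv q.1.1.2) q.2) (rat (pv p₀.1) (pv p₀.2) z) < η := by
          refine (hc1.dist continuous_const).continuousAt.eventually (Iio_mem_nhds ?_)
          show dist (rat (pv p₀.1) (pv p₀.2) z) (rat (pv p₀.1) (pv p₀.2) z) < η
          rw [dist_self]
          exact hη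
        filter_upwards [e3] with q hq _
        exact ⟨_, hmem, hq⟩
      · push Not at hz
        induction z using OnePoint.rec with
        | infty => exact absurd rfl hz.1
        | coe c =>
          have hc := hz.2 c rfl
          have hemb : IsOpenEmbedding (Prod.map (id : ND d → ND d) ((↑) : ℂ → Sph)) :=
            IsOpenEmbedding.id.prodMap OnePoint.isOpenEmbedding_coe
          have hmap := hemb.map_nhds_eq (⟨p₀, h₀⟩, c)
          have h5 : Prod.map (id : ND d → ND d) ((↑) : ℂ → Sph) (⟨p₀, h₀⟩, c) =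
            (⟨p₀, h₀⟩, (c : Sph)) := rfl
          rw [h5] at hmap
          rw [← hmap, eventually_map]
          have hcont : Continuous fun q : ND d × ℂ =>
              (Wr (pv q.1.1.1) (pv q.1.1.2)).eval q.2 :=
            (wr_continuous d).comp ((continuous_subtype_val.comp continuous_fst).prodMk
              continuous_snd)
          have e4 : ∀ᶠ q : ND d × ℂ in 𝓝 (⟨p₀, h₀⟩, c),
              (Wr (pv q.1.1.1) (pv q.1.1.2)).eval q.2 ≠ 0 :=
            hcont.continuousAt.eventually_ne hc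
          filter_upwards [e4] with q hq hq2
          exfalso
          rcases hq2 with h6 | ⟨c', h6, h7⟩
          · exact OnePoint.coe_ne_infty _ h6
          · have h8 : q.2 = c' := OnePoint.coe_injective h6
            exact hq (h8 ▸ h7)
    filter_upwards [e1, e2] with q h1 h2
    exact ⟨h1, h2⟩
  obtain ⟨V, hV, hVo, hmem⟩ := eventually_nhds_iff.1 hev
  obtain ⟨U, hU, rfl⟩ := isOpen_induced_iff.1 hVo
  refine ⟨U, hU, hmem, fun p hp hpd => ⟨fun z => (hV ⟨p, hpd⟩ hp z (Set.mem_univ _)).1, ?_⟩⟩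
  intro v hv
  unfold CVf at hv
  rcases Finset.mem_insert.1 hv with rfl | hv
  · exact (hV ⟨p, hpd⟩ hp ∞ (Set.mem_univ _)).2 (Or.inl rfl)
  · obtain ⟨c, hc, rfl⟩ := Finset.mem_image.1 hv
    rw [Multiset.mem_toFinset] at hc
    exact (hV ⟨p, hpd⟩ hp c (Set.mem_univ _)).2
      (Or.inr ⟨c, rfl, Polynomial.isRoot_of_mem_roots hc⟩)

end Pool.Agent.H56.CF
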