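import Mathlib
import Pool.Agent.H56.CF.Defs

/-!
# MODULE SELECT: the kicks of a block depend only on the block and its two neighbours

`Blk N ι` = blocks `b` of length `b.1.1 ≥ N` with the word `b.1.2 : ℕ → ι`.

PROOF.  Choose `P b, Acc b, Adm b` for every block `b : Blk N ι` (hypothesis with `n = b.1.1`, `w = b.1.2`).
Put `Good b c ω₁ ω₀ := ∀ p ∈ P b ω₁, p ∈ Acc c ω₀`.

(1) For fixed `ω₁`: `{ω₀ | ¬ Good b c ω₁ ω₀} ⊆ ⋃ p ∈ P b ω₁, {ω₀ | p ∉ Acc c ω₀}`, so
`5 * (m * #) ≤ Σ_{p ∈ P b ω₁} 5 * (m * #{ω₀ | p ∉ Acc c ω₀}) ≤ m * |Ω|` and `4 * # < |Ω|` (if `m = 0` then `P b ω₁ = ∅`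
and `# = 0 < |Ω|`).
(2) Double counting (as in the proof of `H84/UC/Chain.lean`, `hex`): for all `b, c` there is `Φ b c : Ω` with
`4 * #{ω₁ | ¬ Good b c ω₁ (Φ b c)} < |Ω|`.
(3) For all `a, b, c` there is `ψ a b c : Ω` with `Adm b (Φ a b) (ψ a b c)` and
`Good b c (ψ a b c) (Φ b c)`: the two sets of bad letters together have fewer than `|Ω| / 2` elements.
Let `A a b c` be the kicks of `BlockData` of `b` for `ω₀ = Φ a b`, `ω₁ = ψ a b c`, and `Q a b c = P b (ψ a b c)`.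
`disc`: `p ∈ Q a b c = P b (ψ a b c)` is in `Acc c (Φ b c)` by `Good`; the third part of the kicks of the block `c`
(letters `Φ b c`, `ψ b c d`) gives `z ∈ P c (ψ b c d) = Q b c d`.
`birth`: the fourth part for the block `b`.
-/

set_option autoImplicit false

namespace Pool.Agent.H56.CF

open Pool.Agent.H84.UC

theorem ncard_filter {Ω : Type} [Fintype Ω] (p : Ω → Prop) [DecidablePred p] :
    {ω | p ω}.ncard = (Finset.univ.filter p).card := by
  rw [← Set.ncard_coe_finset]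
  congr 1
  ext ω
  simp

/-- double counting -/
theorem exists_few {Ω : Type} [Fintype Ω] [Nonempty Ω] (G : Ω → Ω → Prop)
    (h : ∀ ω, 4 * {ω' | ¬ G ω ω'}.ncard < Fintype.card Ω) :
    ∃ ω₀, 4 * {ω | ¬ G ω ω₀}.ncard < Fintype.card Ω := by
  classical
  by_contra hcon
  push Not at hcon
  have hsum : ∑ ω : Ω, (Finset.univ.filter (fun ω' => ¬ G ω ω')).card
      = ∑ ω' : Ω, (Finset.univ.filter (fun ω => ¬ G ω ω')).card := by
    simp only [Finset.card_filter]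
    exact Finset.sum_comm
  have h1 : ∑ ω : Ω, 4 * (Finset.univ.filter (fun ω' => ¬ G ω ω')).card
      < ∑ _ω : Ω, Fintype.card Ω := by
    apply Finset.sum_lt_sum_of_nonempty Finset.univ_nonempty
    intro ω _
    have := h ω
    rwa [ncard_filter] at this
  have h2 : ∑ _ω : Ω, Fintype.card Ω
      ≤ ∑ ω' : Ω, 4 * (Finset.univ.filter (fun ω => ¬ G ω ω')).card := by
    apply Finset.sum_le_sum
    intro ω _
    have := hcon ω
    rwa [ncard_filter] at this
  rw [← Finset.mul_sum] at h1 h2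
  rw [hsum] at h1
  omega

/-- few letters do not accept all centres -/
theorem few_bad {S Ω : Type} [Fintype Ω] [Nonempty Ω] (P : Finset S) (Acc : Ω → Set S) (m : ℕ)
    (hP : P.card ≤ m) (hA : ∀ p, 5 * (m * {ω | p ∉ Acc ω}.ncard) ≤ Fintype.card Ω) :
    4 * {ω | ¬ ∀ p ∈ P, p ∈ Acc ω}.ncard < Fintype.card Ω := by
  classical
  have hN : 0 < Fintype.card Ω := Fintype.card_pos
  rw [ncard_filter]
  have hsub : (Finset.univ.filter fun ω => ¬ ∀ p ∈ P, p ∈ Acc ω) ⊆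
      P.biUnion fun p => Finset.univ.filter fun ω => p ∉ Acc ω := by
    intro ω hω
    rw [Finset.mem_filter] at hω
    have h1 := hω.2
    push Not at h1
    obtain ⟨p, hp, hpA⟩ := h1
    rw [Finset.mem_biUnion]
    exact ⟨p, hp, by rw [Finset.mem_filter]; exact ⟨Finset.mem_univ _, hpA⟩⟩
  have h1 := (Finset.card_le_card hsub).trans Finset.card_biUnion_le
  set s := ∑ p ∈ P, (Finset.univ.filter fun ω => p ∉ Acc ω).card with hs
  have h2 : 5 * (m * s) ≤ m * Fintype.card Ω := by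
    rw [hs, Finset.mul_sum, Finset.mul_sum]
    calc ∑ p ∈ P, 5 * (m * (Finset.univ.filter fun ω => p ∉ Acc ω).card)
        ≤ ∑ _p ∈ P, Fintype.card Ω := by
          apply Finset.sum_le_sum
          intro p _
          have := hA p
          rwa [ncard_filter] at this
      _ = P.card * Fintype.card Ω := by rw [Finset.sum_const, smul_eq_mul]
      _ ≤ m * Fintype.card Ω := Nat.mul_le_mul_right _ hP
  rcases Nat.eq_zero_or_pos m with h0 | hm
  · have hP0 : P = ∅ := by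
      rw [h0] at hP
      exact Finset.card_eq_zero.1 (Nat.le_zero.1 hP)
    have hs0 : s = 0 := by rw [hs, hP0, Finset.sum_empty]
    omega
  · have h3 : m * (5 * s) ≤ m * Fintype.card Ω := by
      calc m * (5 * s) = 5 * (m * s) := by ring
        _ ≤ _ := h2
    have h4 := Nat.le_of_mul_le_mul_left h3 hm
    omega

/-- two small sets of bad letters -/
theorem exists_both {Ω : Type} [Fintype Ω] [Nonempty Ω] (p q : Ω → Prop)
    (hp : 4 * {ω | ¬ p ω}.ncard < Fintype.card Ω) (hq : 4 * {ω | ¬ q ω}.ncard < Fintype.card Ω) :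
    ∃ ω, p ω ∧ q ω := by
  classical
  by_contra hcon
  push Not at hcon
  rw [ncard_filter] at hp hq
  have hcov : (Finset.univ : Finset Ω) ⊆
      (Finset.univ.filter (fun ω => ¬ p ω)) ∪ (Finset.univ.filter (fun ω => ¬ q ω)) := by
    intro x _
    rw [Finset.mem_union, Finset.mem_filter, Finset.mem_filter]
    by_cases hx : p x
    · exact Or.inr ⟨Finset.mem_univ _, hcon x hx⟩
    · exact Or.inl ⟨Finset.mem_univ _, hx⟩
  have hc := (Finset.card_le_card hcov).trans (Finset.card_union_le _ _)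
  rw [Finset.card_univ] at hc
  omega

theorem select {S K ι Ω : Type} [MetricSpace S] [Monoid K] [MulAction K S] [Fintype Ω] [Nonempty Ω]
    (κ : Kick K S) (f : ι → S → S) (W : ι → Finset S) {ε ρ ρ' : ℝ} {m M N : ℕ}
    (h : ∀ n ≥ N, ∀ w : ℕ → ι, ∃ (P : Ω → Finset S) (Acc : Ω → Set S) (Adm : Ω → Ω → Prop),
        BlockData κ ε ρ ρ' m M n (fun t => f (w t)) (fun t => W (w t)) P Acc Adm) :
    Nonempty (Sel κ f W ε ρ ρ' M N) := by
  choose P Acc Adm hBD using fun b : Blk N ι => h b.1.1 b.2 b.1.2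
  have hgood : ∀ b c : Blk N ι, ∀ ω₁,
      4 * {ω₀ | ¬ ∀ p ∈ P b ω₁, p ∈ Acc c ω₀}.ncard < Fintype.card Ω := fun b c ω₁ =>
    few_bad (P b ω₁) (Acc c) m ((hBD b).1 ω₁) (hBD c).2.1
  have hΦ : ∀ b c : Blk N ι, ∃ ω₀, 4 * {ω₁ | ¬ ∀ p ∈ P b ω₁, p ∈ Acc c ω₀}.ncard
      < Fintype.card Ω := fun b c =>
    exists_few (fun ω₁ ω₀ => ∀ p ∈ P b ω₁, p ∈ Acc c ω₀) (hgood b c)
  choose Φ hΦ using hΦ
  have hψ : ∀ a b c : Blk N ι, ∃ ω₁, Adm b (Φ a b) ω₁ ∧ ∀ p ∈ P b ω₁, p ∈ Acc c (Φ b c) :=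
    fun a b c => exists_both (fun ω₁ => Adm b (Φ a b) ω₁)
      (fun ω₁ => ∀ p ∈ P b ω₁, p ∈ Acc c (Φ b c)) ((hBD b).2.2.1 (Φ a b)) (hΦ b c)
  choose ψ hψ1 hψ2 using hψ
  have hA := fun a b c : Blk N ι => (hBD b).2.2.2 (Φ a b) (ψ a b c) (hψ1 a b c)
  choose A hA1 hA2 hA3 hA4 using hA
  exact ⟨{
    A := A
    Q := fun a b c => P b (ψ a b c)
    nrm_lt := hA1
    rare := hA2
    disc := fun a b c d p hp => hA3 b c d p (hψ2 a b c p hp)
    birth := fun a b c t ht v hv => hA4 a b c t ht v hv }⟩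

end Pool.Agent.H56.CF
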