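import Mathlib
import Pool.Agent.H56.CF.BlockRare
import Pool.Agent.H56.CF.Select
import Pool.Agent.H56.CF.Fibre
import Pool.Agent.H56.CF.ApproxT
import Pool.Agent.H56.CF.ContrO
import Pool.Agent.H56.CF.Sample
import Pool.Agent.H56.CF.Net
import Pool.Agent.H56.CF.RareO
import Pool.Agent.H56.CF.Rotate
import Pool.Agent.H84.UC.FinalK

/-!
# Cocycles of rational maps over zero dimensional systems: the main theorem
-/

set_option autoImplicit false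

open Filter Topology OnePoint
open Pool.Agent.H44.Fatou
open Pool.Agent.H76.Fatou (Lift)

namespace Pool.Agent.H56.CF

open Pool.Agent.H84.UC

universe u

/-- a locally constant choice of open sets around a continuous family is uniform -/
theorem unif_nbhd {X E : Type*} [TopologicalSpace X] [CompactSpace X] [T2Space X]
    [TotallyDisconnectedSpace X] [MetricSpace E] {q : X → E} (hq : Continuous q) {π : X → X}
    (hπ : IsLocallyConstant π) {U : X → Set E} (hU : ∀ x, IsOpen (U x))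
    (h : ∀ x, q x ∈ U (π x)) :
    ∃ η : ℝ, 0 < η ∧ ∀ x, ∀ p' : E, dist p' (q x) < η → p' ∈ U (π x) := by
  have h1 : ∀ x, ∃ e : ℝ, 0 < e ∧ Metric.ball (q x) (2 * e) ⊆ U (π x) := by
    intro x
    obtain ⟨e, he, h1⟩ := Metric.isOpen_iff.1 (hU (π x)) (q x) (h x)
    exact ⟨e / 2, by positivity, by rwa [mul_div_cancel₀ _ (two_ne_zero)]⟩
  choose e he1 he2 using h1
  obtain ⟨π₂, hπ₂, h2⟩ := zd_select
    (fun x₀ => {x | π x = π x₀} ∩ {x | dist (q x) (q x₀) < e x₀})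
    (fun x₀ => (hπ.isOpen_fiber (π x₀)).inter (isOpen_lt (hq.dist continuous_const)
      continuous_const)) (fun x₀ => ⟨rfl, by
        show dist (q x₀) (q x₀) < e x₀
        rw [dist_self]
        exact he1 x₀⟩)
  have hfin : (Set.range (fun x => e (π₂ x))).Finite := by
    have := hπ₂.range_finite.image e
    rwa [← Set.range_comp] at this
  by_cases hne : (Set.range (fun x => e (π₂ x))).Nonempty
  · obtain ⟨m, ⟨x₁, hx₁⟩, hm⟩ := Set.exists_min_image _ id hfin hne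
    refine ⟨m, by rw [← hx₁]; exact he1 _, fun x p' hp' => ?_⟩
    have h3 : m ≤ e (π₂ x) := hm _ ⟨x, rfl⟩
    obtain ⟨h4, h5⟩ := h2 x
    have h4' : π x = π (π₂ x) := h4
    have h5' : dist (q x) (q (π₂ x)) < e (π₂ x) := h5
    rw [h4']
    apply he2
    rw [Metric.mem_ball]
    have := dist_triangle p' (q x) (q (π₂ x))
    linarith
  · refine ⟨1, one_pos, fun x => absurd ⟨_, ⟨x, rfl⟩⟩ hne⟩

theorem main_cf {d : ℕ} (hd : 2 ≤ d) {K : Set ((Fin (d + 1) → ℂ) × (Fin (d + 1) → ℂ))}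
    (hK : IsCompact K) (hKd : K ⊆ ND d) (ε : ℝ) (hε : 0 < ε) (M : ℕ) (hM : 1 ≤ M) :
    ∃ N C : ℕ, ∀ {X : Type u} [TopologicalSpace X] [CompactSpace X] [T2Space X]
      [TotallyDisconnectedSpace X] (T : X ≃ₜ X),
      (∀ x : X, ∀ n : ℕ, 0 < n → n < N → (⇑T)^[n] x ≠ x) →
      ∀ p : X → (Fin (d + 1) → ℂ) × (Fin (d + 1) → ℂ), Continuous p → (∀ x, ‖p x‖ ≤ 1) →
      ∃ (A : X → SU) (q : X → (Fin (d + 1) → ℂ) × (Fin (d + 1) → ℂ)),
        IsLocallyConstant A ∧ Continuous q ∧ (∀ x, q x ∈ ND d) ∧ (∀ x, p x ∈ K → q x = p x) ∧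
        (∀ x, ‖(A x).a - 1‖ + ‖(A x).b‖ < ε) ∧ (∀ x, ‖q x - p x‖ ≤ ε) ∧
        (∀ x n, M * {j : ℕ | j < n ∧ A ((⇑T)^[j] x) ≠ 1}.ncard ≤ n + C) ∧
        ∃ η : ℝ, 0 < η ∧ ∀ q' : X → (Fin (d + 1) → ℂ) × (Fin (d + 1) → ℂ),
          (∀ x, dist (q' x) (q x) < η) → (∀ x, q' x ∈ ND d) ∧
        ∃ δ : ℝ, 0 < δ ∧ ∃ C' l : ℝ, 0 < l ∧ l < 1 ∧ ∀ (x : X) (c : Sph),
          (¬ ∃ U ∈ 𝓝 c, Set.InjOn (fun y => A x • rm (q' x) y) U) →
          ∀ (k n : ℕ) (y : Sph),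
            dist y (cp (orb (⇑T) (fun x y => A x • rm (q' x) y) x) 0 k c) < δ →
            dist (cp (orb (⇑T) (fun x y => A x • rm (q' x) y) x) k n y)
              (cp (orb (⇑T) (fun x y => A x • rm (q' x) y) x) 0 (k + n) c) ≤ C' * l ^ n := by
  classical
  obtain ⟨𝒦₀, h𝒦₀, h𝒦₀d, hnet⟩ := net.{u} hd hK hKd hε
  obtain ⟨δ₁, hδ₁, h𝒦d⟩ := h𝒦₀.exists_cthickening_subset_open (nd_open d) h𝒦₀d
  set 𝒦 := Metric.cthickening δ₁ 𝒦₀ with h𝒦def
  have h𝒦 : IsCompact 𝒦 := h𝒦₀.cthickening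
  have h𝒦₀' : ∀ p ∈ 𝒦₀, p ∈ 𝒦 := fun p hp => Metric.self_subset_cthickening _ hp
  obtain ⟨L, hL1, hL, c, hc⟩ := rat_unif hd h𝒦 (fun p hp => h𝒦d hp)
  obtain ⟨Ω, iF, iN, m, N₀, ρ, ρ', hρ'0, hρ', hρ1, hblk⟩ := block_rare kickSU lc_lift
    (fun f hf g hg => Lift.comp hf hg)
    (fun a => lift_smul a) (fun i : 𝒦 => rm i.1) (fun i => rm_lift (h𝒦d i.2)) L hL1
    (fun i => hL i.1 i.2) (fun i => c i.1)
    (fun η hη => by
      obtain ⟨ρ, hρ, h1⟩ := hc η hη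
      exact ⟨ρ, hρ, fun i => h1 i.1 i.2⟩) (fun i : 𝒦 => CVf i.1) (2 * d)
    (fun i => cvf_card hd (h𝒦d i.2)) ε hε (1 / 4) (by norm_num) M hM
  set N : ℕ := max N₀ 1 with hN
  have hN1 : 1 ≤ N := le_max_right _ _
  obtain ⟨σ⟩ := select (N := N) kickSU (fun i : 𝒦 => rm i.1) (fun i : 𝒦 => CVf i.1)
    (fun n hn w => hblk n ((le_max_left _ _).trans hn) w)
  -- the size of the approximation
  have hL0 : 0 < L ^ (2 * N) := by positivity
  obtain ⟨η, hη, hη1⟩ : ∃ η : ℝ, 0 < η ∧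
      L ^ (2 * N) * (((2 * N : ℕ) + 1) * η) + ρ' ≤ (ρ + ρ') / 2 := by
    refine ⟨(ρ - ρ') / 2 / (L ^ (2 * N) * ((2 * N : ℕ) + 1)), by
      apply div_pos (by linarith) (by positivity), ?_⟩
    have : L ^ (2 * N) * (((2 * N : ℕ) + 1) * ((ρ - ρ') / 2 / (L ^ (2 * N) * ((2 * N : ℕ) + 1)))) =
        (ρ - ρ') / 2 := by
      field_simp
    rw [this]
    linarith
  refine ⟨N, 2 * (2 * N), ?_⟩
  intro X _ _ _ _ T hT p hp hp1
  obtain ⟨q, hq, hq𝒦₀, hqK, hqp⟩ := hnet p hp hp1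
  have hq𝒦 : ∀ x, q x ∈ 𝒦 := fun x => h𝒦₀' _ (hq𝒦₀ x)
  -- samples
  have hsam := fun x : X => sample hd (h𝒦d (hq𝒦 x)) hη
  choose U hU1 hU2 hU3 using hsam
  obtain ⟨π, hπ, hπU⟩ := zd_select (fun x => q ⁻¹' (U x)) (fun x => (hU1 x).preimage hq)
    (fun x => hU2 x)
  have hπ' : IsLocallyConstant (fun x => (⟨q (π x), hq𝒦 _⟩ : 𝒦)) :=
    hπ.comp (fun x => (⟨q x, hq𝒦 x⟩ : 𝒦))
  obtain ⟨A, B, r, Z, hA, hA1, hB, hrare, htrap⟩ := fibre σ hN1 T hT _ hπ'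
  obtain ⟨η₂, hη₂, hη₂U⟩ := unif_nbhd hq hπ hU1 hπU
  refine ⟨A, q, hA, hq, fun x => h𝒦d (hq𝒦 x), hqK, hA1, hqp, ?_, min η₂ δ₁,
    lt_min hη₂ hδ₁, ?_⟩
  · intro x n
    exact rare_orbit hN1 hB (fun x => A x ≠ 1) M hrare x n
  · intro q' hq'
    have hq'𝒦 : ∀ x, q' x ∈ 𝒦 := fun x =>
      Metric.mem_cthickening_of_dist_le _ _ _ _ (hq𝒦₀ x) ((hq' x).le.trans (min_le_right _ _))
    have hq'U : ∀ x, q' x ∈ U (π x) := fun x =>
      hη₂U x _ ((hq' x).trans_le (min_le_left _ _))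
    refine ⟨fun x => h𝒦d (hq'𝒦 x), ?_⟩
    set G : X → Sph → Sph := fun x y => A x • rm (q' x) y with hG
    have hGL : ∀ x a b, dist (G x a) (G x b) ≤ L * dist a b := by
      intro x a b
      show dist (A x • rm (q' x) a) (A x • rm (q' x) b) ≤ _
      rw [kickSU.dist_smul]
      exact hL _ (hq'𝒦 x) a b
    have htrap' : Trap (⇑T) G (fun x => {u | ∃ v ∈ CVf (q' x), u = A x • v}) B r Z ρ
        ((ρ + ρ') / 2) := by
      refine approx_trap (L := L) (η := η) hL1 hη.le (fun x a b => ?_) (fun x a => ?_)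
        (fun x v hv => ?_) hB htrap hη1
      · show dist (A x • rm (q (π x)) a) (A x • rm (q (π x)) b) ≤ _
        rw [kickSU.dist_smul]
        exact hL _ (hq𝒦 _) a b
      · show dist (A x • rm (q' x) a) (A x • rm (q (π x)) a) ≤ _
        rw [kickSU.dist_smul]
        exact ((hU3 (π x) (q' x) (hq'U x) (h𝒦d (hq'𝒦 x))).1 a).le
      · obtain ⟨v, hv, rfl⟩ := hv
        obtain ⟨v', hv', h1⟩ := (hU3 (π x) (q' x) (hq'U x) (h𝒦d (hq'𝒦 x))).2 v hv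
        refine ⟨A x • v', ⟨v', hv', rfl⟩, ?_⟩
        rw [kickSU.dist_smul]
        exact h1.le
    obtain ⟨δ, hδ, C', l, hl0, hl1, h1⟩ := contr_orbit lc_lift
      (fun f hf g hg => Lift.comp hf hg) hN1
      (fun x => (Lift.comp (lift_smul (A x)) (rm_lift (h𝒦d (hq'𝒦 x))) : Lift (G x))) hL1 hGL hB
      htrap' (by linarith) (d := 1 / 4) (by norm_num)
      (fun p => by
        obtain ⟨y, hy⟩ := exists_far p
        exact ⟨y, by rw [hy]; linarith⟩)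
    refine ⟨δ, hδ, C', l, hl0, hl1, fun x c hcrit => h1 x c ?_⟩
    refine ⟨rm (q' x) c, cvf_mem hd (h𝒦d (hq'𝒦 x)) ?_, rfl⟩
    rintro ⟨U, hU, hinj⟩
    apply hcrit
    refine ⟨U, hU, fun a ha b hb hab => hinj ha hb ?_⟩
    have h2 : A x • rm (q' x) a = A x • rm (q' x) b := hab
    have h3 : rm (q' x) a = rm (q' x) b := by
      rw [← SU.inv_smul_smul (A x) (rm (q' x) a), h2, SU.inv_smul_smul]
    exact h3

end Pool.Agent.H56.CF
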