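import Mathlib
import Pool.Agent.H56.CF.Defs
import Pool.Agent.H56.CF.AttrC
import Pool.Agent.H84.UC.CvU

/-!
# The compositions over periodic orbits
-/

set_option autoImplicit false

open Filter Topology OnePoint
open Pool.Agent.H44.Fatou
open Pool.Agent.H35.NA (Attr attr_of_iterate)

namespace Pool.Agent.H56.CF

open Pool.Agent.H84.UC

theorem iterate_mul_fix {X : Type*} {T : X → X} {x : X} {n : ℕ} (hx : T^[n] x = x) (i : ℕ) :
    T^[n * i] x = x := by
  rw [Function.iterate_mul]
  exact Function.iterate_fixed hx i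

theorem cp_per {X S : Type*} {T : X → X} {G : X → S → S} {x : X} {n : ℕ} (hx : T^[n] x = x)
    (j k : ℕ) (y : S) :
    cp (orb T G x) (n * j) (n * k) y = (cp (orb T G x) 0 n)^[k] y := by
  induction k with
  | zero => simp
  | succ k ih =>
    rw [Nat.mul_succ, cp_add, ih, Function.iterate_succ_apply']
    apply cp_congr
    intro i hi
    unfold orb
    have e : n * j + n * k + i = i + n * (j + k) := by ring
    rw [e, Function.iterate_add_apply, iterate_mul_fix hx, Nat.zero_add]

theorem attr_periodic {X : Type*} {T : X → X} {G : X → Sph → Sph} (hG : ∀ x, Continuous (G x))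
    {δ C' l : ℝ} (hδ : 0 < δ) (hl0 : 0 < l) (hl1 : l < 1)
    (h : ∀ (x : X) (c : Sph), (¬ ∃ U ∈ 𝓝 c, Set.InjOn (G x) U) → ∀ (k n : ℕ) (y : Sph),
      dist y (cp (orb T G x) 0 k c) < δ →
      dist (cp (orb T G x) k n y) (cp (orb T G x) 0 (k + n) c) ≤ C' * l ^ n)
    {x : X} {n : ℕ} (hn : 0 < n) (hx : T^[n] x = x) (c : Sph)
    (hc : ¬ ∃ U ∈ 𝓝 c, Set.InjOn (cp (orb T G x) 0 n) U) :
    Attr (cp (orb T G x) 0 n) c := by
  obtain ⟨t, ht, hct⟩ := crit_cp (g := orb T G x) (fun t => hG _) hc
  set Φ : Sph → Sph := cp (orb T G x) 0 n with hΦ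
  have hcont : Continuous Φ := by
    have : ∀ m, Continuous (cp (orb T G x) 0 m) := by
      intro m
      induction m with
      | zero => exact continuous_id
      | succ m ih => exact (hG _).comp ih
    exact this n
  have hit : ∀ k y, cp (orb T G x) 0 (n * k) y = Φ^[k] y := by
    intro k y
    have := cp_per (G := G) hx 0 k y
    rwa [Nat.mul_zero] at this
  -- the orbit of the critical point of the map number `t`
  have key : ∀ k, 1 ≤ k → ∀ m, cp (orb T G (T^[t] x)) 0 (n * k - t + m) (cp (orb T G x) 0 t c) =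
      cp (orb T G x) 0 (n * k + m) c := by
    intro k hk m
    have h1 : n ≤ n * k := Nat.le_mul_of_pos_right n hk
    rw [cp_orb_shift, Nat.add_zero]
    have h2 := cp_add (orb T G x) 0 t (n * k - t + m) c
    rw [Nat.zero_add] at h2
    rw [← h2]
    congr 1
    omega
  have hmain : ∀ k m y, dist y (Φ^[k] (Φ c)) < δ →
      dist (Φ^[m] y) (Φ^[k + m] (Φ c)) ≤ C' * (l ^ n) ^ m := by
    intro k m y hy
    have h1 : n ≤ n * (k + 1) := Nat.le_mul_of_pos_right n (by omega)
    have e1 : Φ^[k] (Φ c) = cp (orb T G (T^[t] x)) 0 (n * (k + 1) - t) (cp (orb T G x) 0 t c) := by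
      have := key (k + 1) (by omega) 0
      rw [Nat.add_zero] at this
      rw [this, Nat.add_zero, hit, Function.iterate_succ_apply]
    have e2 : Φ^[k + m] (Φ c) =
        cp (orb T G (T^[t] x)) 0 (n * (k + 1) - t + n * m) (cp (orb T G x) 0 t c) := by
      rw [key (k + 1) (by omega) (n * m), ← Nat.mul_add, hit]
      have : k + 1 + m = k + m + 1 := by omega
      rw [this, Function.iterate_succ_apply]
    have e3 : Φ^[m] y = cp (orb T G (T^[t] x)) (n * (k + 1) - t) (n * m) y := by
      rw [cp_orb_shift]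
      have h2 : t + (n * (k + 1) - t) = n * (k + 1) := by omega
      rw [h2, cp_per hx]
    rw [e2, e3, ← pow_mul]
    rw [e1] at hy
    have hct' : ¬ ∃ U ∈ 𝓝 (cp (orb T G x) 0 t c), Set.InjOn (G (T^[t] x)) U := hct
    exact h _ _ hct' _ _ y hy
  have h2 : Attr Φ (Φ c) := attr_of_contr hcont hδ (pow_pos hl0 n)
    (pow_lt_one₀ hl0.le hl1 hn.ne') hmain
  exact attr_of_iterate hcont 1 h2

end Pool.Agent.H56.CF
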